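import Mathlib

namespace Pool.Agent.Lib.MP_cacba2_co

open Filter Topology

/-! ### Bounded functions and functionals -/

/-- A bounded real function. -/
def Bdd {G : Type*} (f : G → ℝ) : Prop := ∃ B : ℝ, ∀ x, |f x| ≤ B

section bdd

variable {G : Type*} {f g : G → ℝ}

lemma Bdd.exists_nonneg (hf : Bdd f) : ∃ B : ℝ, 0 ≤ B ∧ ∀ x, |f x| ≤ B := by
  obtain ⟨B, hB⟩ := hf
  exact ⟨max B 0, le_max_right _ _, fun x => (hB x).trans (le_max_left _ _)⟩

lemma bdd_const (c : ℝ) : Bdd (fun _ : G => c) := ⟨|c|, fun _ => le_rfl⟩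

lemma Bdd.add (hf : Bdd f) (hg : Bdd g) : Bdd (fun x => f x + g x) := by
  obtain ⟨B, hB⟩ := hf
  obtain ⟨C, hC⟩ := hg
  exact ⟨B + C, fun x => (abs_add_le _ _).trans (add_le_add (hB x) (hC x))⟩

lemma Bdd.neg (hf : Bdd f) : Bdd (fun x => - f x) := by
  obtain ⟨B, hB⟩ := hf
  exact ⟨B, fun x => by simpa using hB x⟩

lemma Bdd.sub (hf : Bdd f) (hg : Bdd g) : Bdd (fun x => f x - g x) := by
  simpa [sub_eq_add_neg] using hf.add hg.neg

lemma Bdd.mul (hf : Bdd f) (hg : Bdd g) : Bdd (fun x => f x * g x) := by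
  obtain ⟨B, hB0, hB⟩ := hf.exists_nonneg
  obtain ⟨C, hC⟩ := hg
  exact ⟨B * C, fun x => by
    rw [abs_mul]; exact mul_le_mul (hB x) (hC x) (abs_nonneg _) hB0⟩

lemma Bdd.abs (hf : Bdd f) : Bdd (fun x => |f x|) := by
  obtain ⟨B, hB⟩ := hf
  exact ⟨B, fun x => by simpa using hB x⟩

lemma Bdd.comp {H : Type*} (hf : Bdd f) (k : H → G) : Bdd (fun x => f (k x)) := by
  obtain ⟨B, hB⟩ := hf
  exact ⟨B, fun x => hB _⟩

lemma Bdd.sum {ι : Type*} (S : Finset ι) {F : ι → G → ℝ} (hF : ∀ i ∈ S, Bdd (F i)) :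
    Bdd (fun x => ∑ i ∈ S, F i x) := by
  classical
  induction S using Finset.induction_on with
  | empty => simpa using bdd_const (G := G) 0
  | insert a S ha ih =>
    have h1 := (hF a (Finset.mem_insert_self _ _)).add
      (ih fun i hi => hF i (Finset.mem_insert_of_mem hi))
    convert h1 using 2
    rw [Finset.sum_insert ha]

lemma bdd_of_mem_unit (h0 : ∀ x, 0 ≤ f x) (h1 : ∀ x, f x ≤ 1) : Bdd f :=
  ⟨1, fun x => by rw [abs_of_nonneg (h0 x)]; exact h1 x⟩

lemma bdd_ite (p : G → Prop) [DecidablePred p] : Bdd (fun x => if p x then (1 : ℝ) else 0) :=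
  ⟨1, fun x => by by_cases h : p x <;> simp [h]⟩

end bdd

/-- `L` is a bounded functional on bounded functions with constant `C`. -/
structure BF {G : Type*} (L : (G → ℝ) →ₗ[ℝ] ℝ) (C : ℝ) : Prop where
  nonneg : 0 ≤ C
  bound : ∀ (f : G → ℝ) (B : ℝ), 0 ≤ B → (∀ x, |f x| ≤ B) → |L f| ≤ C * B

/-- `L` is nonnegative on bounded nonnegative functions. -/
def PosF {G : Type*} (L : (G → ℝ) →ₗ[ℝ] ℝ) : Prop :=
  ∀ f, Bdd f → (∀ x, 0 ≤ f x) → 0 ≤ L f

lemma PosF.mono {G : Type*} {L : (G → ℝ) →ₗ[ℝ] ℝ} (hL : PosF L) {f g : G → ℝ}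
    (hf : Bdd f) (hg : Bdd g) (h : ∀ x, f x ≤ g x) : L f ≤ L g := by
  have h1 := hL (fun x => g x - f x) (hg.sub hf) (fun x => sub_nonneg.2 (h x))
  have h2 : L (fun x => g x - f x) = L g - L f := by
    rw [← map_sub]; rfl
  linarith

lemma map_add' {G : Type*} (L : (G → ℝ) →ₗ[ℝ] ℝ) (f g : G → ℝ) :
    L (fun x => f x + g x) = L f + L g := by
  rw [← map_add]; rfl

lemma map_sub' {G : Type*} (L : (G → ℝ) →ₗ[ℝ] ℝ) (f g : G → ℝ) :
    L (fun x => f x - g x) = L f - L g := by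
  rw [← map_sub]; rfl

lemma map_const_mul {G : Type*} (L : (G → ℝ) →ₗ[ℝ] ℝ) (c : ℝ) (f : G → ℝ) :
    L (fun x => c * f x) = c * L f := by
  have h := L.map_smul c f
  rw [smul_eq_mul] at h
  rw [← h]; rfl

lemma map_mul_const {G : Type*} (L : (G → ℝ) →ₗ[ℝ] ℝ) (c : ℝ) (f : G → ℝ) :
    L (fun x => f x * c) = L f * c := by
  rw [mul_comm, ← map_const_mul]; simp [mul_comm]

lemma map_sum' {G ι : Type*} (L : (G → ℝ) →ₗ[ℝ] ℝ) (S : Finset ι) (F : ι → G → ℝ) :
    L (fun x => ∑ i ∈ S, F i x) = ∑ i ∈ S, L (F i) := by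
  rw [← map_sum]
  congr 1
  ext x
  simp

lemma PosF.abs_le {G : Type*} {L : (G → ℝ) →ₗ[ℝ] ℝ} (hL : PosF L) {f : G → ℝ}
    (hf : Bdd f) : |L f| ≤ L (fun x => |f x|) := by
  rw [_root_.abs_le]
  constructor
  · have h := hL.mono (f := fun x => - |f x|) (g := f) hf.abs.neg hf (fun x => neg_abs_le _)
    have h2 : L (fun x => - |f x|) = - L (fun x => |f x|) := by
      rw [← map_neg]; rfl
    linarith
  · exact hL.mono hf hf.abs (fun x => le_abs_self _)

lemma PosF.bf {G : Type*} {L : (G → ℝ) →ₗ[ℝ] ℝ} (hL : PosF L) :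
    BF L (L (fun _ => 1)) := by
  have h1 : 0 ≤ L (fun _ => 1) := hL _ (bdd_const 1) (fun _ => zero_le_one)
  refine ⟨h1, fun f B hB hf => ?_⟩
  have hb : Bdd f := ⟨B, hf⟩
  refine (hL.abs_le hb).trans ?_
  have h2 : L (fun _ => B * 1) = B * L (fun _ => 1) := map_const_mul L B (fun _ => 1)
  have h3 := hL.mono (f := fun x => |f x|) (g := fun _ => B * 1) hb.abs (bdd_const _)
    (fun x => by simpa using hf x)
  linarith [mul_comm B (L (fun _ => 1))]

/-- Cauchy–Schwarz for positive functionals. -/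
lemma PosF.cs {G : Type*} {L : (G → ℝ) →ₗ[ℝ] ℝ} (hL : PosF L) {f g : G → ℝ}
    (hf : Bdd f) (hg : Bdd g) :
    (L (fun x => f x * g x)) ^ 2 ≤ L (fun x => f x * f x) * L (fun x => g x * g x) := by
  have key : ∀ t : ℝ, 0 ≤ L (fun x => g x * g x) * (t * t)
      + (2 * L (fun x => f x * g x)) * t + L (fun x => f x * f x) := by
    intro t
    have h0 := hL (fun x => (f x + t * g x) * (f x + t * g x))
      ((hf.add ((bdd_const t).mul hg)).mul (hf.add ((bdd_const t).mul hg)))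
      (fun x => mul_self_nonneg _)
    have h1 : (fun x => (f x + t * g x) * (f x + t * g x))
        = fun x => (f x * f x + (2 * t) * (f x * g x)) + (t * t) * (g x * g x) := by
      ext x; ring
    rw [h1, map_add' L (fun x => f x * f x + (2 * t) * (f x * g x)),
      map_add' L (fun x => f x * f x), map_const_mul, map_const_mul] at h0
    linarith
  have := discrim_le_zero key
  unfold discrim at this
  nlinarith [this]

/-- A mean. -/
structure IsMean {G : Type*} (m : (G → ℝ) →ₗ[ℝ] ℝ) : Prop where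
  pos : PosF m
  one : m (fun _ => 1) = 1

/-- left invariance -/
def LInv {G : Type*} [Group G] (m : (G → ℝ) →ₗ[ℝ] ℝ) : Prop :=
  ∀ (g : G) (f : G → ℝ), Bdd f → m (fun x => f (g * x)) = m f

/-- right invariance -/
def RInv {G : Type*} [Group G] (m : (G → ℝ) →ₗ[ℝ] ℝ) : Prop :=
  ∀ (g : G) (f : G → ℝ), Bdd f → m (fun x => f (x * g)) = m f

section mean

variable {G : Type*} {m : (G → ℝ) →ₗ[ℝ] ℝ}

lemma IsMean.const (hm : IsMean m) (c : ℝ) : m (fun _ => c) = c := by
  have := map_const_mul m c (fun _ => 1)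
  rw [hm.one] at this
  simpa using this

lemma IsMean.bf (hm : IsMean m) : BF m 1 := by
  have := hm.pos.bf
  rwa [hm.one] at this

lemma IsMean.abs_le (hm : IsMean m) {f : G → ℝ} {B : ℝ} (hB : ∀ x, |f x| ≤ B) :
    |m f| ≤ B := by
  have hb : Bdd f := ⟨B, hB⟩
  refine (hm.pos.abs_le hb).trans ?_
  have := hm.pos.mono hb.abs (bdd_const B) hB
  rwa [hm.const] at this

lemma IsMean.le (hm : IsMean m) {f : G → ℝ} {B : ℝ} (hf : Bdd f) (hB : ∀ x, f x ≤ B) :
    m f ≤ B := by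
  have := hm.pos.mono hf (bdd_const B) hB
  rwa [hm.const] at this

lemma IsMean.ge (hm : IsMean m) {f : G → ℝ} {B : ℝ} (hf : Bdd f) (hB : ∀ x, B ≤ f x) :
    B ≤ m f := by
  have := hm.pos.mono (bdd_const B) hf hB
  rwa [hm.const] at this

lemma IsMean.sq_le (hm : IsMean m) {f : G → ℝ} (hf : Bdd f) :
    (m f) ^ 2 ≤ m (fun x => f x * f x) := by
  have := hm.pos.cs hf (bdd_const 1)
  simpa [hm.one] using this

end mean

/-! ### Interchange of functionals -/

/-- `κ` can be uniformly approximated by finitely many rows. -/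
def Sep {G X : Type*} (κ : G → X → ℝ) : Prop :=
  ∀ ε : ℝ, 0 < ε → ∃ (S : Finset G) (s : G → G), (∀ g, s g ∈ S) ∧
    ∀ g x, |κ g x - κ (s g) x| ≤ ε

lemma expand_finite {G : Type*} [DecidableEq G] (L : (G → ℝ) →ₗ[ℝ] ℝ) {S : Finset G} {s : G → G}
    (hs : ∀ g, s g ∈ S) (v Φ : G → ℝ) :
    L (fun g => v g * Φ (s g)) = ∑ t ∈ S, Φ t * L (fun g => v g * if s g = t then 1 else 0) := by
  have h1 : (fun g => v g * Φ (s g))
      = fun g => ∑ t ∈ S, Φ t * (v g * if s g = t then 1 else 0) := by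
    ext g
    rw [Finset.sum_eq_single (s g)]
    · simp [mul_comm]
    · intro b _ hb
      simp [hb.symm]
    · intro h; exact absurd (hs g) h
  rw [h1, map_sum' L S (fun t g => Φ t * (v g * if s g = t then 1 else 0))]
  refine Finset.sum_congr rfl fun t _ => ?_
  exact map_const_mul L (Φ t) (fun g => v g * if s g = t then 1 else 0)

theorem interchange {G X : Type*} {L₁ : (G → ℝ) →ₗ[ℝ] ℝ} {L₂ : (X → ℝ) →ₗ[ℝ] ℝ} {C₁ C₂ : ℝ}
    (h₁ : BF L₁ C₁) (h₂ : BF L₂ C₂) {κ : G → X → ℝ} (hκ : Sep κ)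
    {v : G → ℝ} {h : X → ℝ} (hv : Bdd v) (hh : Bdd h) :
    L₁ (fun g => v g * L₂ (fun x => κ g x * h x))
      = L₂ (fun x => h x * L₁ (fun g => v g * κ g x)) := by
  classical
  obtain ⟨V, hV0, hV⟩ := hv.exists_nonneg
  obtain ⟨H, hH0, hH⟩ := hh.exists_nonneg
  set T : ℝ := 2 * (C₁ * V * (C₂ * H)) + 1 with hT
  have hTpos : 0 < T := by
    have := h₁.nonneg; have := h₂.nonneg
    positivity
  apply eq_of_abs_sub_le_all
  intro ε hε
  obtain ⟨S, s, hs, hsk⟩ := hκ (ε / T) (div_pos hε hTpos)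
  have hεT : 0 ≤ ε / T := (div_pos hε hTpos).le
  -- exact identity for the finite kernel
  have hfin : L₁ (fun g => v g * L₂ (fun x => κ (s g) x * h x))
      = L₂ (fun x => h x * L₁ (fun g => v g * κ (s g) x)) := by
    rw [expand_finite L₁ hs v (fun t => L₂ (fun x => κ t x * h x))]
    have : (fun x => h x * L₁ (fun g => v g * κ (s g) x))
        = fun x => ∑ t ∈ S, L₁ (fun g => v g * if s g = t then 1 else 0) * (κ t x * h x) := by
      ext x
      rw [expand_finite L₁ hs v (fun t => κ t x), Finset.mul_sum]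
      refine Finset.sum_congr rfl fun t _ => ?_
      ring
    rw [this, map_sum' L₂ S
      (fun t x => L₁ (fun g => v g * if s g = t then 1 else 0) * (κ t x * h x))]
    refine Finset.sum_congr rfl fun t _ => ?_
    rw [map_const_mul, mul_comm]
  -- error on the left
  have e1 : |L₁ (fun g => v g * L₂ (fun x => κ g x * h x))
      - L₁ (fun g => v g * L₂ (fun x => κ (s g) x * h x))| ≤ C₁ * (V * (C₂ * (ε / T * H))) := by
    rw [← map_sub']
    have hnn := h₂.nonneg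
    apply h₁.bound _ _ (by positivity)
    intro g
    rw [← mul_sub, abs_mul, ← map_sub']
    refine mul_le_mul (hV g) ?_ (abs_nonneg _) hV0
    apply h₂.bound _ _ (by positivity)
    intro x
    rw [← sub_mul, abs_mul]
    exact mul_le_mul (hsk g x) (hH x) (abs_nonneg _) hεT
  have e2 : |L₂ (fun x => h x * L₁ (fun g => v g * κ g x))
      - L₂ (fun x => h x * L₁ (fun g => v g * κ (s g) x))| ≤ C₂ * (H * (C₁ * (V * (ε / T)))) := by
    rw [← map_sub']
    have hnn := h₁.nonneg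
    apply h₂.bound _ _ (by positivity)
    intro x
    rw [← mul_sub, abs_mul, ← map_sub']
    refine mul_le_mul (hH x) ?_ (abs_nonneg _) hH0
    apply h₁.bound _ _ (by positivity)
    intro g
    rw [← mul_sub, abs_mul]
    exact mul_le_mul (hV g) (hsk g x) (abs_nonneg _) hV0
  have e3 : |L₁ (fun g => v g * L₂ (fun x => κ g x * h x))
      - L₂ (fun x => h x * L₁ (fun g => v g * κ g x))|
      ≤ C₁ * (V * (C₂ * (ε / T * H))) + C₂ * (H * (C₁ * (V * (ε / T)))) := by
    rw [_root_.abs_le] at e1 e2 ⊢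
    constructor <;> linarith [e1.1, e1.2, e2.1, e2.2, hfin]
  refine e3.trans ?_
  have : C₁ * (V * (C₂ * (ε / T * H))) + C₂ * (H * (C₁ * (V * (ε / T))))
      = (2 * (C₁ * V * (C₂ * H))) * (ε / T) := by ring
  rw [this]
  calc (2 * (C₁ * V * (C₂ * H))) * (ε / T) ≤ T * (ε / T) := by
        apply mul_le_mul_of_nonneg_right _ hεT
        rw [hT]; linarith
    _ = ε := by field_simp

end Pool.Agent.Lib.MP_cacba2_co
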