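import Pool.Agent.Lib.MP_cacba2_co.Basic

namespace Pool.Agent.Lib.MP_cacba2_co

open Filter Topology

/-- A conjugation invariant, totally bounded group pseudo-norm. -/
structure BohrNorm (G : Type*) [Group G] where
  d : G → ℝ
  nonneg : ∀ g, 0 ≤ d g
  one : d 1 = 0
  inv : ∀ g, d g⁻¹ = d g
  mul : ∀ g h, d (g * h) ≤ d g + d h
  conj : ∀ g h, d (h * g * h⁻¹) = d g
  tb : ∀ η : ℝ, 0 < η → ∃ S : Finset G, ∀ g, ∃ s ∈ S, d (s⁻¹ * g) < η

namespace BohrNorm

variable {G : Type*} [Group G] (D : BohrNorm G)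

lemma comm (a b : G) : D.d (a * b) = D.d (b * a) := by
  rw [← D.conj (a * b) b]
  congr 1; group

lemma inv_mul_symm (a b : G) : D.d (a⁻¹ * b) = D.d (b⁻¹ * a) := by
  rw [← D.inv (a⁻¹ * b)]
  congr 1; group

lemma trans (a b c : G) : D.d (a⁻¹ * c) ≤ D.d (a⁻¹ * b) + D.d (b⁻¹ * c) := by
  have : a⁻¹ * c = (a⁻¹ * b) * (b⁻¹ * c) := by group
  rw [this]; exact D.mul _ _

lemma inv_mul_right (x y c : G) : D.d ((x⁻¹ * c)⁻¹ * (y⁻¹ * c)) = D.d (x⁻¹ * y) := by
  have h1 : (x⁻¹ * c)⁻¹ * (y⁻¹ * c) = c⁻¹ * (x * y⁻¹) * c⁻¹⁻¹ := by group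
  rw [h1, D.conj, D.comm, D.inv_mul_symm]

lemma mul_right (x y c : G) : D.d ((x * c)⁻¹ * (y * c)) = D.d (x⁻¹ * y) := by
  have h1 : (x * c)⁻¹ * (y * c) = c⁻¹ * (x⁻¹ * y) * c⁻¹⁻¹ := by group
  rw [h1, D.conj]

lemma mul_left (x y c : G) : D.d ((c * x)⁻¹ * (c * y)) = D.d (x⁻¹ * y) := by
  congr 1; group

lemma abs_sub_le (x y : G) : |D.d x - D.d y| ≤ D.d (x⁻¹ * y) := by
  rw [_root_.abs_le]
  have h1 : D.d y ≤ D.d x + D.d (x⁻¹ * y) := by
    have := D.mul x (x⁻¹ * y)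
    rwa [mul_inv_cancel_left] at this
  have h2 : D.d x ≤ D.d y + D.d (y⁻¹ * x) := by
    have := D.mul y (y⁻¹ * x)
    rwa [mul_inv_cancel_left] at this
  rw [D.inv_mul_symm y x] at h2
  constructor <;> linarith

lemma bdd : Bdd D.d := by
  classical
  obtain ⟨S, hS⟩ := D.tb 1 one_pos
  refine ⟨∑ s ∈ S, D.d s + 1, fun g => ?_⟩
  obtain ⟨s, hs, h⟩ := hS g
  rw [abs_of_nonneg (D.nonneg g)]
  have h1 : D.d g ≤ D.d s + D.d (s⁻¹ * g) := by
    have := D.mul s (s⁻¹ * g)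
    rwa [mul_inv_cancel_left] at this
  have h2 : D.d s ≤ ∑ s ∈ S, D.d s := Finset.single_le_sum (fun i _ => D.nonneg i) hs
  linarith

/-- a nearest-point selection -/
lemma exists_selection {η : ℝ} (hη : 0 < η) :
    ∃ (S : Finset G) (s : G → G), (∀ g, s g ∈ S) ∧ ∀ g, D.d ((s g)⁻¹ * g) < η := by
  obtain ⟨S, hS⟩ := D.tb η hη
  choose s hs h using hS
  exact ⟨S, s, hs, h⟩

/-- The sum of two Bohr norms. -/
def add (D E : BohrNorm G) : BohrNorm G where
  d g := D.d g + E.d g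
  nonneg g := add_nonneg (D.nonneg g) (E.nonneg g)
  one := by simp [D.one, E.one]
  inv g := by simp [D.inv, E.inv]
  mul g h := by linarith [D.mul g h, E.mul g h]
  conj g h := by rw [D.conj, E.conj]
  tb η hη := by
    classical
    obtain ⟨S, s, hs, hsd⟩ := D.exists_selection (η := η / 4) (by positivity)
    obtain ⟨T, t, ht, htd⟩ := E.exists_selection (η := η / 4) (by positivity)
    -- representative of a cell
    let r : G × G → G := fun p => if h : ∃ g, s g = p.1 ∧ t g = p.2 then h.choose else 1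
    refine ⟨(S ×ˢ T).image r, fun g => ⟨r (s g, t g), ?_, ?_⟩⟩
    · exact Finset.mem_image_of_mem r (Finset.mk_mem_product (hs g) (ht g))
    · have h : ∃ g', s g' = (s g, t g).1 ∧ t g' = (s g, t g).2 := ⟨g, rfl, rfl⟩
      have hr : r (s g, t g) = h.choose := dif_pos h
      have h1 : s (r (s g, t g)) = s g := by rw [hr]; exact h.choose_spec.1
      have h2 : t (r (s g, t g)) = t g := by rw [hr]; exact h.choose_spec.2
      set x := r (s g, t g)
      have a1 := D.trans x (s g) g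
      have a2 := E.trans x (t g) g
      have b1 := hsd x
      have b2 := htd x
      rw [h1, D.inv_mul_symm] at b1
      rw [h2, E.inv_mul_symm] at b2
      have c1 := hsd g
      have c2 := htd g
      linarith

end BohrNorm

/-- Functions uniformly continuous for the Bohr topology. -/
def IsAP {G : Type*} [Group G] (f : G → ℝ) : Prop :=
  ∀ ε : ℝ, 0 < ε → ∃ D : BohrNorm G, ∃ η : ℝ, 0 < η ∧
    ∀ x y, D.d (x⁻¹ * y) < η → |f x - f y| ≤ ε

section AP

variable {G : Type*} [Group G] {f : G → ℝ}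

lemma isAP_of_lip {D : BohrNorm G} {L : ℝ} (hL : ∀ x y, |f x - f y| ≤ L * D.d (x⁻¹ * y)) :
    IsAP f := by
  intro ε hε
  refine ⟨D, ε / (|L| + 1), by positivity, fun x y h => (hL x y).trans ?_⟩
  have h0 := D.nonneg (x⁻¹ * y)
  have h1 : L * D.d (x⁻¹ * y) ≤ (|L| + 1) * D.d (x⁻¹ * y) := by
    apply mul_le_mul_of_nonneg_right _ h0
    linarith [le_abs_self L]
  refine h1.trans ?_
  have h2 : (|L| + 1) * D.d (x⁻¹ * y) ≤ (|L| + 1) * (ε / (|L| + 1)) :=
    mul_le_mul_of_nonneg_left h.le (by positivity)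
  refine h2.trans (le_of_eq ?_)
  field_simp

lemma IsAP.sep_inv_mul (hf : IsAP f) : Sep (fun g c => f (g⁻¹ * c)) := by
  intro ε hε
  obtain ⟨D, η, hη, h⟩ := hf ε hε
  obtain ⟨S, s, hs, hsd⟩ := D.exists_selection hη
  refine ⟨S, s, hs, fun g x => h _ _ ?_⟩
  rw [D.inv_mul_right, D.inv_mul_symm]
  exact hsd g

lemma IsAP.sep_mul (hf : IsAP f) : Sep (fun g c => f (g * c)) := by
  intro ε hε
  obtain ⟨D, η, hη, h⟩ := hf ε hε
  obtain ⟨S, s, hs, hsd⟩ := D.exists_selection hη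
  refine ⟨S, s, hs, fun g x => h _ _ ?_⟩
  rw [D.mul_right, D.inv_mul_symm]
  exact hsd g

lemma IsAP.bdd (hf : IsAP f) : Bdd f := by
  classical
  obtain ⟨D, η, hη, h⟩ := hf 1 one_pos
  obtain ⟨S, s, hs, hsd⟩ := D.exists_selection hη
  refine ⟨∑ t ∈ S, |f t| + 1, fun x => ?_⟩
  have h1 := h (s x) x (hsd x)
  have h2 : |f (s x)| ≤ ∑ t ∈ S, |f t| :=
    Finset.single_le_sum (f := fun t => |f t|) (fun i _ => abs_nonneg _) (hs x)
  have h3 : |f x| ≤ |f (s x)| + |f (s x) - f x| := by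
    have := abs_sub_abs_le_abs_sub (f x) (f (s x))
    rw [abs_sub_comm] at this
    linarith
  linarith

lemma IsAP.sq (hf : IsAP f) : IsAP (fun x => f (x * x)) := by
  intro ε hε
  obtain ⟨D, η, hη, h⟩ := hf ε hε
  refine ⟨D, η / 2, by positivity, fun x y hxy => h _ _ ?_⟩
  have h1 : (x * x)⁻¹ * (y * y) = (x⁻¹ * (x⁻¹ * y) * x⁻¹⁻¹) * (x⁻¹ * y) := by group
  rw [h1]
  have h2 := D.mul (x⁻¹ * (x⁻¹ * y) * x⁻¹⁻¹) (x⁻¹ * y)
  rw [D.conj] at h2
  linarith

end AP

/-! ### Kernels -/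

/-- An averaging kernel that is a class function and Lipschitz for a Bohr norm. -/
structure IsKernel {G : Type*} [Group G] (m : (G → ℝ) →ₗ[ℝ] ℝ) (w : G → ℝ) : Prop where
  nonneg : ∀ x, 0 ≤ w x
  lip : ∃ (D : BohrNorm G) (L : ℝ), 0 ≤ L ∧ ∀ x y, |w x - w y| ≤ L * D.d (x⁻¹ * y)
  mean : m w = 1
  symm : ∀ x, w x⁻¹ = w x
  conj : ∀ x h, w (h * x * h⁻¹) = w x

/-- positive-definiteness in the form used below -/
def IsPD {G : Type*} [Group G] (w : G → ℝ) : Prop :=
  ∀ L₀ : (G → ℝ) →ₗ[ℝ] ℝ, PosF L₀ → ∀ u : G → ℝ, Bdd u →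
    (L₀ u) ^ 2 ≤ L₀ (fun b => u b * L₀ (fun c => u c * w (b⁻¹ * c)))

section kernel

variable {G : Type*} [Group G] {m : (G → ℝ) →ₗ[ℝ] ℝ} {w : G → ℝ}

lemma IsKernel.isAP (hw : IsKernel m w) : IsAP w := by
  obtain ⟨D, L, _, h⟩ := hw.lip
  exact isAP_of_lip h

lemma IsKernel.bdd (hw : IsKernel m w) : Bdd w := hw.isAP.bdd

lemma IsKernel.mean_left (hw : IsKernel m w) (hl : LInv m) (g : G) :
    m (fun c => w (g⁻¹ * c)) = 1 := by
  rw [hl g⁻¹ w hw.bdd, hw.mean]

lemma IsKernel.mean_right (hw : IsKernel m w) (hl : LInv m) (c : G) :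
    m (fun g => w (g⁻¹ * c)) = 1 := by
  have : (fun g => w (g⁻¹ * c)) = fun g => w (c⁻¹ * g) := by
    ext g
    rw [← hw.symm (g⁻¹ * c)]
    congr 1; group
  rw [this, hw.mean_left hl]

/-- the mean of a bump is positive -/
lemma mean_bump_pos (hm : IsMean m) (hl : LInv m) (D : BohrNorm G) {η : ℝ} (hη : 0 < η) :
    0 < m (fun x => max 0 (1 - D.d x / η)) := by
  classical
  obtain ⟨S, hS⟩ := D.tb (η / 2) (by positivity)
  have hb : Bdd (fun x => max 0 (1 - D.d x / η)) := by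
    refine bdd_of_mem_unit (fun x => le_max_left _ _) (fun x => ?_)
    apply max_le zero_le_one
    have := div_nonneg (D.nonneg x) hη.le
    linarith
  have h1 : (1 : ℝ) ≤ m (fun g => ∑ s ∈ S, 2 * max 0 (1 - D.d (s⁻¹ * g) / η)) := by
    apply hm.ge
    · exact Bdd.sum S fun i _ => (bdd_const 2).mul (hb.comp (fun g => i⁻¹ * g))
    · intro g
      obtain ⟨s, hs, h⟩ := hS g
      have h2 : 2 * max 0 (1 - D.d (s⁻¹ * g) / η)
          ≤ ∑ s ∈ S, 2 * max 0 (1 - D.d (s⁻¹ * g) / η) :=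
        Finset.single_le_sum (f := fun s => 2 * max 0 (1 - D.d (s⁻¹ * g) / η))
          (fun i _ => by positivity) hs
      refine le_trans ?_ h2
      have h3 : D.d (s⁻¹ * g) / η < 1 / 2 := by
        rw [div_lt_iff₀ hη]; linarith
      have h4 := le_max_right 0 (1 - D.d (s⁻¹ * g) / η)
      linarith
  rw [map_sum' m S (fun s g => 2 * max 0 (1 - D.d (s⁻¹ * g) / η))] at h1
  have h2 : ∀ s ∈ S, m (fun g => 2 * max 0 (1 - D.d (s⁻¹ * g) / η))
      = 2 * m (fun x => max 0 (1 - D.d x / η)) := by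
    intro s _
    rw [map_const_mul]
    congr 1
    exact hl s⁻¹ (fun x => max 0 (1 - D.d x / η)) hb
  rw [Finset.sum_congr rfl h2, Finset.sum_const, nsmul_eq_mul] at h1
  by_contra hcon
  push Not at hcon
  have h3 : (S.card : ℝ) * (2 * m (fun x => max 0 (1 - D.d x / η))) ≤ 0 :=
    mul_nonpos_of_nonneg_of_nonpos (by positivity) (by linarith)
  linarith

theorem exists_kernel (hm : IsMean m) (hl : LInv m) (hr : RInv m) (D : BohrNorm G) {η : ℝ}
    (hη : 0 < η) :
    ∃ w : G → ℝ, IsKernel m w ∧ (∀ x, w x ≠ 0 → D.d x < η) ∧ IsPD w := by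
  classical
  set β : ℝ := m (fun x => max 0 (1 - D.d x / (η / 2))) with hβ
  have hη2 : 0 < η / 2 := by positivity
  have hβpos : 0 < β := mean_bump_pos hm hl D hη2
  set φ : G → ℝ := fun x => max 0 (1 - D.d x / (η / 2)) with hφ
  have hφb : Bdd φ := by
    refine bdd_of_mem_unit (fun x => le_max_left _ _) (fun x => ?_)
    apply max_le zero_le_one
    have := div_nonneg (D.nonneg x) hη2.le
    linarith
  set k : G → ℝ := fun x => β⁻¹ * φ x with hk
  have hk0 : ∀ x, 0 ≤ k x := fun x => mul_nonneg (inv_nonneg.2 hβpos.le) (le_max_left _ _)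
  have hkb : Bdd k := (bdd_const β⁻¹).mul hφb
  have hkm : m k = 1 := by
    rw [hk, map_const_mul, ← hβ]; field_simp
  have hkinv : ∀ x, k x⁻¹ = k x := fun x => by simp only [hk, hφ, D.inv]
  have hkconj : ∀ x h, k (h * x * h⁻¹) = k x := fun x h => by simp only [hk, hφ, D.conj]
  have hkcomm : ∀ a b, k (a * b) = k (b * a) := fun a b => by simp only [hk, hφ, D.comm a b]
  have hksupp : ∀ x, k x ≠ 0 → D.d x < η / 2 := by
    intro x hx
    by_contra hcon
    push Not at hcon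
    apply hx
    have h1 : 1 ≤ D.d x / (η / 2) := by rw [le_div_iff₀ hη2]; linarith
    simp only [hk, hφ]
    rw [max_eq_left (by linarith), mul_zero]
  set L : ℝ := β⁻¹ * (η / 2)⁻¹ with hL
  have hL0 : 0 ≤ L := by positivity
  have hklip : ∀ x y, |k x - k y| ≤ L * D.d (x⁻¹ * y) := by
    intro x y
    simp only [hk, hφ]
    rw [← mul_sub, abs_mul, abs_of_nonneg (inv_nonneg.2 hβpos.le), hL, mul_assoc]
    apply mul_le_mul_of_nonneg_left _ (inv_nonneg.2 hβpos.le)
    have h1 : |max 0 (1 - D.d x / (η / 2)) - max 0 (1 - D.d y / (η / 2))|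
        ≤ |(1 - D.d x / (η / 2)) - (1 - D.d y / (η / 2))| := by
      rw [max_comm 0, max_comm 0]
      exact abs_max_sub_max_le_abs _ _ _
    refine h1.trans ?_
    have h2 : (1 - D.d x / (η / 2)) - (1 - D.d y / (η / 2)) = (η / 2)⁻¹ * (D.d y - D.d x) := by
      field_simp; ring
    rw [h2, abs_mul, abs_of_nonneg (inv_nonneg.2 hη2.le), abs_sub_comm]
    exact mul_le_mul_of_nonneg_left (D.abs_sub_le x y) (inv_nonneg.2 hη2.le)
  have hkAP : IsAP k := isAP_of_lip hklip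
  set w : G → ℝ := fun x => m (fun g => k g * k (x⁻¹ * g)) with hw
  have hw0 : ∀ x, 0 ≤ w x := fun x =>
    hm.pos _ (hkb.mul (hkb.comp _)) (fun g => mul_nonneg (hk0 _) (hk0 _))
  have hlip : ∀ x y, |w x - w y| ≤ L * D.d (x⁻¹ * y) := by
    intro x y
    simp only [hw]
    rw [← map_sub']
    have h1 : |m (fun g => k g * k (x⁻¹ * g) - k g * k (y⁻¹ * g))|
        ≤ m (fun g => |k g * k (x⁻¹ * g) - k g * k (y⁻¹ * g)|) :=
      hm.pos.abs_le ((hkb.mul (hkb.comp _)).sub (hkb.mul (hkb.comp _)))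
    refine h1.trans ?_
    have h2 : m (fun g => |k g * k (x⁻¹ * g) - k g * k (y⁻¹ * g)|)
        ≤ m (fun g => (L * D.d (x⁻¹ * y)) * k g) := by
      apply hm.pos.mono ((hkb.mul (hkb.comp _)).sub (hkb.mul (hkb.comp _))).abs
        ((bdd_const _).mul hkb)
      intro g
      rw [← mul_sub, abs_mul, abs_of_nonneg (hk0 g), mul_comm]
      apply mul_le_mul_of_nonneg_right _ (hk0 g)
      have := hklip (x⁻¹ * g) (y⁻¹ * g)
      rwa [D.inv_mul_right] at this
    rw [map_const_mul, hkm, mul_one] at h2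
    exact h2
  have hwAP : IsAP w := isAP_of_lip hlip
  have hwb : Bdd w := hwAP.bdd
  -- formula for `w (b⁻¹ * c)`
  have hwbc : ∀ b c, w (b⁻¹ * c) = m (fun g => k (b⁻¹ * g) * k (c⁻¹ * g)) := by
    intro b c
    have h1 := hl b⁻¹ (fun g => k g * k ((b⁻¹ * c)⁻¹ * g)) (hkb.mul (hkb.comp _))
    simp only [hw]
    rw [← h1]
    congr 1
    ext g
    congr 2
    group
  refine ⟨w, ⟨hw0, ⟨D, L, hL0, hlip⟩, ?_, ?_, ?_⟩, ?_, ?_⟩
  · -- mean one
    have h1 := interchange hm.bf hm.bf (κ := fun x g => k (x⁻¹ * g)) hkAP.sep_inv_mul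
      (v := fun _ => 1) (h := k) (bdd_const 1) hkb
    have h2 : (fun x => (1 : ℝ) * m (fun g => k (x⁻¹ * g) * k g)) = w := by
      ext x
      simp only [hw, one_mul]
      congr 1
      ext g; ring
    rw [h2] at h1
    rw [h1]
    have h3 : (fun g => k g * m (fun x => 1 * k (x⁻¹ * g))) = k := by
      ext g
      have h4 : (fun x => 1 * k (x⁻¹ * g)) = fun x => k (g⁻¹ * x) := by
        ext x
        rw [one_mul, ← hkinv (x⁻¹ * g)]
        congr 1; group
      rw [h4, hl g⁻¹ k hkb, hkm, mul_one]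
    rw [h3, hkm]
  · intro x
    have h1 := hl x⁻¹ (fun g => k g * k (x⁻¹⁻¹ * g)) (hkb.mul (hkb.comp _))
    simp only [hw]
    rw [← h1]
    congr 1
    ext g
    rw [mul_comm]
    congr 2
    group
  · intro x h
    have h1 := hl h (fun g => k g * k ((h * x * h⁻¹)⁻¹ * g)) (hkb.mul (hkb.comp _))
    have h2 := hr h⁻¹ (fun g => k (h * g) * k ((h * x * h⁻¹)⁻¹ * (h * g)))
      ((hkb.comp _).mul (hkb.comp _))
    simp only [hw]
    rw [← h1, ← h2]
    congr 1
    ext g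
    congr 1
    · rw [← hkconj g h]; congr 1; group
    · rw [← hkconj (x⁻¹ * g) h]; congr 1; group
  · intro x hx
    by_contra hcon
    push Not at hcon
    apply hx
    have : (fun g => k g * k (x⁻¹ * g)) = fun _ => 0 := by
      ext g
      by_contra hne
      have hne' := mul_ne_zero_iff.1 hne
      have h1 := hksupp g hne'.1
      have h2 := hksupp _ hne'.2
      have h3 := D.mul (x⁻¹ * g) g⁻¹
      rw [mul_inv_cancel_right, D.inv, D.inv] at h3
      linarith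
    simp only [hw]
    rw [this, hm.const]
  · intro L₀ hL₀ u hu
    have hbf := hL₀.bf
    set a : G → ℝ := fun g => L₀ (fun b => u b * k (b⁻¹ * g)) with ha
    have hab : Bdd a := by
      obtain ⟨U, hU0, hU⟩ := hu.exists_nonneg
      obtain ⟨K, hK0, hK⟩ := hkb.exists_nonneg
      refine ⟨L₀ (fun _ => 1) * (U * K), fun g => ?_⟩
      apply hbf.bound _ _ (by positivity)
      intro x
      rw [abs_mul]
      exact mul_le_mul (hU _) (hK _) (abs_nonneg _) hU0
    -- inner interchange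
    have i1 : ∀ b, L₀ (fun c => u c * w (b⁻¹ * c)) = m (fun g => k (b⁻¹ * g) * a g) := by
      intro b
      have h1 := interchange hbf hm.bf (κ := fun c g => k (c⁻¹ * g)) hkAP.sep_inv_mul
        (v := u) (h := fun g => k (b⁻¹ * g)) hu (hkb.comp _)
      have h2 : (fun c => u c * w (b⁻¹ * c))
          = fun c => u c * m (fun g => k (c⁻¹ * g) * k (b⁻¹ * g)) := by
        ext c
        rw [hwbc b c]
        congr 2
        ext g; ring
      rw [h2, h1]
    have i2 : L₀ (fun b => u b * m (fun g => k (b⁻¹ * g) * a g)) = m (fun g => a g * a g) := by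
      have h1 := interchange hbf hm.bf (κ := fun c g => k (c⁻¹ * g)) hkAP.sep_inv_mul
        (v := u) (h := a) hu hab
      rw [h1]
    have i3 : m a = L₀ u := by
      have h1 := interchange hbf hm.bf (κ := fun c g => k (c⁻¹ * g)) hkAP.sep_inv_mul
        (v := u) (h := fun _ => 1) hu (bdd_const 1)
      have h2 : (fun g => (1 : ℝ) * L₀ (fun c => u c * k (c⁻¹ * g))) = a := by
        ext g; simp [ha]
      rw [h2] at h1
      rw [← h1]
      congr 1
      ext c
      have : (fun x => k (c⁻¹ * x) * 1) = fun x => k (c⁻¹ * x) := by ext x; ring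
      rw [this, hl c⁻¹ k hkb, hkm, mul_one]
    simp_rw [i1]
    rw [i2, ← i3]
    exact hm.sq_le hab

end kernel

end Pool.Agent.Lib.MP_cacba2_co
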