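import Mathlib

/-!
Definitions used in the statement: Følner sequences, upper density, square absolute continuity.
-/

namespace Pool.Agent.Lib.MP_cacba2_co

open Filter Topology

/-- Average of `u` over the finite set `F`. -/
noncomputable def avg {G : Type*} (F : Finset G) (u : G → ℝ) : ℝ :=
  (∑ g ∈ F, u g) / (F.card : ℝ)

open Classical in
/-- A left Følner sequence: `|g Φ_N ∩ Φ_N| / |Φ_N| → 1` for every `g`. -/
def IsLeftFolner {G : Type*} [Group G] (Φ : ℕ → Finset G) : Prop :=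
  ∀ g : G, Tendsto (fun N => (((Φ N).image (fun x => g * x) ∩ Φ N).card : ℝ) / ((Φ N).card : ℝ))
    atTop (𝓝 1)

open Classical in
/-- A right Følner sequence: `|Φ_N g ∩ Φ_N| / |Φ_N| → 1` for every `g`. -/
def IsRightFolner {G : Type*} [Group G] (Φ : ℕ → Finset G) : Prop :=
  ∀ g : G, Tendsto (fun N => (((Φ N).image (fun x => x * g) ∩ Φ N).card : ℝ) / ((Φ N).card : ℝ))
    atTop (𝓝 1)

/-- A two-sided Følner sequence. -/
def IsTwoSidedFolner {G : Type*} [Group G] (Φ : ℕ → Finset G) : Prop :=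
  IsLeftFolner Φ ∧ IsRightFolner Φ

open Classical in
/-- Upper density `limsup |A ∩ Φ_N| / |Φ_N|` of `A` along `Φ`. -/
noncomputable def upperDensity {G : Type*} (Φ : ℕ → Finset G) (A : Set G) : ℝ :=
  limsup (fun N => (((Φ N).filter (fun x => x ∈ A)).card : ℝ) / ((Φ N).card : ℝ)) atTop

/-- `A` has positive upper density along some two-sided Følner sequence. -/
def PosUpperBanachDensity {G : Type*} [Group G] (A : Set G) : Prop :=
  ∃ Φ : ℕ → Finset G, IsTwoSidedFolner Φ ∧ 0 < upperDensity Φ A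

/-- Square absolutely continuous groups. -/
def SquareAbsCont (G : Type*) [Group G] : Prop :=
  ∃ Φ Ψ : ℕ → Finset G, IsLeftFolner Φ ∧ IsLeftFolner Ψ ∧
    ∀ ε : ℝ, 0 < ε → ∃ δ : ℝ, 0 < δ ∧ ∀ u : G → ℝ, (∀ g, 0 ≤ u g ∧ u g ≤ 1) →
      limsup (fun N => avg (Φ N) u) atTop < δ →
      limsup (fun N => avg (Ψ N) (fun g => u (g ^ 2))) atTop < ε

end Pool.Agent.Lib.MP_cacba2_co
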