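import Pool.Agent.Lib.MP_cacba2_co.Bohr
import Pool.Agent.Lib.MP_cacba2_co.Defs

namespace Pool.Agent.Lib.MP_cacba2_co

open Filter Topology

section avg

variable {G : Type*}

lemma avg_add (F : Finset G) (u v : G → ℝ) :
    avg F (fun x => u x + v x) = avg F u + avg F v := by
  simp [avg, Finset.sum_add_distrib, add_div]

lemma avg_sub (F : Finset G) (u v : G → ℝ) :
    avg F (fun x => u x - v x) = avg F u - avg F v := by
  simp [avg, Finset.sum_sub_distrib, sub_div]

lemma avg_const_mul (F : Finset G) (c : ℝ) (u : G → ℝ) :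
    avg F (fun x => c * u x) = c * avg F u := by
  simp [avg, ← Finset.mul_sum, mul_div_assoc]

lemma avg_sum {ι : Type*} (F : Finset G) (S : Finset ι) (u : ι → G → ℝ) :
    avg F (fun x => ∑ i ∈ S, u i x) = ∑ i ∈ S, avg F (u i) := by
  simp only [avg]
  rw [Finset.sum_comm, Finset.sum_div]

lemma avg_const {F : Finset G} (hF : F.Nonempty) (c : ℝ) : avg F (fun _ => c) = c := by
  have : (F.card : ℝ) ≠ 0 := by
    simpa using hF.ne_empty
  simp [avg, Finset.sum_const, nsmul_eq_mul]
  field_simp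

lemma avg_mono (F : Finset G) {u v : G → ℝ} (h : ∀ x, u x ≤ v x) : avg F u ≤ avg F v := by
  unfold avg
  exact div_le_div_of_nonneg_right (Finset.sum_le_sum fun i _ => h i) (by positivity)

lemma avg_nonneg (F : Finset G) {u : G → ℝ} (h : ∀ x, 0 ≤ u x) : 0 ≤ avg F u := by
  unfold avg
  exact div_nonneg (Finset.sum_nonneg fun i _ => h i) (by positivity)

lemma abs_avg_le (F : Finset G) {u : G → ℝ} {B : ℝ} (hB : 0 ≤ B) (h : ∀ x, |u x| ≤ B) :
    |avg F u| ≤ B := by
  unfold avg
  rw [abs_div, abs_of_nonneg (by positivity : (0 : ℝ) ≤ (F.card : ℝ))]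
  rcases F.eq_empty_or_nonempty with rfl | hF
  · simpa using hB
  · have hc : (0 : ℝ) < F.card := by exact_mod_cast hF.card_pos
    rw [div_le_iff₀ hc]
    calc |∑ g ∈ F, u g| ≤ ∑ g ∈ F, |u g| := Finset.abs_sum_le_sum_abs _ _
      _ ≤ ∑ g ∈ F, B := Finset.sum_le_sum fun i _ => h i
      _ = B * F.card := by rw [Finset.sum_const, nsmul_eq_mul, mul_comm]

open Classical in
lemma avg_shift_bound {F : Finset G} {p : G → G} (hp : Function.Injective p) {u : G → ℝ} {B : ℝ}
    (h : ∀ x, |u x| ≤ B) (hF : F.Nonempty) :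
    |avg F (fun x => u (p x)) - avg F u|
      ≤ 2 * B * (1 - ((F.image p ∩ F).card : ℝ) / (F.card : ℝ)) := by
  have hc : (0 : ℝ) < F.card := by exact_mod_cast hF.card_pos
  have h1 : ∑ x ∈ F, u (p x) = ∑ y ∈ F.image p, u y := by
    rw [Finset.sum_image fun a _ b _ hab => hp hab]
  have hcard : (F.image p).card = F.card := Finset.card_image_of_injective _ hp
  have h2 : ((F.image p \ F).card : ℝ) = F.card - (F.image p ∩ F).card := by
    have := Finset.card_sdiff_add_card_inter (F.image p) F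
    rw [hcard] at this
    have h' : ((F.image p \ F).card : ℝ) + (F.image p ∩ F).card = F.card := by exact_mod_cast this
    linarith
  have h3 : ((F \ F.image p).card : ℝ) = F.card - (F.image p ∩ F).card := by
    have := Finset.card_sdiff_add_card_inter F (F.image p)
    rw [Finset.inter_comm] at this
    have h' : ((F \ F.image p).card : ℝ) + (F.image p ∩ F).card = F.card := by exact_mod_cast this
    linarith
  have h4 : |∑ x ∈ F, u (p x) - ∑ x ∈ F, u x|
      ≤ 2 * B * (F.card - (F.image p ∩ F).card) := by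
    rw [h1, ← Finset.sum_sdiff_sub_sum_sdiff]
    have e1 : |∑ x ∈ F.image p \ F, u x| ≤ B * (F.card - (F.image p ∩ F).card) := by
      calc |∑ x ∈ F.image p \ F, u x| ≤ ∑ x ∈ F.image p \ F, |u x| :=
            Finset.abs_sum_le_sum_abs _ _
        _ ≤ ∑ x ∈ F.image p \ F, B := Finset.sum_le_sum fun i _ => h i
        _ = B * (F.card - (F.image p ∩ F).card) := by
            rw [Finset.sum_const, nsmul_eq_mul, h2, mul_comm]
    have e2 : |∑ x ∈ F \ F.image p, u x| ≤ B * (F.card - (F.image p ∩ F).card) := by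
      calc |∑ x ∈ F \ F.image p, u x| ≤ ∑ x ∈ F \ F.image p, |u x| :=
            Finset.abs_sum_le_sum_abs _ _
        _ ≤ ∑ x ∈ F \ F.image p, B := Finset.sum_le_sum fun i _ => h i
        _ = B * (F.card - (F.image p ∩ F).card) := by
            rw [Finset.sum_const, nsmul_eq_mul, h3, mul_comm]
    calc _ ≤ |∑ x ∈ F.image p \ F, u x| + |∑ x ∈ F \ F.image p, u x| := abs_sub _ _
      _ ≤ _ := by linarith
  unfold avg
  rw [← sub_div, abs_div, abs_of_pos hc, div_le_iff₀ hc]
  refine h4.trans (le_of_eq ?_)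
  field_simp

end avg

section folner

variable {G : Type*} [Group G] {Φ : ℕ → Finset G}

lemma IsLeftFolner.nonempty (h : IsLeftFolner Φ) : ∀ᶠ N in atTop, (Φ N).Nonempty := by
  have h1 := (h 1).eventually (lt_mem_nhds (show (0 : ℝ) < 1 from one_pos))
  filter_upwards [h1] with N hN
  rw [Finset.nonempty_iff_ne_empty]
  rintro h0
  rw [h0] at hN
  simp at hN

lemma IsLeftFolner.shift (h : IsLeftFolner Φ) {u : G → ℝ} (hu : Bdd u) (g : G) :
    Tendsto (fun N => avg (Φ N) (fun x => u (g * x)) - avg (Φ N) u) atTop (𝓝 0) := by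
  classical
  obtain ⟨B, hB⟩ := hu
  rw [tendsto_zero_iff_abs_tendsto_zero]
  have h1 : Tendsto (fun N => 2 * B *
      (1 - (((Φ N).image (fun x => g * x) ∩ Φ N).card : ℝ) / ((Φ N).card : ℝ))) atTop (𝓝 0) := by
    have := ((tendsto_const_nhds (x := (1 : ℝ))).sub (h g)).const_mul (2 * B)
    simpa using this
  refine squeeze_zero' (Eventually.of_forall fun N => abs_nonneg _) ?_ h1
  filter_upwards [h.nonempty] with N hN
  have := avg_shift_bound (p := fun x => g * x) (mul_right_injective g) hB hN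
  simp only [Function.comp]
  convert this

lemma IsRightFolner.nonempty (h : IsRightFolner Φ) : ∀ᶠ N in atTop, (Φ N).Nonempty := by
  have h1 := (h 1).eventually (lt_mem_nhds (show (0 : ℝ) < 1 from one_pos))
  filter_upwards [h1] with N hN
  rw [Finset.nonempty_iff_ne_empty]
  rintro h0
  rw [h0] at hN
  simp at hN

lemma IsRightFolner.shift (h : IsRightFolner Φ) {u : G → ℝ} (hu : Bdd u) (g : G) :
    Tendsto (fun N => avg (Φ N) (fun x => u (x * g)) - avg (Φ N) u) atTop (𝓝 0) := by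
  classical
  obtain ⟨B, hB⟩ := hu
  rw [tendsto_zero_iff_abs_tendsto_zero]
  have h1 : Tendsto (fun N => 2 * B *
      (1 - (((Φ N).image (fun x => x * g) ∩ Φ N).card : ℝ) / ((Φ N).card : ℝ))) atTop (𝓝 0) := by
    have := ((tendsto_const_nhds (x := (1 : ℝ))).sub (h g)).const_mul (2 * B)
    simpa using this
  refine squeeze_zero' (Eventually.of_forall fun N => abs_nonneg _) ?_ h1
  filter_upwards [h.nonempty] with N hN
  have := avg_shift_bound (p := fun x => x * g) (mul_left_injective g) hB hN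
  simp only [Function.comp]
  convert this

end folner

/-- Extend a functional that is linear on bounded functions to all functions. -/
lemma exists_linear_of_bdd {G : Type*} (ℓ : (G → ℝ) → ℝ)
    (hadd : ∀ f g, Bdd f → Bdd g → ℓ (fun x => f x + g x) = ℓ f + ℓ g)
    (hsmul : ∀ (c : ℝ) f, Bdd f → ℓ (fun x => c * f x) = c * ℓ f) :
    ∃ L : (G → ℝ) →ₗ[ℝ] ℝ, ∀ f, Bdd f → L f = ℓ f := by
  let S : Submodule ℝ (G → ℝ) :=
    { carrier := {f | Bdd f}
      add_mem' := fun {a b} ha hb => ha.add hb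
      zero_mem' := bdd_const 0
      smul_mem' := fun c f hf => (bdd_const c).mul hf }
  let ℓ' : S →ₗ[ℝ] ℝ :=
    { toFun := fun f => ℓ f.1
      map_add' := fun f g => hadd _ _ f.2 g.2
      map_smul' := fun c f => hsmul c _ f.2 }
  obtain ⟨L, hL⟩ := LinearMap.exists_extend ℓ'
  refine ⟨L, fun f hf => ?_⟩
  have := LinearMap.congr_fun hL ⟨f, hf⟩
  exact this

/-- limits along an ultrafilter of bounded sequences exist -/
lemma tendsto_limUnder_of_bdd (U : Ultrafilter ℕ) {a : ℕ → ℝ} {B : ℝ} (h : ∀ n, |a n| ≤ B) :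
    Tendsto a U (𝓝 (limUnder (U : Filter ℕ) a)) := by
  have h1 : ∃ x, Tendsto a U (𝓝 x) := by
    have hc : IsCompact (Set.Icc (-B) B) := isCompact_Icc
    have h2 : ((U.map a : Ultrafilter ℝ) : Filter ℝ) ≤ 𝓟 (Set.Icc (-B) B) := by
      rw [le_principal_iff, Ultrafilter.coe_map, Filter.mem_map]
      exact Filter.univ_mem' (fun n => abs_le.1 (h n))
    obtain ⟨x, _, hx⟩ := hc.ultrafilter_le_nhds _ h2
    exact ⟨x, hx⟩
  exact tendsto_nhds_limUnder h1

/-- A two-sided invariant mean that sees `A`. -/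
theorem exists_mean {G : Type*} [Group G] {A : Set G} (hA : PosUpperBanachDensity A) :
    ∃ m : (G → ℝ) →ₗ[ℝ] ℝ, IsMean m ∧ LInv m ∧ RInv m ∧
      0 < m (Set.indicator A (fun _ => 1)) := by
  classical
  obtain ⟨Θ, ⟨hL, hR⟩, hd⟩ := hA
  have hI : Bdd (Set.indicator A (fun _ : G => (1 : ℝ))) :=
    ⟨1, fun x => by by_cases h : x ∈ A <;> simp [h]⟩
  obtain ⟨c, hc0, hc⟩ := exists_between hd
  have hfr : ∃ᶠ N in atTop, c < avg (Θ N) (Set.indicator A (fun _ => 1)) := by
    have hcob : IsCoboundedUnder (· ≤ ·) atTop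
        (fun N => (((Θ N).filter (fun x => x ∈ A)).card : ℝ) / ((Θ N).card : ℝ)) := by
      apply IsBoundedUnder.isCoboundedUnder_le
      refine ⟨0, ?_⟩
      simp only [eventually_map]
      exact Eventually.of_forall fun N => by positivity
    have := frequently_lt_of_lt_limsup hcob hc
    refine this.mono fun N hN => ?_
    refine hN.trans_le (le_of_eq ?_)
    unfold avg
    congr 1
    rw [Finset.card_filter]
    push_cast
    refine Finset.sum_congr rfl fun x _ => ?_
    by_cases h : x ∈ A <;> simp [h]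
  have hne : (atTop ⊓ 𝓟 {N | c < avg (Θ N) (Set.indicator A (fun _ => 1))}).NeBot := by
    rw [← Filter.frequently_mem_iff_neBot]
    exact hfr
  set U : Ultrafilter ℕ :=
    Ultrafilter.of (atTop ⊓ 𝓟 {N | c < avg (Θ N) (Set.indicator A (fun _ => 1))}) with hU
  have hUle : (U : Filter ℕ) ≤ atTop ⊓ 𝓟 {N | c < avg (Θ N) (Set.indicator A (fun _ => 1))} :=
    Ultrafilter.of_le _
  have hUtop : (U : Filter ℕ) ≤ atTop := hUle.trans inf_le_left
  have hUA : ∀ᶠ N in (U : Filter ℕ), c < avg (Θ N) (Set.indicator A (fun _ => 1)) :=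
    (hUle.trans inf_le_right) (mem_principal_self _)
  have hlim : ∀ f : G → ℝ, Bdd f →
      Tendsto (fun N => avg (Θ N) f) U (𝓝 (limUnder (U : Filter ℕ) fun N => avg (Θ N) f)) := by
    intro f hf
    obtain ⟨B, hB0, hB⟩ := hf.exists_nonneg
    exact tendsto_limUnder_of_bdd U fun n => abs_avg_le _ hB0 hB
  obtain ⟨m, hm⟩ := exists_linear_of_bdd
    (fun f : G → ℝ => limUnder (U : Filter ℕ) fun N => avg (Θ N) f)
    (by
      intro f g hf hg
      apply tendsto_nhds_unique (hlim _ (hf.add hg))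
      simp_rw [avg_add]
      exact (hlim f hf).add (hlim g hg))
    (by
      intro c f hf
      apply tendsto_nhds_unique (hlim _ ((bdd_const c).mul hf))
      simp_rw [avg_const_mul]
      exact (hlim f hf).const_mul c)
  have hm' : ∀ f : G → ℝ, Bdd f → Tendsto (fun N => avg (Θ N) f) U (𝓝 (m f)) := by
    intro f hf
    rw [hm f hf]; exact hlim f hf
  refine ⟨m, ⟨?_, ?_⟩, ?_, ?_, ?_⟩
  · intro f hf h0
    exact ge_of_tendsto' (hm' f hf) fun N => avg_nonneg _ h0
  · apply tendsto_nhds_unique (hm' _ (bdd_const 1))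
    apply tendsto_const_nhds.congr'
    filter_upwards [hUtop hL.nonempty] with N hN
    rw [avg_const hN]
  · intro g f hf
    have h1 := (hm' _ (hf.comp (fun x => g * x))).sub (hm' f hf)
    have h2 := (hL.shift hf g).mono_left hUtop
    have := tendsto_nhds_unique h1 h2
    linarith
  · intro g f hf
    have h1 := (hm' _ (hf.comp (fun x => x * g))).sub (hm' f hf)
    have h2 := (hR.shift hf g).mono_left hUtop
    have := tendsto_nhds_unique h1 h2
    linarith
  · have h1 : c ≤ m (Set.indicator A (fun _ => 1)) := by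
      apply ge_of_tendsto (hm' _ hI)
      exact hUA.mono fun N hN => hN.le
    linarith

/-- Almost periodic functions have the same average along every left Følner sequence. -/
theorem tendsto_avg_of_isAP {G : Type*} [Group G] {Φ : ℕ → Finset G} (hΦ : IsLeftFolner Φ)
    {m : (G → ℝ) →ₗ[ℝ] ℝ} (hm : IsMean m) (hr : RInv m) {u : G → ℝ} (hu : IsAP u) :
    Tendsto (fun N => avg (Φ N) u) atTop (𝓝 (m u)) := by
  classical
  rw [Metric.tendsto_atTop']
  suffices h : ∀ ε : ℝ, 0 < ε → ∀ᶠ N in atTop, |avg (Φ N) u - m u| ≤ 2 * ε by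
    intro ε hε
    have h1 := h (ε / 4) (by positivity)
    rw [eventually_atTop] at h1
    obtain ⟨N, hN⟩ := h1
    refine ⟨N, fun n hn => ?_⟩
    rw [Real.dist_eq]
    have := hN n hn.le
    linarith
  intro ε hε
  obtain ⟨S, s, hs, hsu⟩ := hu.sep_mul ε hε
  set μ : G → ℝ := fun t => m (fun g => if s g = t then 1 else 0) with hμ
  have hμsum : ∑ t ∈ S, μ t = 1 := by
    have h1 := expand_finite m hs (fun _ => 1) (fun _ => 1)
    simp only [one_mul, mul_one] at h1
    rw [hm.one] at h1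
    exact h1.symm
  -- finite average approximates the mean
  have h1 : ∀ h, |m u - ∑ t ∈ S, u (t * h) * μ t| ≤ ε := by
    intro h
    have e1 := expand_finite m hs (fun _ => 1) (fun t => u (t * h))
    simp only [one_mul] at e1
    rw [← e1, ← hr h u hu.bdd, ← map_sub']
    exact hm.abs_le fun g => hsu g h
  have h2 : Tendsto (fun N => ∑ t ∈ S, μ t * (avg (Φ N) (fun x => u (t * x)) - avg (Φ N) u))
      atTop (𝓝 0) := by
    have : Tendsto (fun N => ∑ t ∈ S, μ t * (avg (Φ N) (fun x => u (t * x)) - avg (Φ N) u))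
      atTop (𝓝 (∑ t ∈ S, μ t * 0)) :=
      tendsto_finsetSum _ fun t _ => (hΦ.shift hu.bdd t).const_mul (μ t)
    simpa using this
  have h3 : ∀ᶠ N in atTop,
      |∑ t ∈ S, μ t * (avg (Φ N) (fun x => u (t * x)) - avg (Φ N) u)| ≤ ε := by
    have := (Metric.tendsto_nhds.1 h2) ε hε
    filter_upwards [this] with N hN
    rw [Real.dist_eq, sub_zero] at hN
    exact hN.le
  filter_upwards [h3, hΦ.nonempty] with N hN hne
  have h4 : |avg (Φ N) (fun h => m u - ∑ t ∈ S, u (t * h) * μ t)| ≤ ε :=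
    abs_avg_le _ hε.le h1
  rw [avg_sub, avg_const hne, avg_sum] at h4
  have h5 : ∑ t ∈ S, avg (Φ N) (fun h => u (t * h) * μ t)
      = ∑ t ∈ S, μ t * (avg (Φ N) (fun x => u (t * x)) - avg (Φ N) u) + avg (Φ N) u := by
    have e1 : avg (Φ N) u = ∑ t ∈ S, μ t * avg (Φ N) u := by
      rw [← Finset.sum_mul, hμsum, one_mul]
    conv_rhs => rw [e1]
    rw [← Finset.sum_add_distrib]
    refine Finset.sum_congr rfl fun t _ => ?_
    have e2 : (fun h => u (t * h) * μ t) = fun h => μ t * u (t * h) := by ext; ring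
    rw [e2, avg_const_mul]
    have e3 : ∑ t ∈ S, μ t * avg (Φ N) u = avg (Φ N) u := e1.symm
    rw [e3]; ring
  rw [h5] at h4
  rw [abs_le] at h4 hN ⊢
  constructor <;> linarith [h4.1, h4.2, hN.1, hN.2]

/-- Absolute continuity of squares, in terms of a two-sided invariant mean. -/
def ACS {G : Type*} [Group G] (m : (G → ℝ) →ₗ[ℝ] ℝ) : Prop :=
  ∀ ε : ℝ, 0 < ε → ∃ δ : ℝ, 0 < δ ∧ ∀ u : G → ℝ, IsAP u → (∀ g, 0 ≤ u g) → (∀ g, u g ≤ 1) →
    m u < δ → m (fun g => u (g * g)) ≤ ε

theorem SquareAbsCont.acs {G : Type*} [Group G] (hG : SquareAbsCont G)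
    {m : (G → ℝ) →ₗ[ℝ] ℝ} (hm : IsMean m) (hr : RInv m) : ACS m := by
  obtain ⟨Φ, Ψ, hΦ, hΨ, h⟩ := hG
  intro ε hε
  obtain ⟨δ, hδ, hδ'⟩ := h ε hε
  refine ⟨δ, hδ, fun u hu h0 h1 hmu => ?_⟩
  have e1 := tendsto_avg_of_isAP hΦ hm hr hu
  have e2 := tendsto_avg_of_isAP hΨ hm hr hu.sq
  have e3 := hδ' u (fun g => ⟨h0 g, h1 g⟩) (by rw [e1.limsup_eq]; exact hmu)
  have e4 : (fun N => avg (Ψ N) (fun g => u (g ^ 2))) = fun N => avg (Ψ N) (fun g => u (g * g)) := by
    simp_rw [pow_two]
  rw [e4, e2.limsup_eq] at e3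
  exact e3.le

end Pool.Agent.Lib.MP_cacba2_co
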