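import Pool.Agent.Lib.MP_cacba2_co.Bohr

namespace Pool.Agent.Lib.MP_cacba2_co

open Filter Topology
open scoped InnerProductSpace RealInnerProductSpace

/-- An isometric representation on a real inner product space. -/
structure Rep (G : Type*) [Group G] (H : Type*) [NormedAddCommGroup H] [InnerProductSpace ℝ H]
    where
  π : G → H →ₗᵢ[ℝ] H
  map_mul : ∀ g h x, π (g * h) x = π g (π h x)
  map_one : ∀ x, π 1 x = x

lemma net_of_tb {G X : Type*} [PseudoMetricSpace X] {F : G → X}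
    (h : TotallyBounded (Set.range F)) {ε : ℝ} (hε : 0 < ε) :
    ∃ S : Finset G, ∀ g, ∃ s ∈ S, dist (F g) (F s) < ε := by
  classical
  obtain ⟨t, ht, htf, hc⟩ := totallyBounded_iff_subset.1 h _ (Metric.dist_mem_uniformity hε)
  have h1 : ∀ y : t, ∃ s, F s = y := fun y => ht y.2
  choose s hs using h1
  have : Fintype t := htf.fintype
  refine ⟨Finset.univ.image s, fun g => ?_⟩
  have h2 := hc ⟨g, rfl⟩
  simp only [Set.mem_iUnion, exists_prop, Set.mem_ofPred_eq] at h2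
  obtain ⟨y, hy, hd⟩ := h2
  refine ⟨s ⟨y, hy⟩, Finset.mem_image_of_mem s (Finset.mem_univ _), ?_⟩
  rw [hs ⟨y, hy⟩]; exact hd

lemma tb_range_prod {G X Y : Type*} [UniformSpace X] [UniformSpace Y] {F : G → X} {K : G → Y}
    (hF : TotallyBounded (Set.range F)) (hK : TotallyBounded (Set.range K)) :
    TotallyBounded (Set.range fun g => (F g, K g)) := by
  rw [totallyBounded_iff_ultrafilter] at hF hK ⊢
  intro f hf
  rw [cauchy_prod_iff]
  constructor
  · apply hF (f.map Prod.fst)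
    rw [le_principal_iff] at hf ⊢
    rw [Ultrafilter.coe_map, mem_map]
    refine Filter.mem_of_superset hf ?_
    rintro _ ⟨g, rfl⟩
    exact ⟨g, rfl⟩
  · apply hK (f.map Prod.snd)
    rw [le_principal_iff] at hf ⊢
    rw [Ultrafilter.coe_map, mem_map]
    refine Filter.mem_of_superset hf ?_
    rintro _ ⟨g, rfl⟩
    exact ⟨g, rfl⟩

lemma tb_range_pi {G X ι : Type*} [UniformSpace X] {F : ι → G → X}
    (hF : ∀ i, TotallyBounded (Set.range (F i))) :
    TotallyBounded (Set.range fun g => fun i => F i g) := by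
  rw [totallyBounded_iff_ultrafilter]
  intro f hf
  rw [cauchy_pi_iff']
  intro i
  apply totallyBounded_iff_ultrafilter.1 (hF i) (f.map fun x => x i)
  rw [le_principal_iff] at hf ⊢
  rw [Ultrafilter.coe_map, mem_map]
  refine Filter.mem_of_superset hf ?_
  rintro _ ⟨g, rfl⟩
  exact ⟨g, rfl⟩

lemma tb_of_approx {G X : Type*} [PseudoMetricSpace X] {F : G → X}
    (h : ∀ ε : ℝ, 0 < ε → ∃ K : Set X, TotallyBounded K ∧ ∀ g, ∃ k ∈ K, dist (F g) k ≤ ε) :
    TotallyBounded (Set.range F) := by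
  rw [Metric.totallyBounded_iff]
  intro ε hε
  obtain ⟨K, hK, hF⟩ := h (ε / 2) (by positivity)
  obtain ⟨t, htf, ht⟩ := Metric.totallyBounded_iff.1 hK (ε / 2) (by positivity)
  refine ⟨t, htf, ?_⟩
  rintro _ ⟨g, rfl⟩
  obtain ⟨k, hk, hd⟩ := hF g
  have := ht hk
  simp only [Set.mem_iUnion, Metric.mem_ball, exists_prop] at this ⊢
  obtain ⟨y, hy, hd2⟩ := this
  exact ⟨y, hy, by linarith [dist_triangle (F g) k y]⟩

namespace Rep

variable {G : Type*} [Group G] {H : Type*} [NormedAddCommGroup H] [InnerProductSpace ℝ H]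
  (ρ : Rep G H)

lemma inv_apply (g : G) (x : H) : ρ.π g⁻¹ (ρ.π g x) = x := by
  rw [← ρ.map_mul, inv_mul_cancel, ρ.map_one]

lemma apply_inv (g : G) (x : H) : ρ.π g (ρ.π g⁻¹ x) = x := by
  rw [← ρ.map_mul, mul_inv_cancel, ρ.map_one]

lemma inner_left (g : G) (x y : H) : ⟪ρ.π g x, y⟫_ℝ = ⟪x, ρ.π g⁻¹ y⟫_ℝ := by
  rw [← (ρ.π g).inner_map_map x (ρ.π g⁻¹ y), ρ.apply_inv]

lemma inner_abs_le (g : G) (x y : H) : |⟪ρ.π g x, y⟫_ℝ| ≤ ‖x‖ * ‖y‖ := by
  have := abs_real_inner_le_norm (ρ.π g x) y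
  rwa [(ρ.π g).norm_map] at this

lemma bdd_inner (x y : H) : Bdd (fun g => ⟪ρ.π g x, y⟫_ℝ) :=
  ⟨‖x‖ * ‖y‖, fun g => ρ.inner_abs_le g x y⟩

/-- Almost periodic vectors: totally bounded orbit. -/
def ap : Submodule ℝ H where
  carrier := {x | TotallyBounded (Set.range fun g => ρ.π g x)}
  add_mem' := by
    intro x y hx hy
    have h1 := (tb_range_prod hx hy).image (uniformContinuous_add (α := H))
    refine h1.subset ?_
    rintro _ ⟨g, rfl⟩
    exact ⟨(ρ.π g x, ρ.π g y), ⟨g, rfl⟩, by simp⟩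
  zero_mem' := by
    have : (Set.range fun g => ρ.π g (0 : H)) ⊆ {0} := by
      rintro _ ⟨g, rfl⟩; simp
    exact (Set.finite_singleton (0 : H)).totallyBounded.subset this
  smul_mem' := by
    intro c x hx
    have h1 := hx.image (uniformContinuous_const_smul (X := H) c)
    refine h1.subset ?_
    rintro _ ⟨g, rfl⟩
    exact ⟨ρ.π g x, ⟨g, rfl⟩, by simp⟩

lemma mem_ap {x : H} : x ∈ ρ.ap ↔ TotallyBounded (Set.range fun g => ρ.π g x) := Iff.rfl

lemma ap_closed : IsClosed (ρ.ap : Set H) := by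
  rw [← isSeqClosed_iff_isClosed]
  intro u x hu hx
  rw [SetLike.mem_coe, mem_ap]
  apply tb_of_approx
  intro ε hε
  have h1 := Metric.tendsto_atTop.1 hx ε hε
  obtain ⟨N, hN⟩ := h1
  refine ⟨_, hu N, fun g => ⟨ρ.π g (u N), ⟨g, rfl⟩, ?_⟩⟩
  rw [(ρ.π g).dist_map, dist_comm]
  exact (hN N le_rfl).le

lemma ap_inv {x : H} (hx : x ∈ ρ.ap) (h : G) : ρ.π h x ∈ ρ.ap := by
  rw [mem_ap] at hx ⊢
  refine hx.subset ?_
  rintro _ ⟨g, rfl⟩
  exact ⟨g * h, by simp [ρ.map_mul]⟩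

lemma ap_orth_inv {x : H} (hx : x ∈ ρ.apᗮ) (h : G) : ρ.π h x ∈ ρ.apᗮ := by
  rw [Submodule.mem_orthogonal'] at hx ⊢
  intro u hu
  rw [ρ.inner_left]
  exact hx _ (ρ.ap_inv hu _)

/-! #### The Bohr norm of an almost periodic vector -/

lemma bddAbove_dist (x : H) (g : G) :
    BddAbove (Set.range fun h : G => ‖ρ.π g (ρ.π h x) - ρ.π h x‖) := by
  refine ⟨2 * ‖x‖, ?_⟩
  rintro _ ⟨h, rfl⟩
  calc ‖ρ.π g (ρ.π h x) - ρ.π h x‖ ≤ ‖ρ.π g (ρ.π h x)‖ + ‖ρ.π h x‖ := norm_sub_le _ _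
    _ = 2 * ‖x‖ := by simp [two_mul]

/-- The Bohr norm of an almost periodic vector. -/
noncomputable def bohr {x : H} (hx : x ∈ ρ.ap) : BohrNorm G where
  d g := ⨆ h : G, ‖ρ.π g (ρ.π h x) - ρ.π h x‖
  nonneg g := Real.iSup_nonneg fun h => norm_nonneg _
  one := by simp [ρ.map_one]
  inv g := by
    congr 1
    ext h
    rw [← (ρ.π g).norm_map (ρ.π g⁻¹ (ρ.π h x) - ρ.π h x), map_sub, ρ.apply_inv, norm_sub_rev]
  mul g h := by
    apply ciSup_le
    intro k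
    have h1 : ρ.π (g * h) (ρ.π k x) - ρ.π k x
        = ρ.π g (ρ.π h (ρ.π k x) - ρ.π k x) + (ρ.π g (ρ.π k x) - ρ.π k x) := by
      rw [ρ.map_mul, map_sub]; abel
    rw [h1]
    refine (norm_add_le _ _).trans ?_
    rw [(ρ.π g).norm_map, add_comm]
    exact add_le_add (le_ciSup (ρ.bddAbove_dist x g) k) (le_ciSup (ρ.bddAbove_dist x h) k)
  conj g h := by
    apply le_antisymm
    · apply ciSup_le
      intro k
      refine le_trans (le_of_eq ?_) (le_ciSup (ρ.bddAbove_dist x g) (h⁻¹ * k))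
      rw [← (ρ.π h).norm_map (ρ.π g (ρ.π (h⁻¹ * k) x) - ρ.π (h⁻¹ * k) x), map_sub]
      simp only [← ρ.map_mul]
      congr 2
      · congr 2; group
      · congr 2; group
    · apply ciSup_le
      intro k
      refine le_trans (le_of_eq ?_) (le_ciSup (ρ.bddAbove_dist x (h * g * h⁻¹)) (h * k))
      rw [← (ρ.π h).norm_map (ρ.π g (ρ.π k x) - ρ.π k x), map_sub]
      simp only [← ρ.map_mul]
      congr 2
      · congr 2; group
  tb η hη := by
    classical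
    obtain ⟨S, hS⟩ := net_of_tb hx (ε := η / 4) (by positivity)
    -- simultaneous net for the finitely many vectors `π s x`, `s ∈ S`
    have h1 : TotallyBounded (Set.range fun g : G => fun s : S => ρ.π g (ρ.π (s : G) x)) := by
      apply tb_range_pi
      intro s
      exact (ρ.ap_inv hx s)
    obtain ⟨T, hT⟩ := net_of_tb h1 (ε := η / 4) (by positivity)
    refine ⟨T, fun g => ?_⟩
    obtain ⟨t, ht, hd⟩ := hT g
    refine ⟨t, ht, ?_⟩
    refine lt_of_le_of_lt (b := 3 * (η / 4)) ?_ (by linarith)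
    apply ciSup_le
    intro k
    obtain ⟨s, hs, hks⟩ := hS k
    have e1 : ‖ρ.π (t⁻¹ * g) (ρ.π k x) - ρ.π k x‖ = ‖ρ.π g (ρ.π k x) - ρ.π t (ρ.π k x)‖ := by
      rw [← (ρ.π t).norm_map (ρ.π (t⁻¹ * g) (ρ.π k x) - ρ.π k x), map_sub, ρ.map_mul,
        ρ.apply_inv]
    rw [e1]
    have e2 : ρ.π g (ρ.π k x) - ρ.π t (ρ.π k x)
        = ρ.π g (ρ.π k x - ρ.π s x) + (ρ.π g (ρ.π s x) - ρ.π t (ρ.π s x))
          + ρ.π t (ρ.π s x - ρ.π k x) := by
      simp only [map_sub]; abel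
    rw [e2]
    have e3 : dist (ρ.π g (ρ.π s x)) (ρ.π t (ρ.π s x)) < η / 4 :=
      lt_of_le_of_lt (dist_le_pi_dist (fun s : S => ρ.π g (ρ.π (s : G) x))
        (fun s : S => ρ.π t (ρ.π (s : G) x)) ⟨s, hs⟩) hd
    rw [dist_eq_norm] at e3 hks
    have e4 := norm_add₃_le (a := ρ.π g (ρ.π k x - ρ.π s x))
      (b := (ρ.π g (ρ.π s x) - ρ.π t (ρ.π s x))) (c := ρ.π t (ρ.π s x - ρ.π k x))
    rw [(ρ.π g).norm_map, (ρ.π t).norm_map, norm_sub_rev (ρ.π s x)] at e4
    linarith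

lemma norm_sub_le_bohr {x : H} (hx : x ∈ ρ.ap) (g : G) :
    ‖ρ.π g x - x‖ ≤ (ρ.bohr hx).d g := by
  have := le_ciSup (ρ.bddAbove_dist x g) 1
  rw [ρ.map_one] at this
  exact this

/-! #### Weak integrals -/

variable [CompleteSpace H]

theorem exists_wint {m : (G → ℝ) →ₗ[ℝ] ℝ} (hm : IsMean m) {v : G → ℝ} (hv : Bdd v) (F : H) :
    ∃ J : H, ∀ y, ⟪J, y⟫_ℝ = m (fun g => v g * ⟪ρ.π g F, y⟫_ℝ) := by
  obtain ⟨V, hV0, hV⟩ := hv.exists_nonneg
  let ℓ : H →ₗ[ℝ] ℝ :=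
    { toFun := fun y => m (fun g => v g * ⟪ρ.π g F, y⟫_ℝ)
      map_add' := by
        intro x y
        rw [← map_add']
        congr 1
        ext g
        rw [inner_add_right]; ring
      map_smul' := by
        intro c x
        simp only [RingHom.id_apply, smul_eq_mul]
        rw [← map_const_mul]
        congr 1
        ext g
        rw [inner_smul_right]; ring }
  have hℓ : ∀ y, ‖ℓ y‖ ≤ (V * ‖F‖) * ‖y‖ := by
    intro y
    rw [Real.norm_eq_abs]
    apply hm.abs_le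
    intro g
    rw [abs_mul, mul_assoc]
    exact mul_le_mul (hV g) (ρ.inner_abs_le g F y) (abs_nonneg _) hV0
  let ℓ' : StrongDual ℝ H := ℓ.mkContinuous (V * ‖F‖) hℓ
  refine ⟨(InnerProductSpace.toDual ℝ H).symm ℓ', fun y => ?_⟩
  rw [InnerProductSpace.toDual_symm_apply]
  rfl

end Rep

end Pool.Agent.Lib.MP_cacba2_co
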