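import Pool.Agent.Lib.MP_cacba2_co.Sys

namespace Pool.Agent.Lib.MP_cacba2_co

open Filter Topology MeasureTheory
open scoped InnerProductSpace RealInnerProductSpace

set_option linter.unusedSectionVars false

/-- translated kernel `c ↦ w (b⁻¹ c)` -/
def tr {G : Type*} [Group G] (w : G → ℝ) (b : G) : G → ℝ := fun c => w (b⁻¹ * c)

lemma tr_bdd {G : Type*} [Group G] {w : G → ℝ} (hw : Bdd w) (b : G) : Bdd (tr w b) :=
  hw.comp (fun c => b⁻¹ * c)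

lemma norm_le_of_ae {Ω : Type*} [MeasurableSpace Ω] {ν : Measure Ω} [IsProbabilityMeasure ν]
    (x : Lp ℝ 2 ν) {C : ℝ} (hC : 0 ≤ C) (h : ∀ᵐ ω ∂ν, |x ω| ≤ C) : ‖x‖ ≤ C := by
  have h1 := Lp.norm_le_of_ae_bound (f := x) hC h
  have h2 : measureUnivNNReal ν = 1 := by
    simp [measureUnivNNReal]
  simpa [h2] using h1

namespace Sys

variable {G : Type*} [Group G] {m : (G → ℝ) →ₗ[ℝ] ℝ} {Ω : Type*} [MeasurableSpace Ω]
  {ν : Measure Ω} (S : Sys G m Ω ν) {f g : G → ℝ} [IsProbabilityMeasure ν] {w : G → ℝ}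

lemma tr_nonneg (hw : IsKernel m w) (b : G) (ω : Ω) : 0 ≤ S.E (tr w b) ω :=
  S.nonneg _ (tr_bdd hw.bdd b) (fun _ => hw.nonneg _) ω

lemma integral_tr (hw : IsKernel m w) (hl : LInv m) (b : G) : ∫ ω, S.E (tr w b) ω ∂ν = 1 := by
  rw [S.integral _ (tr_bdd hw.bdd b)]
  exact hw.mean_left hl b

lemma tr_bm (hw : IsKernel m w) (b : G) : BM (S.E (tr w b)) := S.bm (tr_bdd hw.bdd b)

/-- boundedness of `b ↦ ∫ E(tr w b) f_b` for uniformly bounded `f_b` -/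
lemma bdd_integral (hw : IsKernel m w) (hl : LInv m) {F : G → Ω → ℝ} {B : ℝ}
    (hB : ∀ b ω, |F b ω| ≤ B) :
    Bdd (fun b => ∫ ω, S.E (tr w b) ω * F b ω ∂ν) := by
  refine ⟨B, fun b => ?_⟩
  have hB0 : 0 ≤ B := by
    by_cases h : Nonempty Ω
    · obtain ⟨ω⟩ := h
      exact (abs_nonneg _).trans (hB b ω)
    · exfalso
      apply h
      by_contra hne
      rw [not_nonempty_iff] at hne
      have h1 : ν Set.univ = 1 := measure_univ
      rw [Set.univ_eq_empty_iff.2 hne] at h1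
      simp at h1
  calc |∫ ω, S.E (tr w b) ω * F b ω ∂ν| ≤ ∫ ω, |S.E (tr w b) ω * F b ω| ∂ν :=
        abs_integral_le_integral_abs
    _ ≤ ∫ ω, S.E (tr w b) ω * B ∂ν := by
        apply integral_mono_of_nonneg (Eventually.of_forall fun ω => abs_nonneg _)
          ((S.tr_bm hw b).mul (BM.const B)).integrable
        refine Eventually.of_forall fun ω => ?_
        simp only [abs_mul]
        rw [abs_of_nonneg (S.tr_nonneg hw b ω)]
        exact mul_le_mul_of_nonneg_left (hB b ω) (S.tr_nonneg hw b ω)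
    _ = B := by rw [integral_mul_const, S.integral_tr hw hl, one_mul]

/-- Averaging the translated kernel gives the integral. -/
theorem avg_tr (hm : IsMean m) (hl : LInv m) (hw : IsKernel m w) {h : Ω → ℝ} (hh : BM h) :
    m (fun b => ∫ ω, S.E (tr w b) ω * h ω ∂ν) = ∫ ω, h ω ∂ν := by
  obtain ⟨L, ⟨C, hC⟩, hL⟩ := S.exists_lint hh
  have h1 := interchange hm.bf hC (κ := fun g c => w (g⁻¹ * c)) hw.isAP.sep_inv_mul
    (v := fun _ => 1) (h := fun _ => 1) (bdd_const 1) (bdd_const 1)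
  have h2 : (fun g => (1 : ℝ) * L (fun c => w (g⁻¹ * c) * 1))
      = fun b => ∫ ω, S.E (tr w b) ω * h ω ∂ν := by
    ext b
    have : (fun c => w (b⁻¹ * c) * 1) = tr w b := by ext c; simp [tr]
    rw [one_mul, this, hL _ (tr_bdd hw.bdd b)]
  have h3 : (fun c => (1 : ℝ) * m (fun g => 1 * w (g⁻¹ * c))) = fun _ => 1 := by
    ext c
    simp only [one_mul]
    exact hw.mean_right hl c
  rw [h2, h3, hL _ (bdd_const 1)] at h1
  rw [h1]
  congr 1
  ext ω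
  rw [S.const, one_mul]

/-- the shift identity `∫ w_b(ω) f(τ_b ω) = u (b b)` -/
lemma integral_shift (hw : IsKernel m w) {h : Ω → ℝ} (hh : BM h) (b : G) :
    ∫ ω, S.E (tr w b) ω * h (S.τ b ω) ∂ν = ∫ ω, S.E (tr w (b * b)) ω * h ω ∂ν := by
  have hbm : BM (fun ω => S.E (tr w b) ω * h (S.τ b ω)) :=
    (S.tr_bm hw b).mul (hh.comp (S.mp b).measurable)
  rw [← S.integral_τ b⁻¹ hbm.meas.aestronglyMeasurable]
  congr 1
  ext ω
  rw [S.τ_inv, ← S.E_τ b⁻¹ (tr w b) (tr_bdd hw.bdd b)]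
  congr 2
  ext c
  simp only [tr]
  congr 1
  group

/-- absolute continuity: small functions are rarely seen at squares -/
theorem ac (hm : IsMean m) (hl : LInv m) (hacs : ACS m) {ε : ℝ} (hε : 0 < ε) :
    ∃ δ : ℝ, 0 < δ ∧ ∀ h : Ω → ℝ, Measurable h → (∀ ω, 0 ≤ h ω ∧ h ω ≤ 1) →
      ∫ ω, h ω ∂ν < δ → ∀ w : G → ℝ, IsKernel m w →
      m (fun b => ∫ ω, S.E (tr w b) ω * h (S.τ b ω) ∂ν) ≤ ε := by
  obtain ⟨δ, hδ, H⟩ := hacs ε hε
  refine ⟨δ, hδ, fun h hmeas h01 hint w hw => ?_⟩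
  have hh : BM h := BM.of_unit hmeas h01
  set u : G → ℝ := fun g => ∫ ω, S.E (tr w g) ω * h ω ∂ν with hu
  have h1 : (fun b => ∫ ω, S.E (tr w b) ω * h (S.τ b ω) ∂ν) = fun b => u (b * b) := by
    ext b
    exact S.integral_shift hw hh b
  rw [h1]
  apply H u
  · obtain ⟨D, L, hL0, hL⟩ := hw.lip
    apply isAP_of_lip (D := D) (L := L)
    intro x y
    simp only [hu]
    rw [← integral_sub ((S.tr_bm hw x).mul hh).integrable ((S.tr_bm hw y).mul hh).integrable]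
    calc |∫ ω, (S.E (tr w x) ω * h ω - S.E (tr w y) ω * h ω) ∂ν|
        ≤ ∫ ω, |S.E (tr w x) ω * h ω - S.E (tr w y) ω * h ω| ∂ν := abs_integral_le_integral_abs
      _ ≤ ∫ _, L * D.d (x⁻¹ * y) ∂ν := by
          apply integral_mono
            (((S.tr_bm hw x).mul hh).sub ((S.tr_bm hw y).mul hh)).abs.integrable
            (BM.const _).integrable
          intro ω
          simp only
          rw [← sub_mul, abs_mul, ← S.sub (tr_bdd hw.bdd x) (tr_bdd hw.bdd y)]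
          have e1 : |S.E (fun c => tr w x c - tr w y c) ω| ≤ L * D.d (x⁻¹ * y) := by
            apply S.abs_le
            intro c
            have := hL (x⁻¹ * c) (y⁻¹ * c)
            rwa [D.inv_mul_right] at this
          have e2 : |h ω| ≤ 1 := by rw [abs_of_nonneg (h01 ω).1]; exact (h01 ω).2
          calc |S.E (fun c => tr w x c - tr w y c) ω| * |h ω|
              ≤ (L * D.d (x⁻¹ * y)) * 1 := mul_le_mul e1 e2 (abs_nonneg _)
                ((abs_nonneg _).trans e1)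
            _ = _ := mul_one _
      _ = L * D.d (x⁻¹ * y) := by simp
  · intro g
    exact integral_nonneg fun ω => mul_nonneg (S.tr_nonneg hw g ω) (h01 ω).1
  · intro g
    rw [← S.integral_tr hw hl g]
    apply integral_mono ((S.tr_bm hw g).mul hh).integrable (S.tr_bm hw g).integrable
    intro ω
    exact mul_le_of_le_one_right (S.tr_nonneg hw g ω) (h01 ω).2
  · rw [hu, S.avg_tr hm hl hw hh]
    exact hint

/-- The weakly mixing part contributes nothing. -/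
theorem wm_zero (hm : IsMean m) (hl : LInv m) (hw : IsKernel m w) {z : Lp ℝ 2 ν}
    (hz : z ∈ S.rep.apᗮ) {u : Ω → ℝ} (hu : BM u) :
    m (fun b => |∫ ω, (u ω * S.E (tr w b) ω) * z (S.τ b ω) ∂ν|) = 0 := by
  classical
  have hbm : ∀ b, BM (fun ω => u ω * S.E (tr w b) ω) := fun b => hu.mul (S.tr_bm hw b)
  obtain ⟨U, hU0, hU⟩ := Bdd.exists_nonneg hu.bdd
  obtain ⟨W, hW0, hW⟩ := hw.bdd.exists_nonneg
  -- rewrite as inner product
  have e1 : ∀ b c, ∫ ω, (u ω * S.E (tr w c) ω) * z (S.τ b ω) ∂ν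
      = ⟪S.rep.π b⁻¹ z, ((hbm c).cls : Lp ℝ 2 ν)⟫_ℝ := fun b c => (S.inner_rep_inv b z (hbm c)).symm
  have hbd : Bdd (fun b => |∫ ω, (u ω * S.E (tr w b) ω) * z (S.τ b ω) ∂ν|) := by
    refine ⟨‖z‖ * (U * W), fun b => ?_⟩
    rw [abs_abs, e1 b b]
    refine (S.rep.inner_abs_le b⁻¹ z _).trans ?_
    apply mul_le_mul_of_nonneg_left _ (norm_nonneg _)
    apply norm_le_of_ae _ (by positivity)
    filter_upwards [(hbm b).coe_cls (ν := ν)] with ω h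
    rw [h, abs_mul]
    exact mul_le_mul (hU _) (S.abs_le (fun c => hW _) ω) (abs_nonneg _) hU0
  apply le_antisymm _ (hm.pos _ hbd fun _ => abs_nonneg _)
  apply le_of_forall_pos_le_add
  intro ε hε
  obtain ⟨T, s, hs, hsw⟩ := hw.isAP.sep_inv_mul (ε / ((‖z‖ + 1) * (U + 1))) (by positivity)
  -- comparison
  have e2 : ∀ b, |∫ ω, (u ω * S.E (tr w b) ω) * z (S.τ b ω) ∂ν|
      ≤ ∑ t ∈ T, |⟪S.rep.π b⁻¹ z, ((hbm t).cls : Lp ℝ 2 ν)⟫_ℝ| + ε := by
    intro b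
    rw [e1 b b]
    have h1 : |⟪S.rep.π b⁻¹ z, ((hbm b).cls : Lp ℝ 2 ν)⟫_ℝ
        - ⟪S.rep.π b⁻¹ z, ((hbm (s b)).cls : Lp ℝ 2 ν)⟫_ℝ| ≤ ε := by
      rw [← inner_sub_right]
      refine (S.rep.inner_abs_le b⁻¹ z _).trans ?_
      have h2 : ‖((hbm b).cls : Lp ℝ 2 ν) - (hbm (s b)).cls‖
          ≤ U * (ε / ((‖z‖ + 1) * (U + 1))) := by
        apply norm_le_of_ae _ (by positivity)
        filter_upwards [(hbm b).coe_cls (ν := ν), (hbm (s b)).coe_cls (ν := ν),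
          Lp.coeFn_sub ((hbm b).cls : Lp ℝ 2 ν) (hbm (s b)).cls] with ω h3 h4 h5
        rw [h5, Pi.sub_apply, h3, h4, ← mul_sub, abs_mul,
          ← S.sub (tr_bdd hw.bdd b) (tr_bdd hw.bdd (s b))]
        exact mul_le_mul (hU _) (S.abs_le (fun c => hsw b c) ω) (abs_nonneg _) hU0
      calc ‖z‖ * ‖((hbm b).cls : Lp ℝ 2 ν) - (hbm (s b)).cls‖
          ≤ ‖z‖ * (U * (ε / ((‖z‖ + 1) * (U + 1)))) :=
            mul_le_mul_of_nonneg_left h2 (norm_nonneg _)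
        _ = (‖z‖ * U) / ((‖z‖ + 1) * (U + 1)) * ε := by ring
        _ ≤ 1 * ε := by
            apply mul_le_mul_of_nonneg_right _ hε.le
            rw [div_le_one (by positivity)]
            nlinarith [norm_nonneg z]
        _ = ε := one_mul _
    have h3 : |⟪S.rep.π b⁻¹ z, ((hbm (s b)).cls : Lp ℝ 2 ν)⟫_ℝ|
        ≤ ∑ t ∈ T, |⟪S.rep.π b⁻¹ z, ((hbm t).cls : Lp ℝ 2 ν)⟫_ℝ| :=
      Finset.single_le_sum (f := fun t => |⟪S.rep.π b⁻¹ z, ((hbm t).cls : Lp ℝ 2 ν)⟫_ℝ|)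
        (fun _ _ => abs_nonneg _) (hs b)
    have h4 := abs_sub_abs_le_abs_sub (⟪S.rep.π b⁻¹ z, ((hbm b).cls : Lp ℝ 2 ν)⟫_ℝ)
      (⟪S.rep.π b⁻¹ z, ((hbm (s b)).cls : Lp ℝ 2 ν)⟫_ℝ)
    linarith
  have hb' : ∀ t, Bdd (fun b => |⟪S.rep.π b⁻¹ z, ((hbm t).cls : Lp ℝ 2 ν)⟫_ℝ|) := fun t =>
    ((S.rep.bdd_inner z _).comp (fun b => b⁻¹)).abs
  have h5 := hm.pos.mono hbd ((Bdd.sum T fun t _ => hb' t).add (bdd_const ε)) e2
  refine h5.trans ?_
  rw [map_add' m (fun b => ∑ t ∈ T, |⟪S.rep.π b⁻¹ z, ((hbm t).cls : Lp ℝ 2 ν)⟫_ℝ|), hm.const,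
    map_sum' m T (fun t b => |⟪S.rep.π b⁻¹ z, ((hbm t).cls : Lp ℝ 2 ν)⟫_ℝ|)]
  have h6 : ∑ t ∈ T, m (fun b => |⟪S.rep.π b⁻¹ z, ((hbm t).cls : Lp ℝ 2 ν)⟫_ℝ|) = 0 :=
    Finset.sum_eq_zero fun t _ => S.rep.mean_abs_inner_inv hm hl hz _
  rw [h6]

end Sys

end Pool.Agent.Lib.MP_cacba2_co
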