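import Pool.Agent.Lib.MP_cacba2_co.Left1

namespace Pool.Agent.Lib.MP_cacba2_co

open Filter Topology MeasureTheory
open scoped InnerProductSpace RealInnerProductSpace

set_option linter.unusedSectionVars false

section helpers

variable {Ω : Type*} [MeasurableSpace Ω] {ν : Measure Ω} [IsProbabilityMeasure ν]

lemma inner_cls (x : Lp ℝ 2 ν) {u : Ω → ℝ} (hu : BM u) :
    ⟪x, (hu.cls : Lp ℝ 2 ν)⟫_ℝ = ∫ ω, u ω * x ω ∂ν := by
  rw [L2.inner_def]
  apply integral_congr_ae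
  filter_upwards [hu.coe_cls (ν := ν)] with ω h2
  rw [h2]
  simp

lemma inner_indicator (x : Lp ℝ 2 ν) {s : Set Ω} (hs : MeasurableSet s) :
    ⟪x, ((BM.indicator hs).cls : Lp ℝ 2 ν)⟫_ℝ = ∫ ω in s, x ω ∂ν := by
  rw [inner_cls, ← integral_indicator hs]
  congr 1
  ext ω
  by_cases h : ω ∈ s <;> simp [h]

lemma lp_integrable (x : Lp ℝ 2 ν) : Integrable x ν :=
  (Lp.memLp x).integrable (by norm_num)

lemma integral_abs_le_norm (x : Lp ℝ 2 ν) : ∫ ω, |x ω| ∂ν ≤ ‖x‖ := by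
  have hm : Measurable (x : Ω → ℝ) := (Lp.stronglyMeasurable x).measurable
  have hs : MeasurableSet {ω | 0 ≤ x ω} := measurableSet_le measurable_const hm
  set u : Ω → ℝ := fun ω => ({ω | 0 ≤ x ω}.indicator (fun _ => (1 : ℝ)) ω) * 2 - 1 with hu
  have hub : BM u := ((BM.indicator hs).mul (BM.const 2)).sub (BM.const 1)
  have hu1 : ∀ ω, |u ω| ≤ 1 := by
    intro ω
    simp only [hu]
    by_cases h : 0 ≤ x ω
    · have : ω ∈ {ω | 0 ≤ x ω} := h
      rw [Set.indicator_of_mem this]; norm_num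
    · have : ω ∉ {ω | 0 ≤ x ω} := h
      rw [Set.indicator_of_notMem this]; norm_num
  have h1 : ∫ ω, |x ω| ∂ν = ⟪x, (hub.cls : Lp ℝ 2 ν)⟫_ℝ := by
    rw [inner_cls]
    congr 1
    ext ω
    simp only [hu]
    by_cases h : 0 ≤ x ω
    · have h' : ω ∈ {ω | 0 ≤ x ω} := h
      rw [Set.indicator_of_mem h', abs_of_nonneg h]; ring
    · have h' : ω ∉ {ω | 0 ≤ x ω} := h
      rw [Set.indicator_of_notMem h', abs_of_neg (not_le.1 h)]; ring
  rw [h1]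
  have h2 := real_inner_le_norm x (hub.cls : Lp ℝ 2 ν)
  have h3 : ‖(hub.cls : Lp ℝ 2 ν)‖ ≤ 1 := by
    apply norm_le_of_ae _ zero_le_one
    filter_upwards [hub.coe_cls (ν := ν)] with ω h
    rw [h]; exact hu1 ω
  calc _ ≤ ‖x‖ * ‖(hub.cls : Lp ℝ 2 ν)‖ := h2
    _ ≤ ‖x‖ * 1 := mul_le_mul_of_nonneg_left h3 (norm_nonneg _)
    _ = _ := mul_one _

/-- test with sets: upper bound -/
lemma ae_le_const_of_sets {x : Lp ℝ 2 ν} {c : ℝ}
    (h : ∀ s (_ : MeasurableSet s), ∫ ω in s, x ω ∂ν ≤ c * ν.real s) :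
    ∀ᵐ ω ∂ν, x ω ≤ c := by
  have h1 : (x : Ω → ℝ) ≤ᵐ[ν] fun _ => c := by
    apply ae_le_of_forall_setIntegral_le (lp_integrable x) (integrable_const c)
    intro s hs _
    refine (h s hs).trans (le_of_eq ?_)
    rw [setIntegral_const, smul_eq_mul, mul_comm]
  exact h1

lemma ae_ge_const_of_sets {x : Lp ℝ 2 ν} {c : ℝ}
    (h : ∀ s (_ : MeasurableSet s), c * ν.real s ≤ ∫ ω in s, x ω ∂ν) :
    ∀ᵐ ω ∂ν, c ≤ x ω := by
  have h1 : (fun _ => c) ≤ᵐ[ν] (x : Ω → ℝ) := by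
    apply ae_le_of_forall_setIntegral_le (integrable_const c) (lp_integrable x)
    intro s hs _
    refine le_trans (le_of_eq ?_) (h s hs)
    rw [setIntegral_const, smul_eq_mul, mul_comm]
  exact h1

end helpers

namespace Sys

variable {G : Type*} [Group G] {m : (G → ℝ) →ₗ[ℝ] ℝ} {Ω : Type*} [MeasurableSpace Ω]
  {ν : Measure Ω} (S : Sys G m Ω ν) [IsProbabilityMeasure ν] {w : G → ℝ}

lemma inner_F_bounds {F : G → ℝ} (h0 : ∀ x, 0 ≤ F x) (h1 : ∀ x, F x ≤ 1)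
    (hF : BM (S.E F)) (g : G) {s : Set Ω} (hs : MeasurableSet s) :
    0 ≤ ⟪S.rep.π g (hF.cls : Lp ℝ 2 ν), ((BM.indicator hs).cls : Lp ℝ 2 ν)⟫_ℝ ∧
    ⟪S.rep.π g (hF.cls : Lp ℝ 2 ν), ((BM.indicator hs).cls : Lp ℝ 2 ν)⟫_ℝ ≤ ν.real s := by
  have hb : Bdd F := bdd_of_mem_unit h0 h1
  rw [S.inner_rep]
  have e1 : ∫ ω, s.indicator (fun _ => (1 : ℝ)) ω * (hF.cls : Lp ℝ 2 ν) (S.τ g⁻¹ ω) ∂ν
      = ∫ ω, s.indicator (fun _ => (1 : ℝ)) ω * S.E F (S.τ g⁻¹ ω) ∂ν := by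
    apply integral_congr_ae
    have := (S.mp g⁻¹).quasiMeasurePreserving.ae (hF.coe_cls (ν := ν))
    filter_upwards [this] with ω h
    rw [h]
  rw [e1]
  constructor
  · apply integral_nonneg
    intro ω
    apply mul_nonneg
    · by_cases h : ω ∈ s <;> simp [h]
    · exact S.nonneg F hb h0 _
  · have e2 : ν.real s = ∫ ω, s.indicator (fun _ => (1 : ℝ)) ω ∂ν := by
      rw [integral_indicator hs, setIntegral_const, smul_eq_mul, mul_one]
    rw [e2]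
    apply integral_mono (((BM.indicator hs).mul (hF.comp (S.mp g⁻¹).measurable))).integrable
      (BM.indicator hs).integrable
    intro ω
    simp only
    have h3 : S.E F (S.τ g⁻¹ ω) ≤ 1 := by
      have := S.mono hb (bdd_const 1) h1 (S.τ g⁻¹ ω)
      rwa [S.const] at this
    by_cases h : ω ∈ s
    · simpa [h] using h3
    · simp [h]

/-- Smoothed approximations of the almost periodic part. -/
theorem exists_approx (hm : IsMean m) (hl : LInv m) (hr : RInv m) {F : G → ℝ}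
    (h0 : ∀ x, 0 ≤ F x) (h1 : ∀ x, F x ≤ 1) (hF : BM (S.E F)) {y z : Lp ℝ 2 ν}
    (hy : y ∈ S.rep.ap) (hz : z ∈ S.rep.apᗮ) (hyz : (hF.cls : Lp ℝ 2 ν) = y + z)
    {η : ℝ} (hη : 0 < η) :
    ∃ J : Lp ℝ 2 ν, (∀ᵐ ω ∂ν, 0 ≤ J ω ∧ J ω ≤ 1) ∧
      (∃ (D : BohrNorm G) (L : ℝ), 0 ≤ L ∧ ∀ b b' : G,
        ∀ᵐ ω ∂ν, |J (S.τ b ω) - J (S.τ b' ω)| ≤ L * D.d (b⁻¹ * b')) ∧
      ‖J - y‖ ≤ η := by
  obtain ⟨w, hw, hsupp, -⟩ := exists_kernel hm hl hr (S.rep.bohr hy) hη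
  obtain ⟨J, hJ, hJy⟩ := S.rep.exists_smoothing hm hl hy hz hyz hw hη.le hsupp
  have hFb := fun g s (hs : MeasurableSet s) => S.inner_F_bounds h0 h1 hF g hs
  have hIb : ∀ s (hs : MeasurableSet s), Bdd (fun g =>
      ⟪S.rep.π g (hF.cls : Lp ℝ 2 ν), ((BM.indicator hs).cls : Lp ℝ 2 ν)⟫_ℝ) := fun s hs =>
    S.rep.bdd_inner _ _
  refine ⟨J, ?_, ?_, hJy⟩
  · have a1 : ∀ᵐ ω ∂ν, 0 ≤ J ω := by
      apply ae_ge_const_of_sets
      intro s hs
      rw [zero_mul, ← inner_indicator J hs, hJ]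
      exact hm.pos _ (hw.bdd.mul (hIb s hs)) fun g => mul_nonneg (hw.nonneg g) (hFb g s hs).1
    have a2 : ∀ᵐ ω ∂ν, J ω ≤ 1 := by
      apply ae_le_const_of_sets
      intro s hs
      rw [one_mul, ← inner_indicator J hs, hJ]
      have e1 : m (fun g => ν.real s * w g) = ν.real s := by
        rw [map_const_mul, hw.mean, mul_one]
      rw [← e1]
      apply hm.pos.mono (hw.bdd.mul (hIb s hs)) ((bdd_const _).mul hw.bdd)
      intro g
      rw [mul_comm]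
      exact mul_le_mul_of_nonneg_right (hFb g s hs).2 (hw.nonneg g)
    filter_upwards [a1, a2] with ω b1 b2 using ⟨b1, b2⟩
  · obtain ⟨D, L, hL0, hL⟩ := hw.lip
    refine ⟨D, L, hL0, fun b b' => ?_⟩
    set c : ℝ := L * D.d (b⁻¹ * b') with hc
    have hc0 : 0 ≤ c := mul_nonneg hL0 (D.nonneg _)
    -- the basic identity
    have key : ∀ (b : G) (s : Set Ω) (hs : MeasurableSet s),
        ⟪S.rep.π b⁻¹ J, ((BM.indicator hs).cls : Lp ℝ 2 ν)⟫_ℝ
        = m (fun g => w (b * g) * ⟪S.rep.π g (hF.cls : Lp ℝ 2 ν),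
            ((BM.indicator hs).cls : Lp ℝ 2 ν)⟫_ℝ) := by
      intro b s hs
      rw [S.rep.inner_left, inv_inv, hJ]
      rw [← hl b (fun g => w g * ⟪S.rep.π g (hF.cls : Lp ℝ 2 ν),
        S.rep.π b ((BM.indicator hs).cls : Lp ℝ 2 ν)⟫_ℝ) (hw.bdd.mul (S.rep.bdd_inner _ _))]
      congr 1
      ext g
      rw [S.rep.map_mul, (S.rep.π b).inner_map_map]
    have key2 : ∀ s (hs : MeasurableSet s),
        |∫ ω in s, (S.rep.π b⁻¹ J - S.rep.π b'⁻¹ J : Lp ℝ 2 ν) ω ∂ν| ≤ c * ν.real s := by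
      intro s hs
      rw [← inner_indicator _ hs, inner_sub_left, key b s hs, key b' s hs, ← map_sub']
      have hbb : Bdd (fun g => w (b * g) * ⟪S.rep.π g (hF.cls : Lp ℝ 2 ν),
            ((BM.indicator hs).cls : Lp ℝ 2 ν)⟫_ℝ - w (b' * g) *
            ⟪S.rep.π g (hF.cls : Lp ℝ 2 ν), ((BM.indicator hs).cls : Lp ℝ 2 ν)⟫_ℝ) :=
        ((hw.bdd.comp _).mul (hIb s hs)).sub ((hw.bdd.comp _).mul (hIb s hs))
      apply hm.abs_le
      intro g
      rw [← sub_mul, abs_mul]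
      apply mul_le_mul _ _ (abs_nonneg _) hc0
      · have := hL (b * g) (b' * g)
        rwa [D.mul_right] at this
      · rw [abs_of_nonneg (hFb g s hs).1]
        exact (hFb g s hs).2
    have a1 : ∀ᵐ ω ∂ν, (S.rep.π b⁻¹ J - S.rep.π b'⁻¹ J : Lp ℝ 2 ν) ω ≤ c :=
      ae_le_const_of_sets fun s hs => (_root_.abs_le.1 (key2 s hs)).2
    have a2 : ∀ᵐ ω ∂ν, -c ≤ (S.rep.π b⁻¹ J - S.rep.π b'⁻¹ J : Lp ℝ 2 ν) ω :=
      ae_ge_const_of_sets fun s hs => by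
        have := (_root_.abs_le.1 (key2 s hs)).1
        linarith
    filter_upwards [a1, a2, Lp.coeFn_sub (S.rep.π b⁻¹ J) (S.rep.π b'⁻¹ J),
      S.rep_inv_coe b J, S.rep_inv_coe b' J] with ω h1 h2 h3 h4 h5
    rw [h3, Pi.sub_apply, h4, h5] at h1 h2
    rw [_root_.abs_le]
    exact ⟨h2, h1⟩

/-- The almost periodic part takes values in `[0,1]`. -/
theorem ap_unit (hm : IsMean m) (hl : LInv m) (hr : RInv m) {F : G → ℝ}
    (h0 : ∀ x, 0 ≤ F x) (h1 : ∀ x, F x ≤ 1) (hF : BM (S.E F)) {y z : Lp ℝ 2 ν}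
    (hy : y ∈ S.rep.ap) (hz : z ∈ S.rep.apᗮ) (hyz : (hF.cls : Lp ℝ 2 ν) = y + z) :
    ∀ᵐ ω ∂ν, 0 ≤ y ω ∧ y ω ≤ 1 := by
  have hnorm : ∀ s (hs : MeasurableSet s), ‖((BM.indicator hs).cls : Lp ℝ 2 ν)‖ ≤ 1 := by
    intro s hs
    apply norm_le_of_ae _ zero_le_one
    filter_upwards [(BM.indicator hs).coe_cls (ν := ν)] with ω h
    rw [h]
    by_cases h' : ω ∈ s <;> simp [h']
  have key : ∀ s (hs : MeasurableSet s), 0 ≤ ∫ ω in s, y ω ∂ν ∧
      ∫ ω in s, y ω ∂ν ≤ ν.real s := by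
    intro s hs
    have main : ∀ η : ℝ, 0 < η → -η ≤ ∫ ω in s, y ω ∂ν ∧ ∫ ω in s, y ω ∂ν ≤ ν.real s + η := by
      intro η hη
      obtain ⟨J, hJ, -, hJy⟩ := S.exists_approx hm hl hr h0 h1 hF hy hz hyz hη
      have e1 : ∫ ω in s, y ω ∂ν
          = ∫ ω in s, J ω ∂ν - ⟪J - y, ((BM.indicator hs).cls : Lp ℝ 2 ν)⟫_ℝ := by
        rw [inner_sub_left, inner_indicator _ hs, inner_indicator _ hs]; ring
      have e2 : |⟪J - y, ((BM.indicator hs).cls : Lp ℝ 2 ν)⟫_ℝ| ≤ η := by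
        refine (abs_real_inner_le_norm _ _).trans ?_
        calc ‖J - y‖ * ‖((BM.indicator hs).cls : Lp ℝ 2 ν)‖ ≤ η * 1 :=
              mul_le_mul hJy (hnorm s hs) (norm_nonneg _) hη.le
          _ = η := mul_one _
      have e3 : 0 ≤ ∫ ω in s, J ω ∂ν := by
        apply setIntegral_nonneg_of_ae_restrict
        exact ae_restrict_of_ae (hJ.mono fun ω h => h.1)
      have e4 : ∫ ω in s, J ω ∂ν ≤ ν.real s := by
        have : ∫ ω in s, J ω ∂ν ≤ ∫ ω in s, (1 : ℝ) ∂ν := by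
          apply setIntegral_mono_ae_restrict (lp_integrable J).integrableOn
            (integrable_const (1 : ℝ)).integrableOn
          exact ae_restrict_of_ae (hJ.mono fun ω h => h.2)
        simpa using this
      rw [_root_.abs_le] at e2
      rw [e1]
      constructor <;> linarith [e2.1, e2.2]
    constructor
    · apply le_of_forall_pos_le_add
      intro η hη
      linarith [(main η hη).1]
    · apply le_of_forall_pos_le_add
      intro η hη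
      exact (main η hη).2
  have a1 : ∀ᵐ ω ∂ν, 0 ≤ y ω := ae_ge_const_of_sets fun s hs => by
    rw [zero_mul]; exact (key s hs).1
  have a2 : ∀ᵐ ω ∂ν, y ω ≤ 1 := ae_le_const_of_sets fun s hs => by
    rw [one_mul]; exact (key s hs).2
  filter_upwards [a1, a2] with ω b1 b2 using ⟨b1, b2⟩

end Sys

end Pool.Agent.Lib.MP_cacba2_co
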