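import Pool.Agent.Lib.MP_cacba2_co.Left2

namespace Pool.Agent.Lib.MP_cacba2_co

open Filter Topology MeasureTheory
open scoped InnerProductSpace RealInnerProductSpace

set_option linter.unusedSectionVars false

/-- clamp to `[0,1]` -/
noncomputable def clamp (t : ℝ) : ℝ := max 0 (min 1 t)

lemma clamp_nonneg (t : ℝ) : 0 ≤ clamp t := le_max_left _ _

lemma clamp_le_one (t : ℝ) : clamp t ≤ 1 := max_le zero_le_one (min_le_left _ _)

lemma clamp_of_unit {t : ℝ} (h : 0 ≤ t ∧ t ≤ 1) : clamp t = t := by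
  unfold clamp
  rw [min_eq_right h.2, max_eq_right h.1]

lemma clamp_lip (s t : ℝ) : |clamp s - clamp t| ≤ |s - t| := by
  unfold clamp
  rw [max_comm 0, max_comm 0, min_comm 1, min_comm 1]
  refine (abs_max_sub_max_le_abs _ _ _).trans ?_
  refine (abs_min_sub_min_le_max s 1 t 1).trans ?_
  simp

lemma measurable_clamp {Ω : Type*} [MeasurableSpace Ω] {f : Ω → ℝ} (hf : Measurable f) :
    Measurable (fun ω => clamp (f ω)) :=
  measurable_const.max (measurable_const.min hf)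


namespace Sys

variable {G : Type*} [Group G] {m : (G → ℝ) →ₗ[ℝ] ℝ} {Ω : Type*} [MeasurableSpace Ω]
  {ν : Measure Ω} (S : Sys G m Ω ν) [IsProbabilityMeasure ν] {w : G → ℝ}

/-- a locally constant approximation of `b ↦ f ∘ τ_b` -/
theorem exists_local {f : Ω → ℝ} (hfm : Measurable f) (hf01 : ∀ ω, 0 ≤ f ω ∧ f ω ≤ 1)
    (hl : LInv m) {D : BohrNorm G} {L : ℝ} (hL0 : 0 ≤ L)
    (hLip : ∀ b b' : G, ∀ᵐ ω ∂ν, |f (S.τ b ω) - f (S.τ b' ω)| ≤ L * D.d (b⁻¹ * b'))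
    {ε : ℝ} (hε : 0 < ε) :
    ∃ q : Ω → ℝ, Measurable q ∧ (∀ ω, 0 ≤ q ω ∧ q ω ≤ 1) ∧ ∃ η : ℝ, 0 < η ∧
      ∀ w : G → ℝ, IsKernel m w → (∀ x, w x ≠ 0 → D.d x < η) →
      ∀ b, ∫ ω, S.E (tr w b) ω * |f (S.τ b ω) - q ω| ∂ν ≤ ε := by
  classical
  have hf : BM f := BM.of_unit hfm hf01
  set η : ℝ := ε / (2 * (L + 1)) with hη
  have hηpos : 0 < η := by positivity
  obtain ⟨T, s, hs, hsd⟩ := D.exists_selection hηpos
  set P : G → G → ℝ := fun t g => if s g = t then 1 else 0 with hP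
  have hPb : ∀ t, Bdd (P t) := fun t => bdd_ite _
  have hP0 : ∀ t ω, 0 ≤ S.E (P t) ω := fun t ω =>
    S.nonneg _ (hPb t) (fun x => by simp only [hP]; split_ifs <;> norm_num) ω
  have hPsum : ∀ ω, ∑ t ∈ T, S.E (P t) ω = 1 := by
    intro ω
    rw [← S.sum T (fun t _ => hPb t)]
    have : (fun x => ∑ t ∈ T, P t x) = fun _ => (1 : ℝ) := by
      ext x
      simp only [hP]
      rw [Finset.sum_ite_eq]
      simp [hs x]
    rw [this, S.const]
  set q : Ω → ℝ := fun ω => ∑ t ∈ T, S.E (P t) ω * f (S.τ t ω) with hq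
  have hqm : BM q := BM.sum T fun t _ => (S.bm (hPb t)).mul (hf.comp (S.mp t).measurable)
  have hq01 : ∀ ω, 0 ≤ q ω ∧ q ω ≤ 1 := by
    intro ω
    constructor
    · exact Finset.sum_nonneg fun t _ => mul_nonneg (hP0 t ω) (hf01 _).1
    · rw [← hPsum ω]
      exact Finset.sum_le_sum fun t _ => mul_le_of_le_one_right (hP0 t ω) (hf01 _).2
  refine ⟨q, hqm.meas, hq01, η, hηpos, ?_⟩
  intro w hw hsupp b
  have hE0 := fun ω => S.tr_nonneg hw b ω
  -- the a.e. estimate in each cell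
  have hcell : ∀ t ∈ T, ∀ᵐ ω ∂ν,
      S.E (tr w b) ω * S.E (P t) ω * |f (S.τ b ω) - f (S.τ t ω)|
        ≤ ε * (S.E (tr w b) ω * S.E (P t) ω) := by
    intro t _
    by_cases hex : ∃ c, w (b⁻¹ * c) ≠ 0 ∧ s c = t
    · obtain ⟨c, hc1, hc2⟩ := hex
      have d1 : D.d (b⁻¹ * c) < η := hsupp _ hc1
      have d2 : D.d (t⁻¹ * c) < η := by rw [← hc2]; exact hsd c
      have d3 : D.d (b⁻¹ * t) < 2 * η := by
        have h1 := D.trans b c t
        rw [D.inv_mul_symm c t] at h1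
        linarith
      have d4 : L * D.d (b⁻¹ * t) ≤ ε := by
        calc L * D.d (b⁻¹ * t) ≤ L * (2 * η) := mul_le_mul_of_nonneg_left d3.le hL0
          _ ≤ (L + 1) * (2 * η) := by nlinarith
          _ = ε := by rw [hη]; field_simp
      filter_upwards [hLip b t] with ω h
      have h1 : 0 ≤ S.E (tr w b) ω * S.E (P t) ω := mul_nonneg (hE0 ω) (hP0 t ω)
      rw [mul_comm ε]
      exact mul_le_mul_of_nonneg_left (h.trans d4) h1
    · push Not at hex
      have hz : ∀ x, tr w b x * P t x = 0 := by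
        intro x
        by_cases h1 : w (b⁻¹ * x) = 0
        · simp [tr, h1]
        · have := hex x h1
          simp [hP, this]
      refine Eventually.of_forall fun ω => ?_
      have h2 : S.E (tr w b) ω * S.E (P t) ω = 0 := by
        rw [← S.mul _ _ (tr_bdd hw.bdd b) (hPb t)]
        exact S.E_zero_of hz ω
      rw [h2]; simp
  have hae : ∀ᵐ ω ∂ν, S.E (tr w b) ω * |f (S.τ b ω) - q ω| ≤ ε * S.E (tr w b) ω := by
    have hall : ∀ᵐ ω ∂ν, ∀ t ∈ T,
        S.E (tr w b) ω * S.E (P t) ω * |f (S.τ b ω) - f (S.τ t ω)|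
        ≤ ε * (S.E (tr w b) ω * S.E (P t) ω) := by
      rw [← Finset.eventually_all] at *
      exact hcell
    filter_upwards [hall] with ω h
    have e1 : f (S.τ b ω) - q ω = ∑ t ∈ T, S.E (P t) ω * (f (S.τ b ω) - f (S.τ t ω)) := by
      simp only [mul_sub, Finset.sum_sub_distrib]
      rw [← Finset.sum_mul, hPsum ω, one_mul]
    have e2 : |f (S.τ b ω) - q ω| ≤ ∑ t ∈ T, S.E (P t) ω * |f (S.τ b ω) - f (S.τ t ω)| := by
      rw [e1]
      refine (Finset.abs_sum_le_sum_abs _ _).trans ?_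
      refine Finset.sum_le_sum fun t _ => ?_
      rw [abs_mul, abs_of_nonneg (hP0 t ω)]
    calc S.E (tr w b) ω * |f (S.τ b ω) - q ω|
        ≤ S.E (tr w b) ω * ∑ t ∈ T, S.E (P t) ω * |f (S.τ b ω) - f (S.τ t ω)| :=
          mul_le_mul_of_nonneg_left e2 (hE0 ω)
      _ = ∑ t ∈ T, S.E (tr w b) ω * S.E (P t) ω * |f (S.τ b ω) - f (S.τ t ω)| := by
          rw [Finset.mul_sum]
          exact Finset.sum_congr rfl fun t _ => by ring
      _ ≤ ∑ t ∈ T, ε * (S.E (tr w b) ω * S.E (P t) ω) := Finset.sum_le_sum h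
      _ = ε * S.E (tr w b) ω := by
          rw [← Finset.mul_sum, ← Finset.mul_sum, hPsum ω, mul_one]
  have hint1 : BM (fun ω => S.E (tr w b) ω * |f (S.τ b ω) - q ω|) :=
    (S.tr_bm hw b).mul ((hf.comp (S.mp b).measurable).sub hqm).abs
  calc ∫ ω, S.E (tr w b) ω * |f (S.τ b ω) - q ω| ∂ν
      ≤ ∫ ω, ε * S.E (tr w b) ω ∂ν :=
        integral_mono_ae hint1.integrable ((BM.const ε).mul (S.tr_bm hw b)).integrable hae
    _ = ε := by rw [integral_const_mul, S.integral_tr hw hl, mul_one]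

/-- approximation of the almost periodic part near the diagonal -/
theorem exists_q_eps (hm : IsMean m) (hl : LInv m) (hr : RInv m) (hacs : ACS m) {F : G → ℝ}
    (h0 : ∀ x, 0 ≤ F x) (h1 : ∀ x, F x ≤ 1) (hF : BM (S.E F)) {y z : Lp ℝ 2 ν}
    (hy : y ∈ S.rep.ap) (hz : z ∈ S.rep.apᗮ) (hyz : (hF.cls : Lp ℝ 2 ν) = y + z)
    {ε : ℝ} (hε : 0 < ε) :
    ∃ q : Ω → ℝ, Measurable q ∧ (∀ ω, 0 ≤ q ω ∧ q ω ≤ 1) ∧ ∃ (D : BohrNorm G) (η : ℝ), 0 < η ∧
      ∀ w : G → ℝ, IsKernel m w → (∀ x, w x ≠ 0 → D.d x < η) →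
      m (fun b => ∫ ω, S.E (tr w b) ω * |clamp (y (S.τ b ω)) - q ω| ∂ν) ≤ ε := by
  obtain ⟨δ, hδ, hac⟩ := S.ac hm hl hacs (half_pos hε)
  obtain ⟨J, hJ01, ⟨D, L, hL0, hL⟩, hJy⟩ :=
    S.exists_approx hm hl hr h0 h1 hF hy hz hyz (half_pos hδ)
  have hy01 := S.ap_unit hm hl hr h0 h1 hF hy hz hyz
  have hJm : Measurable (J : Ω → ℝ) := (Lp.stronglyMeasurable J).measurable
  have hym : Measurable (y : Ω → ℝ) := (Lp.stronglyMeasurable y).measurable
  set f : Ω → ℝ := fun ω => clamp (J ω) with hf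
  set y' : Ω → ℝ := fun ω => clamp (y ω) with hy'
  have hfm : Measurable f := measurable_clamp hJm
  have hy'm : Measurable y' := measurable_clamp hym
  have hf01 : ∀ ω, 0 ≤ f ω ∧ f ω ≤ 1 := fun ω => ⟨clamp_nonneg _, clamp_le_one _⟩
  have hy'01 : ∀ ω, 0 ≤ y' ω ∧ y' ω ≤ 1 := fun ω => ⟨clamp_nonneg _, clamp_le_one _⟩
  have hfbm : BM f := BM.of_unit hfm hf01
  have hybm : BM y' := BM.of_unit hy'm hy'01
  have hLip : ∀ b b' : G, ∀ᵐ ω ∂ν, |f (S.τ b ω) - f (S.τ b' ω)| ≤ L * D.d (b⁻¹ * b') := by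
    intro b b'
    filter_upwards [hL b b'] with ω h
    exact (clamp_lip _ _).trans h
  obtain ⟨q, hqm, hq01, η, hη, hq⟩ := S.exists_local hfm hf01 hl hL0 hLip (half_pos hε)
  have hqbm : BM q := BM.of_unit hqm hq01
  refine ⟨q, hqm, hq01, D, η, hη, ?_⟩
  intro w hw hsupp
  -- first part: absolute continuity
  have a1 : m (fun b => ∫ ω, S.E (tr w b) ω * |f (S.τ b ω) - y' (S.τ b ω)| ∂ν) ≤ ε / 2 := by
    apply hac (fun ω => |f ω - y' ω|) (hfbm.sub hybm).abs.meas _ _ w hw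
    · intro ω
      refine ⟨abs_nonneg _, ?_⟩
      rw [_root_.abs_le]
      constructor <;> linarith [(hf01 ω).1, (hf01 ω).2, (hy'01 ω).1, (hy'01 ω).2]
    · have e1 : ∫ ω, |f ω - y' ω| ∂ν ≤ ∫ ω, |(J - y : Lp ℝ 2 ν) ω| ∂ν := by
        apply integral_mono_ae (hfbm.sub hybm).abs.integrable (lp_integrable _).abs
        filter_upwards [Lp.coeFn_sub J y] with ω h
        rw [h, Pi.sub_apply]
        exact clamp_lip _ _
      have e2 := integral_abs_le_norm (J - y)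
      linarith
  have hb1 : Bdd (fun b => ∫ ω, S.E (tr w b) ω * |f (S.τ b ω) - y' (S.τ b ω)| ∂ν) :=
    S.bdd_integral hw hl (B := 1) (by
      intro b ω
      rw [abs_abs, _root_.abs_le]
      constructor <;> linarith [(hf01 (S.τ b ω)).1, (hf01 (S.τ b ω)).2,
        (hy'01 (S.τ b ω)).1, (hy'01 (S.τ b ω)).2])
  have hb2 : Bdd (fun b => ∫ ω, S.E (tr w b) ω * |y' (S.τ b ω) - q ω| ∂ν) :=
    S.bdd_integral hw hl (B := 1) (by
      intro b ω
      rw [abs_abs, _root_.abs_le]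
      constructor <;> linarith [(hq01 ω).1, (hq01 ω).2,
        (hy'01 (S.τ b ω)).1, (hy'01 (S.τ b ω)).2])
  have a2 : ∀ b, ∫ ω, S.E (tr w b) ω * |y' (S.τ b ω) - q ω| ∂ν
      ≤ ∫ ω, S.E (tr w b) ω * |f (S.τ b ω) - y' (S.τ b ω)| ∂ν + ε / 2 := by
    intro b
    have i1 : BM (fun ω => S.E (tr w b) ω * |f (S.τ b ω) - y' (S.τ b ω)|) :=
      (S.tr_bm hw b).mul ((hfbm.sub hybm).comp (S.mp b).measurable).abs
    have i2 : BM (fun ω => S.E (tr w b) ω * |f (S.τ b ω) - q ω|) :=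
      (S.tr_bm hw b).mul ((hfbm.comp (S.mp b).measurable).sub hqbm).abs
    have i3 : BM (fun ω => S.E (tr w b) ω * |y' (S.τ b ω) - q ω|) :=
      (S.tr_bm hw b).mul ((hybm.comp (S.mp b).measurable).sub hqbm).abs
    have h2 := hq w hw hsupp b
    have h3 : ∫ ω, S.E (tr w b) ω * |y' (S.τ b ω) - q ω| ∂ν
        ≤ ∫ ω, (S.E (tr w b) ω * |f (S.τ b ω) - y' (S.τ b ω)|
          + S.E (tr w b) ω * |f (S.τ b ω) - q ω|) ∂ν := by
      apply integral_mono i3.integrable (i1.add i2).integrable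
      intro ω
      simp only
      rw [← mul_add]
      apply mul_le_mul_of_nonneg_left _ (S.tr_nonneg hw b ω)
      have := abs_sub_le (y' (S.τ b ω)) (f (S.τ b ω)) (q ω)
      rw [abs_sub_comm (y' (S.τ b ω)) (f (S.τ b ω))] at this
      exact this
    rw [integral_add i1.integrable i2.integrable] at h3
    linarith
  have a3 := hm.pos.mono hb2 (hb1.add (bdd_const (ε / 2))) a2
  rw [map_add' m (fun b => ∫ ω, S.E (tr w b) ω * |f (S.τ b ω) - y' (S.τ b ω)| ∂ν),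
    hm.const] at a3
  linarith

end Sys

end Pool.Agent.Lib.MP_cacba2_co
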