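import Pool.Agent.Lib.MP_cacba2_co.Left3

namespace Pool.Agent.Lib.MP_cacba2_co

open Filter Topology MeasureTheory
open scoped InnerProductSpace RealInnerProductSpace

set_option linter.unusedSectionVars false

namespace Sys

variable {G : Type*} [Group G] {m : (G → ℝ) →ₗ[ℝ] ℝ} {Ω : Type*} [MeasurableSpace Ω]
  {ν : Measure Ω} (S : Sys G m Ω ν) [IsProbabilityMeasure ν] {w : G → ℝ}

/-- `q` approximates `y` at squares, with error `ε` -/
def Near (y : Ω → ℝ) (q : Ω → ℝ) (ε : ℝ) : Prop :=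
  ∃ (D : BohrNorm G) (η : ℝ), 0 < η ∧
      ∀ w : G → ℝ, IsKernel m w → (∀ x, w x ≠ 0 → D.d x < η) →
      m (fun b => ∫ ω, S.E (tr w b) ω * |y (S.τ b ω) - q ω| ∂ν) ≤ ε

lemma near_dist (hm : IsMean m) (hl : LInv m) (hr : RInv m) {y q₁ q₂ : Ω → ℝ} {ε₁ ε₂ : ℝ}
    (hy : Measurable y) (hy01 : ∀ ω, 0 ≤ y ω ∧ y ω ≤ 1)
    (h1m : Measurable q₁) (h101 : ∀ ω, 0 ≤ q₁ ω ∧ q₁ ω ≤ 1)
    (h2m : Measurable q₂) (h201 : ∀ ω, 0 ≤ q₂ ω ∧ q₂ ω ≤ 1)
    (h1 : S.Near y q₁ ε₁) (h2 : S.Near y q₂ ε₂) :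
    ∫ ω, |q₁ ω - q₂ ω| ∂ν ≤ ε₁ + ε₂ := by
  obtain ⟨D₁, η₁, hη₁, H₁⟩ := h1
  obtain ⟨D₂, η₂, hη₂, H₂⟩ := h2
  obtain ⟨w, hw, hsupp, -⟩ := exists_kernel hm hl hr (D₁.add D₂) (lt_min hη₁ hη₂)
  have s1 : ∀ x, w x ≠ 0 → D₁.d x < η₁ := fun x hx => by
    have h := (hsupp x hx).trans_le (min_le_left _ _)
    have h' : D₁.d x + D₂.d x < η₁ := h
    linarith [D₂.nonneg x]
  have s2 : ∀ x, w x ≠ 0 → D₂.d x < η₂ := fun x hx => by
    have h := (hsupp x hx).trans_le (min_le_right _ _)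
    have h' : D₁.d x + D₂.d x < η₂ := h
    linarith [D₁.nonneg x]
  have b0 : BM y := BM.of_unit hy hy01
  have b1 : BM q₁ := BM.of_unit h1m h101
  have b2 : BM q₂ := BM.of_unit h2m h201
  have e1 := H₁ w hw s1
  have e2 := H₂ w hw s2
  have e3 := S.avg_tr hm hl hw (b1.sub b2).abs
  have bd : ∀ q : Ω → ℝ, (∀ ω, 0 ≤ q ω ∧ q ω ≤ 1) →
      Bdd (fun b => ∫ ω, S.E (tr w b) ω * |y (S.τ b ω) - q ω| ∂ν) := fun q hq =>
    S.bdd_integral hw hl (B := 1) (by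
      intro b ω
      rw [abs_abs, _root_.abs_le]
      constructor <;> linarith [(hq ω).1, (hq ω).2, (hy01 (S.τ b ω)).1, (hy01 (S.τ b ω)).2])
  have bd3 : Bdd (fun b => ∫ ω, S.E (tr w b) ω * |q₁ ω - q₂ ω| ∂ν) :=
    S.bdd_integral hw hl (B := 1) (by
      intro b ω
      rw [abs_abs, _root_.abs_le]
      constructor <;> linarith [(h101 ω).1, (h101 ω).2, (h201 ω).1, (h201 ω).2])
  rw [← e3]
  have e4 := hm.pos.mono bd3 ((bd q₁ h101).add (bd q₂ h201)) (by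
    intro b
    have i1 : BM (fun ω => S.E (tr w b) ω * |y (S.τ b ω) - q₁ ω|) :=
      (S.tr_bm hw b).mul ((b0.comp (S.mp b).measurable).sub b1).abs
    have i2 : BM (fun ω => S.E (tr w b) ω * |y (S.τ b ω) - q₂ ω|) :=
      (S.tr_bm hw b).mul ((b0.comp (S.mp b).measurable).sub b2).abs
    have i3 : BM (fun ω => S.E (tr w b) ω * |q₁ ω - q₂ ω|) :=
      (S.tr_bm hw b).mul (b1.sub b2).abs
    rw [← integral_add i1.integrable i2.integrable]
    apply integral_mono i3.integrable (i1.add i2).integrable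
    intro ω
    simp only
    rw [← mul_add]
    apply mul_le_mul_of_nonneg_left _ (S.tr_nonneg hw b ω)
    have := abs_sub_le (q₁ ω) (y (S.τ b ω)) (q₂ ω)
    rwa [abs_sub_comm (q₁ ω) (y (S.τ b ω))] at this)
  rw [map_add' m (fun b => ∫ ω, S.E (tr w b) ω * |y (S.τ b ω) - q₁ ω| ∂ν)] at e4
  linarith

lemma near_of_close (hm : IsMean m) (hl : LInv m) {y q₁ q₂ : Ω → ℝ} {ε₁ ε₂ : ℝ}
    (hy : Measurable y) (hy01 : ∀ ω, 0 ≤ y ω ∧ y ω ≤ 1)
    (h1m : Measurable q₁) (h101 : ∀ ω, 0 ≤ q₁ ω ∧ q₁ ω ≤ 1)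
    (h2m : Measurable q₂) (h201 : ∀ ω, 0 ≤ q₂ ω ∧ q₂ ω ≤ 1)
    (h1 : S.Near y q₁ ε₁) (h2 : ∫ ω, |q₁ ω - q₂ ω| ∂ν ≤ ε₂) :
    S.Near y q₂ (ε₁ + ε₂) := by
  obtain ⟨D₁, η₁, hη₁, H₁⟩ := h1
  refine ⟨D₁, η₁, hη₁, fun w hw hsupp => ?_⟩
  have b0 : BM y := BM.of_unit hy hy01
  have b1 : BM q₁ := BM.of_unit h1m h101
  have b2 : BM q₂ := BM.of_unit h2m h201
  have e1 := H₁ w hw hsupp
  have e3 := S.avg_tr hm hl hw (b1.sub b2).abs
  have bd : ∀ q : Ω → ℝ, (∀ ω, 0 ≤ q ω ∧ q ω ≤ 1) →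
      Bdd (fun b => ∫ ω, S.E (tr w b) ω * |y (S.τ b ω) - q ω| ∂ν) := fun q hq =>
    S.bdd_integral hw hl (B := 1) (by
      intro b ω
      rw [abs_abs, _root_.abs_le]
      constructor <;> linarith [(hq ω).1, (hq ω).2, (hy01 (S.τ b ω)).1, (hy01 (S.τ b ω)).2])
  have bd3 : Bdd (fun b => ∫ ω, S.E (tr w b) ω * |q₁ ω - q₂ ω| ∂ν) :=
    S.bdd_integral hw hl (B := 1) (by
      intro b ω
      rw [abs_abs, _root_.abs_le]
      constructor <;> linarith [(h101 ω).1, (h101 ω).2, (h201 ω).1, (h201 ω).2])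
  have e4 := hm.pos.mono (bd q₂ h201) ((bd q₁ h101).add bd3) (by
    intro b
    have i1 : BM (fun ω => S.E (tr w b) ω * |y (S.τ b ω) - q₁ ω|) :=
      (S.tr_bm hw b).mul ((b0.comp (S.mp b).measurable).sub b1).abs
    have i2 : BM (fun ω => S.E (tr w b) ω * |y (S.τ b ω) - q₂ ω|) :=
      (S.tr_bm hw b).mul ((b0.comp (S.mp b).measurable).sub b2).abs
    have i3 : BM (fun ω => S.E (tr w b) ω * |q₁ ω - q₂ ω|) :=
      (S.tr_bm hw b).mul (b1.sub b2).abs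
    rw [← integral_add i1.integrable i3.integrable]
    apply integral_mono i2.integrable (i1.add i3).integrable
    intro ω
    simp only
    rw [← mul_add]
    apply mul_le_mul_of_nonneg_left _ (S.tr_nonneg hw b ω)
    exact abs_sub_le (y (S.τ b ω)) (q₁ ω) (q₂ ω))
  rw [map_add' m (fun b => ∫ ω, S.E (tr w b) ω * |y (S.τ b ω) - q₁ ω| ∂ν), e3] at e4
  linarith

/-- There is a single function `q` which is near to `y` at squares with arbitrarily small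
error. -/
theorem exists_near_limit (hm : IsMean m) (hl : LInv m) (hr : RInv m) {y : Ω → ℝ}
    (hy : Measurable y) (hy01 : ∀ ω, 0 ≤ y ω ∧ y ω ≤ 1)
    (h : ∀ ε : ℝ, 0 < ε → ∃ q : Ω → ℝ, Measurable q ∧ (∀ ω, 0 ≤ q ω ∧ q ω ≤ 1) ∧
      S.Near y q ε) :
    ∃ q : Ω → ℝ, Measurable q ∧ (∀ ω, 0 ≤ q ω ∧ q ω ≤ 1) ∧
      ∀ ε : ℝ, 0 < ε → S.Near y q ε := by
  have h' : ∀ n : ℕ, ∃ q : Ω → ℝ, Measurable q ∧ (∀ ω, 0 ≤ q ω ∧ q ω ≤ 1) ∧
      S.Near y q ((1 / 2 : ℝ) ^ n) := fun n => h _ (by positivity)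
  choose q hqm hq01 hqn using h'
  have hqb : ∀ n, BM (q n) := fun n => BM.of_unit (hqm n) (hq01 n)
  set x : ℕ → Lp ℝ 1 ν := fun n => ((hqb n).memLp 1).toLp (q n) with hx
  have hdist : ∀ n k, dist (x n) (x k) = ∫ ω, |q n ω - q k ω| ∂ν := by
    intro n k
    rw [L1.dist_eq_integral_dist]
    apply integral_congr_ae
    filter_upwards [MemLp.coeFn_toLp ((hqb n).memLp (ν := ν) 1),
      MemLp.coeFn_toLp ((hqb k).memLp (ν := ν) 1)] with ω h1 h2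
    simp only [hx]
    rw [h1, h2, Real.dist_eq]
  have hgeo : ∀ n, dist (x n) (x (n + 1)) ≤ 2 * (1 / 2 : ℝ) ^ n := by
    intro n
    rw [hdist]
    have := S.near_dist hm hl hr hy hy01 (hqm n) (hq01 n) (hqm (n + 1)) (hq01 (n + 1))
      (hqn n) (hqn (n + 1))
    have h2 : (1 / 2 : ℝ) ^ (n + 1) ≤ (1 / 2 : ℝ) ^ n := by
      rw [pow_succ]
      have : (0 : ℝ) < (1 / 2 : ℝ) ^ n := by positivity
      linarith
    linarith
  have hr2 : (1 / 2 : ℝ) < 1 := by norm_num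
  have hC := cauchySeq_of_le_geometric (1 / 2 : ℝ) 2 hr2 hgeo
  obtain ⟨X, hX⟩ := cauchySeq_tendsto_of_complete hC
  have hXd := dist_le_of_le_geometric_of_tendsto (1 / 2 : ℝ) 2 hr2 hgeo hX
  have hXm : Measurable (X : Ω → ℝ) := (Lp.stronglyMeasurable X).measurable
  set Q : Ω → ℝ := fun ω => clamp (X ω) with hQ
  have hQm : Measurable Q := measurable_clamp hXm
  have hQ01 : ∀ ω, 0 ≤ Q ω ∧ Q ω ≤ 1 := fun ω => ⟨clamp_nonneg _, clamp_le_one _⟩
  have hQb : BM Q := BM.of_unit hQm hQ01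
  have hclose : ∀ n, ∫ ω, |q n ω - Q ω| ∂ν ≤ 4 * (1 / 2 : ℝ) ^ n := by
    intro n
    have e1 : ∫ ω, |q n ω - Q ω| ∂ν ≤ ∫ ω, dist (x n ω) (X ω) ∂ν := by
      apply integral_mono_ae ((hqb n).sub hQb).abs.integrable
      · have h1 : Integrable (fun ω => x n ω) ν := (Lp.memLp (x n)).integrable le_rfl
        have h2 : Integrable (fun ω => X ω) ν := (Lp.memLp X).integrable le_rfl
        have h3 := (h1.sub h2).abs
        refine h3.congr (Eventually.of_forall fun ω => ?_)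
        simp [Real.dist_eq]
      · filter_upwards [MemLp.coeFn_toLp ((hqb n).memLp (ν := ν) 1)] with ω h1
        have h2 : x n ω = q n ω := h1
        rw [h2, Real.dist_eq]
        have := clamp_lip (q n ω) (X ω)
        rw [clamp_of_unit (hq01 n ω)] at this
        exact this
    rw [← L1.dist_eq_integral_dist] at e1
    refine e1.trans ((hXd n).trans (le_of_eq ?_))
    norm_num
    ring
  refine ⟨Q, hQm, hQ01, fun ε hε => ?_⟩
  have hlim : Tendsto (fun n : ℕ => 5 * (1 / 2 : ℝ) ^ n) atTop (𝓝 (5 * 0)) :=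
    (tendsto_pow_atTop_nhds_zero_of_lt_one (by norm_num) hr2).const_mul 5
  rw [mul_zero] at hlim
  obtain ⟨n, hn⟩ := (hlim.eventually (gt_mem_nhds hε)).exists
  obtain ⟨D, η, hη, H⟩ := S.near_of_close hm hl hy hy01 (hqm n) (hq01 n) hQm hQ01 (hqn n)
    (hclose n)
  refine ⟨D, η, hη, fun w hw hsupp => (H w hw hsupp).trans ?_⟩
  linarith

/-- Main output of the left theory. -/
theorem left_main (hm : IsMean m) (hl : LInv m) (hr : RInv m) (hacs : ACS m) {F : G → ℝ}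
    (h0 : ∀ x, 0 ≤ F x) (h1 : ∀ x, F x ≤ 1) :
    ∃ q : Ω → ℝ, Measurable q ∧ (∀ ω, 0 ≤ q ω ∧ q ω ≤ 1) ∧ ∀ ε : ℝ, 0 < ε →
      ∃ (D : BohrNorm G) (η : ℝ), 0 < η ∧
      ∀ w : G → ℝ, IsKernel m w → (∀ x, w x ≠ 0 → D.d x < η) →
      ∀ u : Ω → ℝ, Measurable u → (∀ ω, 0 ≤ u ω ∧ u ω ≤ 1) →
      m (fun b => |∫ ω, (u ω * S.E (tr w b) ω) * (S.E F (S.τ b ω) - q ω) ∂ν|) ≤ ε := by
  have hFb : Bdd F := bdd_of_mem_unit h0 h1
  have hF : BM (S.E F) := S.bm hFb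
  have hFu : ∀ ω, 0 ≤ S.E F ω ∧ S.E F ω ≤ 1 := fun ω => ⟨S.nonneg F hFb h0 ω, by
    have := S.mono hFb (bdd_const 1) h1 ω
    rwa [S.const] at this⟩
  obtain ⟨y, hy, z, hz, hyz⟩ := S.rep.ap.exists_add_mem_mem_orthogonal (hF.cls : Lp ℝ 2 ν)
  have hym : Measurable (y : Ω → ℝ) := (Lp.stronglyMeasurable y).measurable
  set y' : Ω → ℝ := fun ω => clamp (y ω) with hy'
  have hy'm : Measurable y' := measurable_clamp hym
  have hy'01 : ∀ ω, 0 ≤ y' ω ∧ y' ω ≤ 1 := fun ω => ⟨clamp_nonneg _, clamp_le_one _⟩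
  have hybm : BM y' := BM.of_unit hy'm hy'01
  have hy01 := S.ap_unit hm hl hr h0 h1 hF hy hz hyz
  obtain ⟨q, hqm, hq01, hq⟩ := S.exists_near_limit hm hl hr hy'm hy'01 (fun ε hε => by
    obtain ⟨q, hqm, hq01, H⟩ := S.exists_q_eps hm hl hr hacs h0 h1 hF hy hz hyz hε
    exact ⟨q, hqm, hq01, H⟩)
  have hqb : BM q := BM.of_unit hqm hq01
  refine ⟨q, hqm, hq01, fun ε hε => ?_⟩
  obtain ⟨D, η, hη, H⟩ := hq ε hε
  refine ⟨D, η, hη, fun w hw hsupp u hum hu01 => ?_⟩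
  have hub : BM u := BM.of_unit hum hu01
  have e1 := S.wm_zero hm hl hw hz hub
  have e2 := H w hw hsupp
  -- pointwise comparison
  have e3 : ∀ b, |∫ ω, (u ω * S.E (tr w b) ω) * (S.E F (S.τ b ω) - q ω) ∂ν|
      ≤ |∫ ω, (u ω * S.E (tr w b) ω) * z (S.τ b ω) ∂ν|
        + ∫ ω, S.E (tr w b) ω * |y' (S.τ b ω) - q ω| ∂ν := by
    intro b
    have hubm : BM (fun ω => u ω * S.E (tr w b) ω) := hub.mul (S.tr_bm hw b)
    have hsplit : ∀ᵐ ω ∂ν, S.E F (S.τ b ω) = y' (S.τ b ω) + z (S.τ b ω) := by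
      have h2 : ∀ᵐ ω ∂ν, S.E F ω = y' ω + z ω := by
        filter_upwards [hF.coe_cls (ν := ν), Lp.coeFn_add y z, hy01] with ω a1 a2 a3
        rw [hyz] at a1
        rw [← a1, a2, Pi.add_apply]
        simp only [hy']
        rw [clamp_of_unit a3]
      exact (S.mp b).quasiMeasurePreserving.ae h2
    have hzint : Integrable (fun ω => (u ω * S.E (tr w b) ω) * z (S.τ b ω)) ν := by
      have hz1 : Integrable (fun ω => z (S.τ b ω)) ν :=
        (S.mp b).integrable_comp_of_integrable (lp_integrable z)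
      obtain ⟨B, hB⟩ := hubm.bdd
      exact hz1.bdd_mul hubm.meas.aestronglyMeasurable (Eventually.of_forall hB)
    have i2 : BM (fun ω => (u ω * S.E (tr w b) ω) * (y' (S.τ b ω) - q ω)) :=
      hubm.mul ((hybm.comp (S.mp b).measurable).sub hqb)
    have i3 : BM (fun ω => S.E (tr w b) ω * |y' (S.τ b ω) - q ω|) :=
      (S.tr_bm hw b).mul ((hybm.comp (S.mp b).measurable).sub hqb).abs
    have e4 : ∫ ω, (u ω * S.E (tr w b) ω) * (S.E F (S.τ b ω) - q ω) ∂ν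
        = ∫ ω, (u ω * S.E (tr w b) ω) * z (S.τ b ω) ∂ν
          + ∫ ω, (u ω * S.E (tr w b) ω) * (y' (S.τ b ω) - q ω) ∂ν := by
      rw [← integral_add hzint i2.integrable]
      apply integral_congr_ae
      filter_upwards [hsplit] with ω h
      rw [h]; ring
    rw [e4]
    refine (abs_add_le _ _).trans ?_
    apply add_le_add le_rfl
    refine abs_integral_le_integral_abs.trans ?_
    apply integral_mono i2.abs.integrable i3.integrable
    intro ω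
    simp only
    rw [abs_mul, abs_mul, abs_of_nonneg (hu01 ω).1, abs_of_nonneg (S.tr_nonneg hw b ω)]
    apply mul_le_mul_of_nonneg_right _ (abs_nonneg _)
    exact mul_le_of_le_one_left (S.tr_nonneg hw b ω) (hu01 ω).2
  have bd1 : Bdd (fun b => |∫ ω, (u ω * S.E (tr w b) ω) * z (S.τ b ω) ∂ν|) := by
    obtain ⟨W, hW0, hW⟩ := hw.bdd.exists_nonneg
    refine ⟨W * ∫ ω, |z ω| ∂ν, fun b => ?_⟩
    rw [abs_abs]
    have hubm : BM (fun ω => u ω * S.E (tr w b) ω) := hub.mul (S.tr_bm hw b)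
    have hz1 : Integrable (fun ω => z (S.τ b ω)) ν :=
      (S.mp b).integrable_comp_of_integrable (lp_integrable z)
    have hzint : Integrable (fun ω => (u ω * S.E (tr w b) ω) * z (S.τ b ω)) ν := by
      obtain ⟨B, hB⟩ := hubm.bdd
      exact hz1.bdd_mul hubm.meas.aestronglyMeasurable (Eventually.of_forall hB)
    calc |∫ ω, (u ω * S.E (tr w b) ω) * z (S.τ b ω) ∂ν|
        ≤ ∫ ω, |(u ω * S.E (tr w b) ω) * z (S.τ b ω)| ∂ν := abs_integral_le_integral_abs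
      _ ≤ ∫ ω, W * |z (S.τ b ω)| ∂ν := by
          apply integral_mono hzint.abs (hz1.abs.const_mul W)
          intro ω
          simp only
          rw [abs_mul, abs_mul, abs_of_nonneg (hu01 ω).1]
          apply mul_le_mul_of_nonneg_right _ (abs_nonneg _)
          calc u ω * |S.E (tr w b) ω| ≤ 1 * |S.E (tr w b) ω| :=
                mul_le_mul_of_nonneg_right (hu01 ω).2 (abs_nonneg _)
            _ = |S.E (tr w b) ω| := one_mul _
            _ ≤ W := S.abs_le (fun c => hW _) ω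
      _ = W * ∫ ω, |z ω| ∂ν := by
          rw [integral_const_mul]
          congr 1
          exact S.integral_τ b (f := fun ω => |z ω|) (lp_integrable z).abs.aestronglyMeasurable
  have bd2 : Bdd (fun b => ∫ ω, S.E (tr w b) ω * |y' (S.τ b ω) - q ω| ∂ν) :=
    S.bdd_integral hw hl (B := 1) (by
      intro b ω
      rw [abs_abs, _root_.abs_le]
      constructor <;> linarith [(hq01 ω).1, (hq01 ω).2, (hy'01 (S.τ b ω)).1,
        (hy'01 (S.τ b ω)).2])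
  have bd3 : Bdd (fun b => |∫ ω, (u ω * S.E (tr w b) ω) * (S.E F (S.τ b ω) - q ω) ∂ν|) := by
    obtain ⟨B, hB⟩ := bd1.add bd2
    refine ⟨B, fun b => ?_⟩
    rw [abs_abs]
    exact (e3 b).trans ((le_abs_self _).trans (hB b))
  have e5 := hm.pos.mono bd3 (bd1.add bd2) e3
  rw [map_add' m (fun b => |∫ ω, (u ω * S.E (tr w b) ω) * z (S.τ b ω) ∂ν|), e1] at e5
  linarith

end Sys

end Pool.Agent.Lib.MP_cacba2_co
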