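import Pool.Agent.Lib.MP_cacba2_co.Op

namespace Pool.Agent.Lib.MP_cacba2_co

open Filter Topology MeasureTheory

set_option linter.unusedSectionVars false
set_option linter.unusedVariables false

variable {G : Type*} [Group G]

/-- In an infinite group, singletons are null for invariant means. -/
lemma mean_singleton [Infinite G] {m : (G → ℝ) →ₗ[ℝ] ℝ} (hm : IsMean m) (hl : LInv m) (b : G) :
    m (ind {b}) = 0 := by
  classical
  apply le_antisymm _ (hm.pos _ ind_bdd ind_nonneg)
  apply le_of_forall_pos_le_add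
  intro ε hε
  obtain ⟨n, hn⟩ := exists_nat_gt (1 / ε)
  have hnpos : (0 : ℝ) < n := lt_trans (by positivity) hn
  obtain ⟨T, hT⟩ := Infinite.exists_subset_card_eq G n
  have h1 : m (fun x => ∑ g ∈ T, ind {b} (g⁻¹ * x)) ≤ 1 := by
    apply hm.le (Bdd.sum T fun g _ => (ind_bdd (A := ({b} : Set G))).comp (fun x => g⁻¹ * x))
    intro x
    have h2 : ∀ g ∈ T, ind ({b} : Set G) (g⁻¹ * x) = if g = x * b⁻¹ then 1 else 0 := by
      intro g _
      by_cases h : g = x * b⁻¹
      · rw [if_pos h]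
        apply ind_of_mem
        subst h
        simp
      · rw [if_neg h]
        apply ind_of_notMem
        intro h3
        apply h
        have h4 : g⁻¹ * x = b := h3
        rw [← h4]; simp
    rw [Finset.sum_congr rfl h2, Finset.sum_ite_eq']
    split_ifs <;> norm_num
  rw [map_sum' m T (fun g x => ind {b} (g⁻¹ * x))] at h1
  have h2 : ∀ g ∈ T, m (fun x => ind {b} (g⁻¹ * x)) = m (ind {b}) := fun g _ =>
    hl g⁻¹ (ind {b}) ind_bdd
  rw [Finset.sum_congr rfl h2, Finset.sum_const, hT, nsmul_eq_mul] at h1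
  rw [zero_add]
  have h3 : 1 < (n : ℝ) * ε := by
    rw [div_lt_iff₀ hε] at hn; linarith
  by_contra hcon
  push Not at hcon
  have h4 : (n : ℝ) * ε < n * m (ind {b}) := mul_lt_mul_of_pos_left hcon hnpos
  linarith

/-- The hereditary functional. -/
theorem exists_hereditary [Infinite G] {m : (G → ℝ) →ₗ[ℝ] ℝ} (hm : IsMean m) (hl : LInv m)
    (hr : RInv m) (hacs : ACS m) {A : Set G} (hA : 0 < m (ind A)) :
    ∃ (M : Finset G) (m₀ : (G → ℝ) →ₗ[ℝ] ℝ), PosF m₀ ∧ 0 < m₀ (ind A) ∧
      (∀ b, m₀ (ind {b}) = 0) ∧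
      ∀ C : Set G, 0 < m₀ (ind C) → ∃ b ∈ C, ∃ t ∈ M, ∃ r ∈ M,
        0 < m₀ (ind {c | c ∈ C ∧ t * b * c ∈ A ∧ c * b * r ∈ A}) := by
  classical
  set a : ℝ := m (ind A) with ha
  set S := leftSys hm hl with hS
  set S' := rightSys hm hr with hS'
  have hm' := opMean_isMean hm
  have hl' : LInv (opMean m) := opMean_linv hr
  have hr' : RInv (opMean m) := opMean_rinv hl
  have hacs' := opMean_acs hacs
  set A' : Set Gᵐᵒᵖ := {x | MulOpposite.unop x ∈ A} with hA'
  have ha100 : 0 < a / 100 := by positivity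
  obtain ⟨M₀, hM₀⟩ := S.star hm hl hacs A ha100
  obtain ⟨N₀, hN₀⟩ := S'.star hm' hl' hacs' A' ha100
  set M : Finset G := M₀ ∪ N₀.image MulOpposite.unop with hM
  set N : Finset Gᵐᵒᵖ := M.image MulOpposite.op with hN
  have hMM : M₀ ⊆ M := Finset.subset_union_left
  have hNN : N₀ ⊆ N := by
    intro x hx
    rw [hN, Finset.mem_image]
    exact ⟨MulOpposite.unop x, Finset.mem_union_right _ (Finset.mem_image_of_mem _ hx), by simp⟩
  obtain ⟨q, hqm, hq01, hq⟩ := S.left_main hm hl hr hacs (F := miss A M) miss_nonneg miss_le_one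
  obtain ⟨q', hq'm, hq'01, hq'⟩ :=
    S'.left_main hm' hl' hr' hacs' (F := miss A' N) miss_nonneg miss_le_one
  have hsq := S.star_q hm hl hr (hM₀ M hMM) hqm hq01 hq
  have hsq' := S'.star_q hm' hl' hr' (hN₀ N hNN) hq'm hq'01 hq'
  have hEA' : S'.E (ind A') = S.E (ind A) := by
    show Om.ext (fun g => ind A' (MulOpposite.op g)) = Om.ext (ind A)
    have h0 : (fun g => ind A' (MulOpposite.op g)) = ind A := by
      ext g
      by_cases h : g ∈ A
      · rw [ind_of_mem h, ind_of_mem]; exact h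
      · rw [ind_of_notMem h, ind_of_notMem]; exact h
    rw [h0]
  rw [hEA'] at hsq'
  have hEA : ∀ ω, 0 ≤ S.E (ind A) ω ∧ S.E (ind A) ω ≤ 1 := fun ω =>
    ⟨S.nonneg _ ind_bdd ind_nonneg ω, by
      have := S.mono ind_bdd (bdd_const 1) (ind_le_one (A := A)) ω
      rwa [S.const] at this⟩
  have hEAb : BM (S.E (ind A)) := S.bm ind_bdd
  have hqb : BM q := BM.of_unit hqm hq01
  have hq'b : BM q' := BM.of_unit hq'm hq'01
  -- the good set
  set Θ : Set (Om G) := {ω | q ω < 1 / 4} ∩ {ω | q' ω < 1 / 4} with hΘ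
  have hΘm : MeasurableSet Θ :=
    (measurableSet_lt hqm measurable_const).inter (measurableSet_lt hq'm measurable_const)
  set θ : Om G → ℝ := fun ω => S.E (ind A) ω * Θ.indicator (fun _ => (1 : ℝ)) ω with hθ
  have hθb : BM θ := hEAb.mul (BM.indicator hΘm)
  have hind01 : ∀ ω, 0 ≤ Θ.indicator (fun _ => (1 : ℝ)) ω ∧
      Θ.indicator (fun _ => (1 : ℝ)) ω ≤ 1 := fun ω => by
    by_cases h : ω ∈ Θ <;> simp [h]
  have hθ01 : ∀ ω, 0 ≤ θ ω ∧ θ ω ≤ 1 := fun ω =>
    ⟨mul_nonneg (hEA ω).1 (hind01 ω).1, mul_le_one₀ (hEA ω).2 (hind01 ω).1 (hind01 ω).2⟩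
  have hθq : ∀ ω, θ ω * q ω ≤ θ ω * (1 / 4) ∧ θ ω * q' ω ≤ θ ω * (1 / 4) := by
    intro ω
    by_cases h : ω ∈ Θ
    · exact ⟨mul_le_mul_of_nonneg_left (le_of_lt h.1) (hθ01 ω).1,
        mul_le_mul_of_nonneg_left (le_of_lt h.2) (hθ01 ω).1⟩
    · have : θ ω = 0 := by simp [hθ, h]
      rw [this]; simp
  have hθint : 0 < ∫ ω, θ ω ∂(Om.meas hm) := by
    have e1 : ∀ ω, S.E (ind A) ω - 4 * (S.E (ind A) ω * q ω) - 4 * (S.E (ind A) ω * q' ω)
        ≤ θ ω := by
      intro ω
      by_cases h : ω ∈ Θ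
      · have : θ ω = S.E (ind A) ω := by simp [hθ, h]
        rw [this]
        have h1 := mul_nonneg (hEA ω).1 (hq01 ω).1
        have h2 := mul_nonneg (hEA ω).1 (hq'01 ω).1
        linarith
      · have : θ ω = 0 := by simp [hθ, h]
        rw [this]
        have h3 : 1 / 4 ≤ q ω ∨ 1 / 4 ≤ q' ω := by
          by_contra hcon
          push Not at hcon
          exact h ⟨hcon.1, hcon.2⟩
        have h1 := mul_nonneg (hEA ω).1 (hq01 ω).1
        have h2 := mul_nonneg (hEA ω).1 (hq'01 ω).1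
        rcases h3 with h3 | h3
        · have := mul_le_mul_of_nonneg_left h3 (hEA ω).1
          linarith
        · have := mul_le_mul_of_nonneg_left h3 (hEA ω).1
          linarith
    have i1 : BM (fun ω => S.E (ind A) ω - 4 * (S.E (ind A) ω * q ω)) :=
      hEAb.sub ((BM.const 4).mul (hEAb.mul hqb))
    have i2 : BM (fun ω => 4 * (S.E (ind A) ω * q' ω)) := (BM.const 4).mul (hEAb.mul hq'b)
    have i3 : BM (fun ω => 4 * (S.E (ind A) ω * q ω)) := (BM.const 4).mul (hEAb.mul hqb)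
    have e2 := integral_mono (μ := Om.meas hm) (i1.sub i2).integrable hθb.integrable e1
    rw [integral_sub i1.integrable i2.integrable, integral_sub hEAb.integrable i3.integrable,
      integral_const_mul, integral_const_mul, S.integral _ ind_bdd] at e2
    have e3 : m (ind A) = a := rfl
    rw [e3] at e2
    linarith
  obtain ⟨m₀, ⟨C₀, hC₀⟩, hm₀⟩ := S.exists_lint hθb
  have hm₀pos : PosF m₀ := by
    intro f hf h0
    rw [hm₀ f hf]
    exact integral_nonneg fun ω => mul_nonneg (S.nonneg f hf h0 ω) (hθ01 ω).1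
  have hm₀le : ∀ f, Bdd f → (∀ x, 0 ≤ f x) → m₀ f ≤ m f := by
    intro f hf h0
    rw [hm₀ f hf, ← S.integral f hf]
    apply integral_mono ((S.bm hf).mul hθb).integrable (S.bm hf).integrable
    intro ω
    exact mul_le_of_le_one_right (S.nonneg f hf h0 ω) (hθ01 ω).2
  refine ⟨M, m₀, hm₀pos, ?_, ?_, ?_⟩
  · rw [hm₀ _ ind_bdd]
    refine hθint.trans_le (le_of_eq ?_)
    congr 1
    ext ω
    have e1 : S.E (ind A) ω * S.E (ind A) ω = S.E (ind A) ω := by
      rw [← S.mul _ _ ind_bdd ind_bdd]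
      congr 1
      ext x
      by_cases h : x ∈ A
      · rw [ind_of_mem h]; norm_num
      · rw [ind_of_notMem h]; norm_num
    simp only [hθ]
    rw [← mul_assoc, e1]
  · intro b
    apply le_antisymm _ (hm₀pos _ ind_bdd ind_nonneg)
    exact (hm₀le _ ind_bdd ind_nonneg).trans (mean_singleton hm hl b).le
  · intro C hC
    set κ : ℝ := m₀ (ind C) with hκ
    have hκ8 : 0 < κ ^ 2 / 8 := by positivity
    obtain ⟨D₁, η₁, hη₁, H₁⟩ := hq (κ ^ 2 / 8) hκ8
    obtain ⟨D₂, η₂, hη₂, H₂⟩ := hq' (κ ^ 2 / 8) hκ8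
    obtain ⟨w, hw, hsupp, hpd⟩ := exists_kernel hm hl hr (D₁.add D₂.unop) (lt_min hη₁ hη₂)
    have s1 : ∀ x, w x ≠ 0 → D₁.d x < η₁ := fun x hx => by
      have h := (hsupp x hx).trans_le (min_le_left _ _)
      have h' : D₁.d x + D₂.unop.d x < η₁ := h
      linarith [D₂.unop.nonneg x]
    have s2 : ∀ x : Gᵐᵒᵖ, w (MulOpposite.unop x) ≠ 0 → D₂.d x < η₂ := fun x hx => by
      have h := (hsupp _ hx).trans_le (min_le_right _ _)
      have h' : D₁.d (MulOpposite.unop x) + D₂.d (MulOpposite.op (MulOpposite.unop x)) < η₂ := h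
      rw [MulOpposite.op_unop] at h'
      linarith [D₁.nonneg (MulOpposite.unop x)]
    have hw' := opKernel hw
    have hEC : ∀ ω, 0 ≤ S.E (ind C) ω ∧ S.E (ind C) ω ≤ 1 := fun ω =>
      ⟨S.nonneg _ ind_bdd ind_nonneg ω, by
        have := S.mono ind_bdd (bdd_const 1) (ind_le_one (A := C)) ω
        rwa [S.const] at this⟩
    set u : Om G → ℝ := fun ω => S.E (ind C) ω * θ ω with hu
    have hub : BM u := (S.bm ind_bdd).mul hθb
    have hu01 : ∀ ω, 0 ≤ u ω ∧ u ω ≤ 1 := fun ω =>
      ⟨mul_nonneg (hEC ω).1 (hθ01 ω).1, mul_le_one₀ (hEC ω).2 (hθ01 ω).1 (hθ01 ω).2⟩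
    have K₁ := H₁ w hw s1 u hub.meas hu01
    have K₂ := H₂ (fun x => w (MulOpposite.unop x)) hw' s2 u hub.meas hu01
    rw [opMean_apply] at K₂
    -- notation
    set T : G → Om G → ℝ := fun b => S.E (tr w b) with hT
    have hT' : ∀ b, S'.E (tr (fun x : Gᵐᵒᵖ => w (MulOpposite.unop x)) (MulOpposite.op b)) = T b := by
      intro b
      show Om.ext _ = Om.ext _
      rw [op_tr hw b]
    set P : G → Om G → ℝ := fun b ω => S.E (miss A M) (S.τ b ω) with hP
    set P' : G → Om G → ℝ := fun b ω => S'.E (miss A' N) (S'.τ (MulOpposite.op b) ω) with hP'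
    set eL : G → ℝ := fun b => |∫ ω, (u ω * T b ω) * (P b ω - q ω) ∂(Om.meas hm)| with heL
    set eR : G → ℝ := fun b => |∫ ω, (u ω * T b ω) * (P' b ω - q' ω) ∂(Om.meas hm)| with heR
    have K₁' : m eL ≤ κ ^ 2 / 8 := K₁
    have K₂' : m eR ≤ κ ^ 2 / 8 := by
      refine le_trans (le_of_eq ?_) K₂
      congr 1
      ext b
      simp only [heR]
      rw [hT' b]
    have hTb : ∀ b, BM (T b) := fun b => S.tr_bm hw b
    have hT0 : ∀ b ω, 0 ≤ T b ω := fun b ω => S.tr_nonneg hw b ω
    have hPb : ∀ b, BM (P b) := fun b => (S.bm miss_bdd).comp (S.mp b).measurable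
    have hP'b : ∀ b, BM (P' b) := fun b =>
      (S'.bm miss_bdd).comp (S'.mp (MulOpposite.op b)).measurable
    have hP01 : ∀ b ω, 0 ≤ P b ω ∧ P b ω ≤ 1 := fun b ω =>
      ⟨S.nonneg _ miss_bdd miss_nonneg _, by
        have := S.mono miss_bdd (bdd_const 1) (miss_le_one (A := A) (M := M)) (S.τ b ω)
        rwa [S.const] at this⟩
    have hP'01 : ∀ b ω, 0 ≤ P' b ω ∧ P' b ω ≤ 1 := fun b ω =>
      ⟨S'.nonneg _ miss_bdd miss_nonneg _, by
        have := S'.mono miss_bdd (bdd_const 1) (miss_le_one (A := A') (M := N))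
          (S'.τ (MulOpposite.op b) ω)
        rwa [S'.const] at this⟩
    set Nn : G → ℝ := fun b => ∫ ω, u ω * T b ω ∂(Om.meas hm) with hNn
    set QL : G → ℝ := fun b => ∫ ω, (u ω * T b ω) * P b ω ∂(Om.meas hm) with hQL
    set QR : G → ℝ := fun b => ∫ ω, (u ω * T b ω) * P' b ω ∂(Om.meas hm) with hQR
    -- comparison of QL and Nn
    have gen : ∀ (b : G) (p r : Om G → ℝ), BM p → BM r →
        (∀ ω, θ ω * r ω ≤ θ ω * (1 / 4)) →
        ∫ ω, (u ω * T b ω) * p ω ∂(Om.meas hm)
          ≤ Nn b / 4 + |∫ ω, (u ω * T b ω) * (p ω - r ω) ∂(Om.meas hm)| := by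
      intro b p r hp hr4 hr5
      have i0 : BM (fun ω => u ω * T b ω) := hub.mul (hTb b)
      have e1 : ∫ ω, (u ω * T b ω) * (p ω - r ω) ∂(Om.meas hm)
          = ∫ ω, (u ω * T b ω) * p ω ∂(Om.meas hm) - ∫ ω, (u ω * T b ω) * r ω ∂(Om.meas hm) := by
        rw [← integral_sub (i0.mul hp).integrable (i0.mul hr4).integrable]
        congr 1
        ext ω; ring
      have e2 : ∫ ω, (u ω * T b ω) * r ω ∂(Om.meas hm) ≤ Nn b / 4 := by
        have e3 : Nn b / 4 = ∫ ω, (u ω * T b ω) * (1 / 4) ∂(Om.meas hm) := by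
          rw [integral_mul_const]; simp only [hNn]; ring
        rw [e3]
        apply integral_mono (i0.mul hr4).integrable (i0.mul (BM.const (1 / 4))).integrable
        intro ω
        simp only [hu]
        have h1 := mul_le_mul_of_nonneg_left (hr5 ω) (mul_nonneg (hEC ω).1 (hT0 b ω))
        calc S.E (ind C) ω * θ ω * T b ω * r ω = S.E (ind C) ω * T b ω * (θ ω * r ω) := by ring
          _ ≤ S.E (ind C) ω * T b ω * (θ ω * (1 / 4)) := h1
          _ = _ := by ring
      have e4 := le_abs_self (∫ ω, (u ω * T b ω) * (p ω - r ω) ∂(Om.meas hm))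
      linarith
    have cL : ∀ b, QL b ≤ Nn b / 4 + eL b := fun b => gen b (P b) q (hPb b) hqb fun ω => (hθq ω).1
    have cR : ∀ b, QR b ≤ Nn b / 4 + eR b := fun b =>
      gen b (P' b) q' (hP'b b) hq'b fun ω => (hθq ω).2
    -- boundedness
    have bdgen : ∀ p : G → Om G → ℝ, (∀ b ω, |p b ω| ≤ 1) →
        Bdd (fun b => ∫ ω, (u ω * T b ω) * p b ω ∂(Om.meas hm)) := by
      intro p hp
      have h1 := S.bdd_integral hw hl (F := fun b ω => u ω * p b ω) (B := 1) (by
        intro b ω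
        rw [abs_mul, abs_of_nonneg (hu01 ω).1]
        exact mul_le_one₀ (hu01 ω).2 (abs_nonneg _) (hp b ω))
      have h2 : (fun b => ∫ ω, (u ω * T b ω) * p b ω ∂(Om.meas hm))
          = fun b => ∫ ω, S.E (tr w b) ω * (u ω * p b ω) ∂(Om.meas hm) := by
        ext b
        congr 1
        ext ω
        simp only [hT]; ring
      rw [h2]
      exact h1
    have bNn : Bdd Nn := by
      have := bdgen (fun _ _ => 1) (fun _ _ => by simp)
      simpa [hNn] using this
    have bQL : Bdd QL := bdgen P fun b ω => by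
      rw [abs_of_nonneg (hP01 b ω).1]; exact (hP01 b ω).2
    have bQR : Bdd QR := bdgen P' fun b ω => by
      rw [abs_of_nonneg (hP'01 b ω).1]; exact (hP'01 b ω).2
    have beL : Bdd eL := (bdgen (fun b ω => P b ω - q ω) fun b ω => by
      rw [_root_.abs_le]
      constructor <;> linarith [(hP01 b ω).1, (hP01 b ω).2, (hq01 ω).1, (hq01 ω).2]).abs
    have beR : Bdd eR := (bdgen (fun b ω => P' b ω - q' ω) fun b ω => by
      rw [_root_.abs_le]
      constructor <;> linarith [(hP'01 b ω).1, (hP'01 b ω).2, (hq'01 ω).1, (hq'01 ω).2]).abs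
    -- the lower bound from positive definiteness
    have pd1 : κ ^ 2 ≤ m₀ (fun b => ind C b * Nn b) := by
      have h1 := hpd m₀ hm₀pos (ind C) ind_bdd
      refine h1.trans (le_of_eq ?_)
      congr 1
      ext b
      congr 1
      have h2 : (fun c => ind C c * w (b⁻¹ * c)) = fun c => ind C c * tr w b c := rfl
      rw [h2, hm₀ _ (ind_bdd.mul (tr_bdd hw.bdd b))]
      simp only [hNn, hu, hT]
      congr 1
      ext ω
      rw [S.mul _ _ ind_bdd (tr_bdd hw.bdd b)]; ring
    have low : 0 < m₀ (fun b => ind C b * (Nn b - QL b - QR b)) := by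
      have e1 : m₀ (fun b => (1 / 2) * (ind C b * Nn b) - (eL b + eR b))
          ≤ m₀ (fun b => ind C b * (Nn b - QL b - QR b)) := by
        apply hm₀pos.mono
          (((bdd_const (1 / 2)).mul (ind_bdd.mul bNn)).sub (beL.add beR))
          (ind_bdd.mul ((bNn.sub bQL).sub bQR))
        intro b
        have i0 := ind_nonneg (A := C) b
        have i1 := ind_le_one (A := C) b
        have n1 : 0 ≤ eL b := abs_nonneg _
        have n2 : 0 ≤ eR b := abs_nonneg _
        have h1 : Nn b / 2 - (eL b + eR b) ≤ Nn b - QL b - QR b := by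
          linarith [cL b, cR b]
        have h2 := mul_le_mul_of_nonneg_left h1 i0
        have h3 : ind C b * (eL b + eR b) ≤ eL b + eR b :=
          mul_le_of_le_one_left (by linarith) i1
        calc (1 / 2) * (ind C b * Nn b) - (eL b + eR b)
            ≤ ind C b * (Nn b / 2 - (eL b + eR b)) := by
              rw [mul_sub]; linarith
          _ ≤ _ := h2
      rw [map_sub', map_const_mul, map_add'] at e1
      have e2 := (hm₀le eL beL (fun b => abs_nonneg _)).trans K₁'
      have e3 := (hm₀le eR beR (fun b => abs_nonneg _)).trans K₂'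
      have e4 : m₀ (fun x => eL x) = m₀ eL := rfl
      have e5 : m₀ (fun x => eR x) = m₀ eR := rfl
      rw [e4, e5] at e1
      have hκ2 : 0 < κ ^ 2 := by positivity
      linarith
    -- pick b
    have hex : ∃ b, 0 < ind C b * (Nn b - QL b - QR b) := by
      by_contra hcon
      push Not at hcon
      have : m₀ (fun b => ind C b * (Nn b - QL b - QR b)) ≤ m₀ (fun _ => 0) :=
        hm₀pos.mono (ind_bdd.mul ((bNn.sub bQL).sub bQR)) (bdd_const 0) hcon
      have h0 : m₀ (fun _ => (0 : ℝ)) = 0 := map_zero m₀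
      linarith
    obtain ⟨b, hb⟩ := hex
    have hbC : b ∈ C := by
      by_contra h
      rw [ind_of_notMem h, zero_mul] at hb
      exact lt_irrefl _ hb
    rw [ind_of_mem hbC, one_mul] at hb
    refine ⟨b, hbC, ?_⟩
    -- rewrite as a mean over c
    have hmb : Bdd (fun c => miss A M (b * c)) := miss_bdd.comp _
    have hmb' : Bdd (fun c => miss A' N (MulOpposite.op (c * b))) := miss_bdd.comp _
    have e1 : Nn b - QL b - QR b = m₀ (fun c => (ind C c * tr w b c)
        * (1 - miss A M (b * c) - miss A' N (MulOpposite.op (c * b)))) := by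
      have hb3 : Bdd (fun c => 1 - miss A M (b * c) - miss A' N (MulOpposite.op (c * b))) :=
        ((bdd_const 1).sub hmb).sub hmb'
      have hb2 : Bdd (fun c => ind C c * tr w b c) := ind_bdd.mul (tr_bdd hw.bdd b)
      rw [hm₀ _ (hb2.mul hb3)]
      simp only [hNn, hQL, hQR]
      have i0 : BM (fun ω => u ω * T b ω) := hub.mul (hTb b)
      rw [← integral_sub i0.integrable (i0.mul (hPb b)).integrable,
        ← integral_sub (i0.sub (i0.mul (hPb b))).integrable (i0.mul (hP'b b)).integrable]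
      congr 1
      ext ω
      rw [S.mul _ _ hb2 hb3, S.mul _ _ ind_bdd (tr_bdd hw.bdd b),
        S.sub ((bdd_const 1).sub hmb) hmb', S.sub (bdd_const 1) hmb, S.const]
      have f1 : S.E (fun c => miss A M (b * c)) ω = P b ω := S.E_τ b _ miss_bdd ω
      have f2 : S.E (fun c => miss A' N (MulOpposite.op (c * b))) ω = P' b ω :=
        S'.E_τ (MulOpposite.op b) _ miss_bdd ω
      rw [f1, f2]
      simp only [hu, hT]
      ring
    rw [e1] at hb
    obtain ⟨W, hW0, hW⟩ := hw.bdd.exists_nonneg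
    -- bound by a finite sum of indicators
    set R : G → G → Set G := fun t r => {c | c ∈ C ∧ t * b * c ∈ A ∧ c * b * r ∈ A} with hR
    have e2 : m₀ (fun c => (ind C c * tr w b c)
        * (1 - miss A M (b * c) - miss A' N (MulOpposite.op (c * b))))
        ≤ m₀ (fun c => W * ∑ t ∈ M, ∑ r ∈ M, ind (R t r) c) := by
      apply hm₀pos.mono
      · exact (ind_bdd.mul (tr_bdd hw.bdd b)).mul (((bdd_const 1).sub hmb).sub hmb')
      · exact (bdd_const W).mul (Bdd.sum M fun t _ => Bdd.sum M fun r _ => ind_bdd)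
      · intro c
        have w0 : 0 ≤ tr w b c := hw.nonneg _
        have w1 : tr w b c ≤ W := (le_abs_self _).trans (hW _)
        have hsum0 : 0 ≤ ∑ t ∈ M, ∑ r ∈ M, ind (R t r) c :=
          Finset.sum_nonneg fun t _ => Finset.sum_nonneg fun r _ => ind_nonneg c
        by_cases hc : c ∈ C
        · rw [ind_of_mem hc, one_mul]
          by_cases h1 : ∃ t ∈ M, t * (b * c) ∈ A
          · by_cases h2 : ∃ r ∈ N, r * MulOpposite.op (c * b) ∈ A'
            · obtain ⟨t, ht, htA⟩ := h1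
              obtain ⟨r', hr', hrA⟩ := h2
              obtain ⟨r, hrM, rfl⟩ := Finset.mem_image.1 hr'
              have hrA' : c * b * r ∈ A := hrA
              have hmem : c ∈ R t r := ⟨hc, by rwa [mul_assoc], hrA'⟩
              have h3 : (1 : ℝ) ≤ ∑ t ∈ M, ∑ r ∈ M, ind (R t r) c := by
                have h4 : ind (R t r) c ≤ ∑ r ∈ M, ind (R t r) c :=
                  Finset.single_le_sum (f := fun r => ind (R t r) c)
                    (fun _ _ => ind_nonneg c) hrM
                have h5 : ∑ r ∈ M, ind (R t r) c ≤ ∑ t ∈ M, ∑ r ∈ M, ind (R t r) c :=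
                  Finset.single_le_sum (f := fun t => ∑ r ∈ M, ind (R t r) c)
                    (fun _ _ => Finset.sum_nonneg fun _ _ => ind_nonneg c) ht
                rw [ind_of_mem hmem] at h4
                linarith
              have h6 : 1 - miss A M (b * c) - miss A' N (MulOpposite.op (c * b)) ≤ 1 := by
                have := miss_nonneg (A := A) (M := M) (b * c)
                have := miss_nonneg (A := A') (M := N) (MulOpposite.op (c * b))
                linarith
              calc tr w b c * (1 - miss A M (b * c) - miss A' N (MulOpposite.op (c * b)))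
                  ≤ tr w b c * 1 := mul_le_mul_of_nonneg_left h6 w0
                _ ≤ W * 1 := mul_le_mul_of_nonneg_right w1 zero_le_one
                _ ≤ _ := mul_le_mul_of_nonneg_left h3 hW0
            · have h3 : miss A' N (MulOpposite.op (c * b)) = 1 := by
                unfold miss; rw [if_neg h2]
              rw [h3]
              have h4 := miss_nonneg (A := A) (M := M) (b * c)
              have h5 : tr w b c * (1 - miss A M (b * c) - 1) ≤ 0 :=
                mul_nonpos_of_nonneg_of_nonpos w0 (by linarith)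
              exact h5.trans (mul_nonneg hW0 hsum0)
          · have h3 : miss A M (b * c) = 1 := by
              unfold miss; rw [if_neg h1]
            rw [h3]
            have h4 := miss_nonneg (A := A') (M := N) (MulOpposite.op (c * b))
            have h5 : tr w b c * (1 - 1 - miss A' N (MulOpposite.op (c * b))) ≤ 0 :=
              mul_nonpos_of_nonneg_of_nonpos w0 (by linarith)
            exact h5.trans (mul_nonneg hW0 hsum0)
        · rw [ind_of_notMem hc, zero_mul, zero_mul]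
          exact mul_nonneg hW0 hsum0
    rw [map_const_mul, map_sum' m₀ M (fun t c => ∑ r ∈ M, ind (R t r) c)] at e2
    by_contra hcon
    push Not at hcon
    have e3 : ∑ t ∈ M, m₀ (fun c => ∑ r ∈ M, ind (R t r) c) ≤ 0 := by
      apply Finset.sum_nonpos
      intro t ht
      rw [map_sum' m₀ M (fun r c => ind (R t r) c)]
      apply Finset.sum_nonpos
      intro r hr
      exact hcon t ht r hr
    have e4 : W * ∑ t ∈ M, m₀ (fun c => ∑ r ∈ M, ind (R t r) c) ≤ 0 :=
      mul_nonpos_of_nonneg_of_nonpos hW0 e3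
    linarith

/-- Building the sequence. -/
theorem exists_sequence {A : Set G} {M : Finset G} {m₀ : (G → ℝ) →ₗ[ℝ] ℝ} (hpos : PosF m₀)
    (hA : 0 < m₀ (ind A)) (hs : ∀ b, m₀ (ind {b}) = 0)
    (hher : ∀ C : Set G, 0 < m₀ (ind C) → ∃ b ∈ C, ∃ t ∈ M, ∃ r ∈ M,
        0 < m₀ (ind {c | c ∈ C ∧ t * b * c ∈ A ∧ c * b * r ∈ A})) :
    ∃ (B : ℕ → G) (t r : G), Function.Injective B ∧ (∀ n, B n ∈ A) ∧
      (∀ i j, i < j → t * B i * B j ∈ A) ∧ (∀ i j, i < j → B j * B i * r ∈ A) := by
  classical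
  -- one step
  have step : ∀ C : {C : Set G // 0 < m₀ (ind C)}, ∃ p : G × G × G,
      p.1 ∈ C.1 ∧ p.2.1 ∈ M ∧ p.2.2 ∈ M ∧
      0 < m₀ (ind {c | c ∈ C.1 ∧ c ≠ p.1 ∧ p.2.1 * p.1 * c ∈ A ∧ c * p.1 * p.2.2 ∈ A}) := by
    intro C
    obtain ⟨b, hb, t, ht, r, hr, h⟩ := hher C.1 C.2
    refine ⟨(b, t, r), hb, ht, hr, ?_⟩
    have h1 : m₀ (ind {c | c ∈ C.1 ∧ t * b * c ∈ A ∧ c * b * r ∈ A})
        ≤ m₀ (fun c => ind {c | c ∈ C.1 ∧ c ≠ b ∧ t * b * c ∈ A ∧ c * b * r ∈ A} c
          + ind {b} c) := by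
      apply hpos.mono ind_bdd (ind_bdd.add ind_bdd)
      intro c
      by_cases hc : c ∈ {c | c ∈ C.1 ∧ t * b * c ∈ A ∧ c * b * r ∈ A}
      · rw [ind_of_mem hc]
        by_cases hcb : c = b
        · have h2 : ind ({b} : Set G) c = 1 := ind_of_mem hcb
          rw [h2]
          have := ind_nonneg (A := {c | c ∈ C.1 ∧ c ≠ b ∧ t * b * c ∈ A ∧ c * b * r ∈ A}) c
          linarith
        · have h2 : ind {c | c ∈ C.1 ∧ c ≠ b ∧ t * b * c ∈ A ∧ c * b * r ∈ A} c = 1 :=
            ind_of_mem ⟨hc.1, hcb, hc.2.1, hc.2.2⟩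
          rw [h2]
          have := ind_nonneg (A := ({b} : Set G)) c
          linarith
      · rw [ind_of_notMem hc]
        exact add_nonneg (ind_nonneg c) (ind_nonneg c)
    rw [map_add' m₀ (fun c => ind {c | c ∈ C.1 ∧ c ≠ b ∧ t * b * c ∈ A ∧ c * b * r ∈ A} c)] at h1
    have h3 : m₀ (fun c => ind {b} c) = 0 := hs b
    rw [h3, add_zero] at h1
    exact lt_of_lt_of_le h h1
  choose p hp1 hp2 hp3 hp4 using step
  let nxt : {C : Set G // 0 < m₀ (ind C)} → {C : Set G // 0 < m₀ (ind C)} := fun C =>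
    ⟨{c | c ∈ C.1 ∧ c ≠ (p C).1 ∧ (p C).2.1 * (p C).1 * c ∈ A ∧ c * (p C).1 * (p C).2.2 ∈ A},
      hp4 C⟩
  let σ : ℕ → {C : Set G // 0 < m₀ (ind C)} := fun n => nxt^[n] ⟨A, hA⟩
  have hσ : ∀ n, σ (n + 1) = nxt (σ n) := fun n => Function.iterate_succ_apply' nxt n _
  have hsub : ∀ n, (σ (n + 1)).1 ⊆ (σ n).1 := by
    intro n x hx
    rw [hσ] at hx
    exact hx.1
  have hanti : ∀ i j, i ≤ j → (σ j).1 ⊆ (σ i).1 := by
    intro i j hij
    induction j, hij using Nat.le_induction with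
    | base => exact subset_rfl
    | succ k _ ih => exact (hsub k).trans ih
  have hmem : ∀ i j, i < j → (p (σ j)).1 ∈ (σ (i + 1)).1 := fun i j hij =>
    hanti (i + 1) j hij (hp1 (σ j))
  have hrel : ∀ i j, i < j → (p (σ j)).1 ≠ (p (σ i)).1 ∧
      (p (σ i)).2.1 * (p (σ i)).1 * (p (σ j)).1 ∈ A ∧
      (p (σ j)).1 * (p (σ i)).1 * (p (σ i)).2.2 ∈ A := by
    intro i j hij
    have := hmem i j hij
    rw [hσ] at this
    exact this.2
  -- pigeonhole
  let f : ℕ → M × M := fun n => (⟨(p (σ n)).2.1, hp2 _⟩, ⟨(p (σ n)).2.2, hp3 _⟩)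
  obtain ⟨y, hy⟩ := Finite.exists_infinite_fiber f
  have hinf : Infinite (f ⁻¹' {y} : Set ℕ) := hy
  let e := Nat.orderEmbeddingOfSet (f ⁻¹' {y})
  have he : ∀ n, f (e n) = y := fun n => by
    have h1 : e n ∈ Set.range e := ⟨n, rfl⟩
    have h2 : Set.range e = f ⁻¹' {y} := Nat.orderEmbeddingOfSet_range (f ⁻¹' {y})
    rw [h2] at h1
    exact h1
  refine ⟨fun n => (p (σ (e n))).1, y.1, y.2, ?_, ?_, ?_, ?_⟩
  · intro i j hij
    by_contra hne
    rcases lt_or_gt_of_ne hne with h | h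
    · exact (hrel (e i) (e j) (e.lt_iff_lt.2 h)).1 hij.symm
    · exact (hrel (e j) (e i) (e.lt_iff_lt.2 h)).1 hij
  · intro n
    have h1 : (p (σ (e n))).1 ∈ (σ 0).1 := hanti 0 (e n) (Nat.zero_le _) (hp1 _)
    exact h1
  · intro i j hij
    have h1 := (hrel (e i) (e j) (e.lt_iff_lt.2 hij)).2.1
    have h2 := congrArg (fun z => (z.1 : G)) (he i)
    have h3 : (p (σ (e i))).2.1 = (y.1 : G) := h2
    rwa [h3] at h1
  · intro i j hij
    have h1 := (hrel (e i) (e j) (e.lt_iff_lt.2 hij)).2.2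
    have h2 := congrArg (fun z => (z.2 : G)) (he i)
    have h3 : (p (σ (e i))).2.2 = (y.2 : G) := h2
    rwa [h3] at h1

/-- The main theorem in the form with explicit products. -/
theorem main_theorem [Infinite G] (hG : SquareAbsCont G) {A : Set G}
    (hA : PosUpperBanachDensity A) :
    ∃ (B : ℕ → G) (t r : G), Function.Injective B ∧ (∀ n, B n ∈ A) ∧
      (∀ i j, i < j → t * B i * B j ∈ A) ∧ (∀ i j, i < j → B j * B i * r ∈ A) := by
  obtain ⟨m, hm, hl, hr, hpos⟩ := exists_mean hA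
  have hacs := hG.acs hm hr
  obtain ⟨M, m₀, h1, h2, h3, h4⟩ := exists_hereditary hm hl hr hacs (A := A) hpos
  exact exists_sequence h1 h2 h3 h4

end Pool.Agent.Lib.MP_cacba2_co
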