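import Pool.Agent.Lib.MP_cacba2_co.Bohr

namespace Pool.Agent.Lib.MP_cacba2_co

open Filter Topology MeasureTheory
open scoped CompactlySupported

/-- The Stone–Čech compactification of the discrete space `G`. -/
def Om (G : Type*) := Ultrafilter G

namespace Om

variable {G : Type*}

instance : TopologicalSpace (Om G) := inferInstanceAs (TopologicalSpace (Ultrafilter G))
instance : CompactSpace (Om G) := inferInstanceAs (CompactSpace (Ultrafilter G))
instance : T2Space (Om G) := inferInstanceAs (T2Space (Ultrafilter G))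
instance : MeasurableSpace (Om G) := borel _
instance : BorelSpace (Om G) := ⟨rfl⟩

/-- principal points -/
def pt (g : G) : Om G := (pure g : Ultrafilter G)

/-- underlying filter -/
def fil (p : Om G) : Filter G := Ultrafilter.toFilter p

instance (p : Om G) : NeBot (fil p) := inferInstanceAs (NeBot (Ultrafilter.toFilter p))

/-- push-forward -/
def push (k : G → G) (p : Om G) : Om G := Ultrafilter.map k p

lemma fil_push (k : G → G) (p : Om G) : fil (push k p) = Filter.map k (fil p) := rfl

lemma push_push (k l : G → G) (p : Om G) : push k (push l p) = push (k ∘ l) p :=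
  Ultrafilter.map_map p l k

lemma push_id (p : Om G) : push id p = p := Ultrafilter.map_id p

lemma continuous_push (k : G → G) : Continuous (push k : Om G → Om G) := by
  apply continuous_generateFrom_iff.2
  rintro _ ⟨s, rfl⟩
  exact ultrafilter_isOpen_basic (k ⁻¹' s)

/-- extension of a function to the compactification -/
noncomputable def ext (f : G → ℝ) (p : Om G) : ℝ := limUnder (fil p) f

lemma tendsto_ext {f : G → ℝ} (hf : Bdd f) (p : Om G) : Tendsto f (fil p) (𝓝 (ext f p)) := by
  obtain ⟨B, hB⟩ := hf
  have h1 : ∃ x, Tendsto f (fil p) (𝓝 x) := by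
    have hc : IsCompact (Set.Icc (-B) B) := isCompact_Icc
    have h2 : ((Ultrafilter.map f p : Ultrafilter ℝ) : Filter ℝ) ≤ 𝓟 (Set.Icc (-B) B) := by
      rw [le_principal_iff, Ultrafilter.coe_map, Filter.mem_map]
      exact Filter.univ_mem' (fun n => abs_le.1 (hB n))
    obtain ⟨x, _, hx⟩ := hc.ultrafilter_le_nhds _ h2
    exact ⟨x, hx⟩
  exact tendsto_nhds_limUnder h1

lemma ext_eq {f : G → ℝ} {p : Om G} {a : ℝ} (h : Tendsto f (fil p) (𝓝 a)) : ext f p = a :=
  h.limUnder_eq

lemma ext_pt (f : G → ℝ) (g : G) : ext f (pt g) = f g := by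
  apply ext_eq
  exact tendsto_pure_nhds f g

lemma ext_add {f g : G → ℝ} (hf : Bdd f) (hg : Bdd g) (p : Om G) :
    ext (fun x => f x + g x) p = ext f p + ext g p :=
  ext_eq ((tendsto_ext hf p).add (tendsto_ext hg p))

lemma ext_mul {f g : G → ℝ} (hf : Bdd f) (hg : Bdd g) (p : Om G) :
    ext (fun x => f x * g x) p = ext f p * ext g p :=
  ext_eq ((tendsto_ext hf p).mul (tendsto_ext hg p))

lemma ext_const (c : ℝ) (p : Om G) : ext (fun _ => c) p = c :=
  ext_eq tendsto_const_nhds

lemma ext_nonneg {f : G → ℝ} (hf : Bdd f) (h : ∀ x, 0 ≤ f x) (p : Om G) : 0 ≤ ext f p :=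
  ge_of_tendsto' (tendsto_ext hf p) h

lemma ext_push (f : G → ℝ) (k : G → G) (p : Om G) :
    ext (fun x => f (k x)) p = ext f (push k p) := by
  unfold ext limUnder
  rw [fil_push, Filter.map_map]
  rfl

lemma continuous_ext {f : G → ℝ} (hf : Bdd f) : Continuous (ext f : Om G → ℝ) := by
  rw [continuous_iff_continuousAt]
  intro p
  rw [ContinuousAt, Metric.tendsto_nhds]
  intro ε hε
  have h1 : ∀ᶠ x in fil p, |f x - ext f p| < ε / 2 := by
    have := (Metric.tendsto_nhds.1 (tendsto_ext hf p)) (ε / 2) (by positivity)
    simpa [Real.dist_eq] using this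
  have h2 : IsOpen {q : Om G | {x | |f x - ext f p| < ε / 2} ∈ fil q} :=
    ultrafilter_isOpen_basic _
  filter_upwards [h2.mem_nhds h1] with q hq
  have h3 : |ext f q - ext f p| ≤ ε / 2 := by
    have h4 : Tendsto (fun x => |f x - ext f p|) (fil q) (𝓝 |ext f q - ext f p|) :=
      ((tendsto_ext hf q).sub_const _).abs
    apply le_of_tendsto h4
    refine Filter.mem_of_superset hq fun x hx => ?_
    have hx' : |f x - ext f p| < ε / 2 := hx
    exact hx'.le
  rw [Real.dist_eq]
  linarith

/-- The Riesz functional of a mean. -/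
noncomputable def riesz {m : (G → ℝ) →ₗ[ℝ] ℝ} (hm : IsMean m) : C_c(Om G, ℝ) →ₚ[ℝ] ℝ where
  toFun F := m (fun g => F (pt g))
  map_add' F K := map_add' m (fun g => F (pt g)) (fun g => K (pt g))
  map_smul' c F := map_const_mul m c (fun g => F (pt g))
  monotone' := by
    intro F K h
    have hb : ∀ F : C_c(Om G, ℝ), Bdd (fun g => F (pt g)) := by
      intro F
      obtain ⟨C, hC⟩ := isCompact_univ.exists_bound_of_continuousOn
        (F.continuous.continuousOn (s := Set.univ))
      exact ⟨C, fun g => by simpa using hC (pt g) (Set.mem_univ _)⟩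
    exact hm.pos.mono (hb F) (hb K) fun x => h (pt x)

/-- The measure on the compactification representing the mean. -/
noncomputable def meas {m : (G → ℝ) →ₗ[ℝ] ℝ} (hm : IsMean m) : Measure (Om G) :=
  RealRMK.rieszMeasure (riesz hm)

variable {m : (G → ℝ) →ₗ[ℝ] ℝ} (hm : IsMean m)

instance : (meas hm).Regular := inferInstanceAs (RealRMK.rieszMeasure (riesz hm)).Regular
instance : IsFiniteMeasure (meas hm) :=
  inferInstanceAs (IsFiniteMeasure (RealRMK.rieszMeasure (riesz hm)))

lemma integral_ext {f : G → ℝ} (hf : Bdd f) : ∫ p, ext f p ∂(meas hm) = m f := by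
  have h := RealRMK.integral_rieszMeasure (riesz hm)
    ⟨⟨ext f, continuous_ext hf⟩, HasCompactSupport.of_compactSpace _⟩
  have h2 : ∫ p, ext f p ∂(meas hm) = m (fun g => ext f (pt g)) := h
  rw [h2]
  congr 1
  ext g
  exact ext_pt f g

instance : IsProbabilityMeasure (meas hm) := by
  have h := integral_ext hm (bdd_const (1 : ℝ))
  have h2 : (fun p : Om G => ext (fun _ => (1 : ℝ)) p) = fun _ => 1 := by
    ext p; exact ext_const 1 p
  rw [h2, hm.one] at h
  simp only [integral_const, smul_eq_mul, mul_one] at h
  constructor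
  rw [measureReal_def] at h
  have h3 := ENNReal.ofReal_toReal (measure_ne_top (meas hm) Set.univ)
  rw [h] at h3
  simpa using h3.symm

lemma ext_restrict (F : Om G → ℝ) (hF : Continuous F) (p : Om G) :
    ext (fun g => F (pt g)) p = F p := by
  apply ext_eq
  have h1 : Tendsto (fun g => pt g) (fil p) (𝓝 p) := Ultrafilter.tendsto_pure_self p
  exact (hF.tendsto p).comp h1

/-- push-forward by an invertible map preserving the mean is measure preserving -/
lemma mp_push (k l : G → G) (hkl : k ∘ l = id) (hlk : l ∘ k = id)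
    (hinv : ∀ f : G → ℝ, Bdd f → m (fun x => f (k x)) = m f) :
    MeasurePreserving (push k : Om G → Om G) (meas hm) (meas hm) := by
  have hc : Continuous (push k : Om G → Om G) := continuous_push k
  refine ⟨hc.measurable, ?_⟩
  let e : Om G ≃ₜ Om G :=
    { toFun := push k
      invFun := push l
      left_inv := fun p => by rw [push_push, hlk, push_id]
      right_inv := fun p => by rw [push_push, hkl, push_id]
      continuous_toFun := continuous_push k
      continuous_invFun := continuous_push l }
  have hreg : (Measure.map (push k : Om G → Om G) (meas hm)).Regular :=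
    Measure.Regular.map e
  apply Measure.ext_of_integral_eq_on_compactlySupported
  intro F
  have hmap : ∫ x, F x ∂(Measure.map (push k) (meas hm)) = ∫ x, F (push k x) ∂(meas hm) :=
    integral_map hc.measurable.aemeasurable F.continuous.aestronglyMeasurable
  rw [hmap]
  have hb : Bdd (fun g => F (pt g)) := by
    obtain ⟨C, hC⟩ := isCompact_univ.exists_bound_of_continuousOn
      (F.continuous.continuousOn (s := Set.univ))
    exact ⟨C, fun g => by simpa using hC (pt g) (Set.mem_univ _)⟩
  have h1 : ∀ p, F p = ext (fun g => F (pt g)) p := fun p =>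
    (ext_restrict (fun p => F p) F.continuous p).symm
  have h2 : (fun p => F (push k p)) = fun p => ext (fun g => F (pt (k g))) p := by
    ext p
    rw [h1 (push k p), ← ext_push]
  rw [h2, integral_ext hm (hb.comp k), hinv _ hb]
  rw [← integral_ext hm hb]
  congr 1
  ext p
  exact (h1 p).symm

end Om

end Pool.Agent.Lib.MP_cacba2_co
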