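import Pool.Agent.Lib.MP_cacba2_co.Star
import Pool.Agent.Lib.MP_cacba2_co.Space

namespace Pool.Agent.Lib.MP_cacba2_co

open Filter Topology MeasureTheory MulOpposite

variable {G : Type*} [Group G]

/-- Bohr norm on the opposite group -/
def BohrNorm.op (D : BohrNorm G) : BohrNorm Gᵐᵒᵖ where
  d g := D.d (unop g)
  nonneg g := D.nonneg _
  one := D.one
  inv g := D.inv _
  mul g h := by
    rw [unop_mul, add_comm]; exact D.mul _ _
  conj g h := by
    have := D.conj (unop g) (unop h)⁻¹
    rw [← this]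
    congr 1
    simp [mul_assoc]
  tb η hη := by
    classical
    obtain ⟨S, hS⟩ := D.tb η hη
    refine ⟨S.image MulOpposite.op, fun g => ?_⟩
    obtain ⟨s, hs, h⟩ := hS (unop g)
    refine ⟨MulOpposite.op s, Finset.mem_image_of_mem _ hs, ?_⟩
    have : unop ((MulOpposite.op s)⁻¹ * g) = unop g * s⁻¹ := by simp
    rw [this, D.comm]
    exact h

/-- Bohr norm on `G` from one on the opposite group -/
def BohrNorm.unop (D : BohrNorm Gᵐᵒᵖ) : BohrNorm G where
  d g := D.d (MulOpposite.op g)
  nonneg g := D.nonneg _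
  one := D.one
  inv g := D.inv _
  mul g h := by
    rw [op_mul, add_comm]; exact D.mul _ _
  conj g h := by
    have := D.conj (MulOpposite.op g) (MulOpposite.op h)⁻¹
    rw [← this]
    congr 1
    simp [mul_assoc]
  tb η hη := by
    classical
    obtain ⟨S, hS⟩ := D.tb η hη
    refine ⟨S.image MulOpposite.unop, fun g => ?_⟩
    obtain ⟨s, hs, h⟩ := hS (MulOpposite.op g)
    refine ⟨MulOpposite.unop s, Finset.mem_image_of_mem _ hs, ?_⟩
    have : MulOpposite.op ((MulOpposite.unop s)⁻¹ * g) = MulOpposite.op g * s⁻¹ := by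
      simp
    rw [this, D.comm]
    exact h

/-- the mean on the opposite group -/
noncomputable def opMean (m : (G → ℝ) →ₗ[ℝ] ℝ) : (Gᵐᵒᵖ → ℝ) →ₗ[ℝ] ℝ :=
  m.comp (LinearMap.funLeft ℝ ℝ (MulOpposite.op : G → Gᵐᵒᵖ))

lemma opMean_apply (m : (G → ℝ) →ₗ[ℝ] ℝ) (f : Gᵐᵒᵖ → ℝ) :
    opMean m f = m (fun g => f (MulOpposite.op g)) := rfl

variable {m : (G → ℝ) →ₗ[ℝ] ℝ}

lemma opMean_isMean (hm : IsMean m) : IsMean (opMean m) :=
  ⟨fun f hf h => hm.pos _ (hf.comp _) (fun x => h _), hm.one⟩

lemma opMean_linv (hr : RInv m) : LInv (opMean m) := by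
  intro g f hf
  have := hr (MulOpposite.unop g) (fun x => f (MulOpposite.op x)) (hf.comp _)
  rw [opMean_apply, opMean_apply, ← this]
  congr 1

lemma opMean_rinv (hl : LInv m) : RInv (opMean m) := by
  intro g f hf
  have := hl (MulOpposite.unop g) (fun x => f (MulOpposite.op x)) (hf.comp _)
  rw [opMean_apply, opMean_apply, ← this]
  congr 1

lemma isAP_unop {u : Gᵐᵒᵖ → ℝ} (hu : IsAP u) : IsAP (fun g : G => u (MulOpposite.op g)) := by
  intro ε hε
  obtain ⟨D, η, hη, h⟩ := hu ε hε
  refine ⟨D.unop, η, hη, fun x y hxy => h _ _ ?_⟩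
  have e1 : D.d ((MulOpposite.op x)⁻¹ * MulOpposite.op y) = D.unop.d (y * x⁻¹) := by
    show D.d _ = D.d _
    congr 1
  rw [e1, BohrNorm.comm]
  exact hxy

lemma opMean_acs (h : ACS m) : ACS (opMean m) := by
  intro ε hε
  obtain ⟨δ, hδ, H⟩ := h ε hε
  refine ⟨δ, hδ, fun u hu h0 h1 hmu => ?_⟩
  exact H _ (isAP_unop hu) (fun g => h0 _) (fun g => h1 _) hmu

/-- transfer of kernels -/
lemma opKernel {w : G → ℝ} (hw : IsKernel m w) :
    IsKernel (opMean m) (fun x : Gᵐᵒᵖ => w (unop x)) where
  nonneg x := hw.nonneg _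
  lip := by
    obtain ⟨D, L, hL0, hL⟩ := hw.lip
    refine ⟨D.op, L, hL0, fun x y => ?_⟩
    have e1 : D.op.d (x⁻¹ * y) = D.d ((unop x)⁻¹ * unop y) := by
      show D.d (unop (x⁻¹ * y)) = _
      rw [unop_mul, unop_inv, D.comm]
    rw [e1]
    exact hL _ _
  mean := hw.mean
  symm x := hw.symm _
  conj x h := by
    have := hw.conj (unop x) (unop h)⁻¹
    rw [← this]
    congr 1
    simp [mul_assoc]

lemma op_tr {w : G → ℝ} (hw : IsKernel m w) (b : G) :
    (fun g : G => tr (fun x : Gᵐᵒᵖ => w (unop x)) (MulOpposite.op b) (MulOpposite.op g))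
      = tr w b := by
  ext c
  simp only [tr]
  have h1 : unop ((MulOpposite.op b)⁻¹ * MulOpposite.op c) = c * b⁻¹ := by simp
  rw [h1]
  have := hw.conj (b⁻¹ * c) b
  rw [← this]
  congr 1
  group

/-! ### The two systems -/

section systems

open Om

variable (hm : IsMean m)

/-- the left system -/
noncomputable def leftSys (hl : LInv m) : Sys G m (Om G) (Om.meas hm) where
  E := ext
  meas f hf := (continuous_ext hf).measurable
  add f g hf hg ω := ext_add hf hg ω
  mul f g hf hg ω := ext_mul hf hg ω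
  const c ω := ext_const c ω
  nonneg f hf h ω := ext_nonneg hf h ω
  integral f hf := integral_ext hm hf
  τ g := push (fun x => g * x)
  τ_mul g h ω := by
    rw [push_push]
    congr 1
    ext x
    simp [mul_assoc]
  τ_one ω := by
    have : (fun x : G => 1 * x) = id := by ext x; simp
    rw [this, push_id]
  mp g := mp_push hm (fun x => g * x) (fun x => g⁻¹ * x) (by ext x; simp) (by ext x; simp)
    (hl g)
  E_τ g f _ ω := ext_push f (fun x => g * x) ω

/-- the right system, as a system for the opposite group -/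
noncomputable def rightSys (hr : RInv m) : Sys Gᵐᵒᵖ (opMean m) (Om G) (Om.meas hm) where
  E f := ext (fun g => f (MulOpposite.op g))
  meas f hf := (continuous_ext (hf.comp _)).measurable
  add f g hf hg ω := ext_add (hf.comp _) (hg.comp _) ω
  mul f g hf hg ω := ext_mul (hf.comp _) (hg.comp _) ω
  const c ω := ext_const c ω
  nonneg f hf h ω := ext_nonneg (hf.comp _) (fun x => h _) ω
  integral f hf := integral_ext hm (hf.comp _)
  τ g := push (fun x => x * unop g)
  τ_mul g h ω := by
    rw [push_push]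
    congr 1
    ext x
    simp [mul_assoc]
  τ_one ω := by
    have : (fun x : G => x * unop (1 : Gᵐᵒᵖ)) = id := by ext x; simp
    rw [this, push_id]
  mp g := mp_push hm (fun x => x * unop g) (fun x => x * (unop g)⁻¹) (by ext x; simp)
    (by ext x; simp) (hr (unop g))
  E_τ g f _ ω := by
    have := ext_push (fun x => f (MulOpposite.op x)) (fun x => x * unop g) ω
    rw [← this]
    rfl

end systems

end Pool.Agent.Lib.MP_cacba2_co
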