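import Pool.Agent.Lib.MP_cacba2_co.Left4

namespace Pool.Agent.Lib.MP_cacba2_co

open Filter Topology MeasureTheory

set_option linter.unusedSectionVars false

open Classical in
/-- equals `1` at `g` iff no `t * g`, `t ∈ M`, lies in `A` -/
noncomputable def miss {G : Type*} [Group G] (A : Set G) (M : Finset G) : G → ℝ :=
  fun g => if ∃ t ∈ M, t * g ∈ A then 0 else 1

/-- indicator function -/
noncomputable def ind {G : Type*} (A : Set G) : G → ℝ := Set.indicator A (fun _ => 1)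

section

variable {G : Type*} [Group G] {A : Set G} {M M' : Finset G}

lemma miss_nonneg (g : G) : 0 ≤ miss A M g := by unfold miss; split_ifs <;> norm_num

lemma miss_le_one (g : G) : miss A M g ≤ 1 := by unfold miss; split_ifs <;> norm_num

lemma miss_bdd : Bdd (miss A M) := bdd_of_mem_unit miss_nonneg miss_le_one

lemma ind_nonneg (g : G) : 0 ≤ ind A g := by
  unfold ind; by_cases h : g ∈ A <;> simp [h]

lemma ind_le_one (g : G) : ind A g ≤ 1 := by
  unfold ind; by_cases h : g ∈ A <;> simp [h]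

lemma ind_bdd : Bdd (ind A) := bdd_of_mem_unit ind_nonneg ind_le_one

lemma ind_of_mem {g : G} (h : g ∈ A) : ind A g = 1 := by simp [ind, h]

lemma ind_of_notMem {g : G} (h : g ∉ A) : ind A g = 0 := by simp [ind, h]

lemma miss_anti (h : M ⊆ M') (g : G) : miss A M' g ≤ miss A M g := by
  unfold miss
  by_cases h1 : ∃ t ∈ M, t * g ∈ A
  · obtain ⟨t, ht, htA⟩ := h1
    rw [if_pos ⟨t, h ht, htA⟩, if_pos ⟨t, ht, htA⟩]
  · rw [if_neg h1]
    split_ifs <;> norm_num

open Classical in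
lemma miss_mul (b c : G) : miss A M (b * c) = miss A (M.image (fun t => t * b)) c := by
  unfold miss
  congr 1
  apply propext
  constructor
  · rintro ⟨t, ht, h⟩
    exact ⟨t * b, Finset.mem_image_of_mem (fun t => t * b) ht, by rwa [mul_assoc]⟩
  · rintro ⟨t, ht, h⟩
    obtain ⟨s, hs, rfl⟩ := Finset.mem_image.1 ht
    exact ⟨s, hs, by rwa [← mul_assoc]⟩

open Classical in
lemma ind_mul_miss_le (c : G) :
    ind A c * miss A M c ≤ miss A M c - miss A (insert 1 M) c := by
  by_cases hc : c ∈ A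
  · rw [ind_of_mem hc, one_mul]
    have : miss A (insert 1 M) c = 0 := by
      unfold miss
      rw [if_pos ⟨1, Finset.mem_insert_self _ _, by rwa [one_mul]⟩]
    rw [this, sub_zero]
  · rw [ind_of_notMem hc, zero_mul]
    have := miss_anti (A := A) (Finset.subset_insert 1 M) c
    linarith

end

namespace Sys

variable {G : Type*} [Group G] {m : (G → ℝ) →ₗ[ℝ] ℝ} {Ω : Type*} [MeasurableSpace Ω]
  {ν : Measure Ω} (S : Sys G m Ω ν) [IsProbabilityMeasure ν] {w : G → ℝ}

theorem star (hm : IsMean m) (hl : LInv m) (hacs : ACS m) (A : Set G) {ε : ℝ} (hε : 0 < ε) :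
    ∃ M₀ : Finset G, ∀ M : Finset G, M₀ ⊆ M → ∀ w : G → ℝ, IsKernel m w →
      m (fun b => ∫ ω, S.E (tr w b) ω * (S.E (ind A) ω * S.E (miss A M) (S.τ b ω)) ∂ν) ≤ ε := by
  classical
  obtain ⟨δ, hδ, hac⟩ := S.ac hm hl hacs (half_pos hε)
  -- `β M = m (miss A M)` decreases; let `α` be its infimum
  set β : Finset G → ℝ := fun M => m (miss A M) with hβ
  have hβ0 : ∀ M, 0 ≤ β M := fun M => hm.pos _ miss_bdd miss_nonneg
  have hbdd : BddBelow (Set.range β) := ⟨0, by rintro _ ⟨M, rfl⟩; exact hβ0 M⟩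
  set α : ℝ := ⨅ M, β M with hα
  have hαle : ∀ M, α ≤ β M := fun M => ciInf_le hbdd M
  obtain ⟨M₀, hM₀⟩ := exists_lt_of_ciInf_lt (show (⨅ M, β M) < α + δ by rw [← hα]; linarith)
  refine ⟨M₀, fun M hM w hw => ?_⟩
  obtain ⟨W, hW0, hW⟩ := hw.bdd.exists_nonneg
  obtain ⟨M₁', hM₁'⟩ := exists_lt_of_ciInf_lt
    (show (⨅ M, β M) < α + ε / (2 * (W + 1)) by rw [← hα]; linarith [show 0 < ε / (2 * (W + 1)) by positivity])
  set M₁ := M ∪ M₁' with hM₁
  have hanti : ∀ {M M' : Finset G}, M ⊆ M' → β M' ≤ β M := fun {M M'} h =>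
    hm.pos.mono miss_bdd miss_bdd (miss_anti h)
  have hβM : β M < α + δ := (hanti hM).trans_lt hM₀
  have hβM₁ : β M₁ < α + ε / (2 * (W + 1)) := (hanti Finset.subset_union_right).trans_lt hM₁'
  set h : G → ℝ := fun g => miss A M g - miss A M₁ g with hh
  have hhb : Bdd h := miss_bdd.sub miss_bdd
  have hh0 : ∀ g, 0 ≤ h g := fun g => sub_nonneg.2 (miss_anti Finset.subset_union_left g)
  have hh1 : ∀ g, h g ≤ 1 := fun g => by
    have h1 := miss_le_one (A := A) (M := M) g
    have h2 := miss_nonneg (A := A) (M := M₁) g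
    simp only [hh]; linarith
  have hEh : ∀ ω, 0 ≤ S.E h ω ∧ S.E h ω ≤ 1 := fun ω => ⟨S.nonneg _ hhb hh0 ω, by
    have := S.mono hhb (bdd_const 1) hh1 ω
    rwa [S.const] at this⟩
  -- the absolutely continuous part
  have a1 : m (fun b => ∫ ω, S.E (tr w b) ω * S.E h (S.τ b ω) ∂ν) ≤ ε / 2 := by
    apply hac (S.E h) (S.bm hhb).meas hEh _ w hw
    rw [S.integral h hhb]
    simp only [hh]
    rw [map_sub']
    have e1 := hαle M₁
    have e2 : m (fun x => miss A M x) = β M := rfl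
    have e3 : m (fun x => miss A M₁ x) = β M₁ := rfl
    rw [e2, e3]
    linarith
  -- the remaining part is small for each `b`
  have a2 : ∀ b, ∫ ω, S.E (tr w b) ω * (S.E (ind A) ω * S.E (miss A M) (S.τ b ω)) ∂ν
      ≤ ∫ ω, S.E (tr w b) ω * S.E h (S.τ b ω) ∂ν + ε / 2 := by
    intro b
    have hf1 : Bdd (fun c => miss A M (b * c)) := miss_bdd.comp _
    have hf2 : Bdd (fun c => h (b * c)) := hhb.comp _
    have hf3 : Bdd (fun c => miss A M₁ (b * c)) := miss_bdd.comp _
    have htr := tr_bdd hw.bdd b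
    have e1 : ∫ ω, S.E (tr w b) ω * (S.E (ind A) ω * S.E (miss A M) (S.τ b ω)) ∂ν
        = m (fun c => tr w b c * (ind A c * miss A M (b * c))) := by
      rw [← S.integral _ (htr.mul (ind_bdd.mul hf1))]
      congr 1
      ext ω
      rw [S.mul _ _ htr (ind_bdd.mul hf1), S.mul _ _ ind_bdd hf1, S.E_τ b _ miss_bdd]
    have e2 : ∫ ω, S.E (tr w b) ω * S.E h (S.τ b ω) ∂ν
        = m (fun c => tr w b c * h (b * c)) := by
      rw [← S.integral _ (htr.mul hf2)]
      congr 1
      ext ω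
      rw [S.mul _ _ htr hf2, S.E_τ b _ hhb]
    rw [e1, e2]
    have e3 : m (fun c => tr w b c * (ind A c * miss A M (b * c)))
        ≤ m (fun c => tr w b c * h (b * c) + W * (ind A c * miss A M₁ (b * c))) := by
      apply hm.pos.mono (htr.mul (ind_bdd.mul hf1))
        ((htr.mul hf2).add ((bdd_const W).mul (ind_bdd.mul hf3)))
      intro c
      have w0 : 0 ≤ tr w b c := hw.nonneg _
      have w1 : tr w b c ≤ W := (le_abs_self _).trans (hW _)
      have i0 := ind_nonneg (A := A) c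
      have i1 := ind_le_one (A := A) c
      have n0 := miss_nonneg (A := A) (M := M₁) (b * c)
      have hc := hh0 (b * c)
      have e4 : ind A c * miss A M (b * c) ≤ h (b * c) + ind A c * miss A M₁ (b * c) := by
        simp only [hh] at hc ⊢
        nlinarith
      calc tr w b c * (ind A c * miss A M (b * c))
          ≤ tr w b c * (h (b * c) + ind A c * miss A M₁ (b * c)) :=
            mul_le_mul_of_nonneg_left e4 w0
        _ = tr w b c * h (b * c) + tr w b c * (ind A c * miss A M₁ (b * c)) := by ring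
        _ ≤ _ := by
            apply add_le_add le_rfl
            exact mul_le_mul_of_nonneg_right w1 (mul_nonneg i0 n0)
    refine e3.trans ?_
    rw [map_add' m (fun c => tr w b c * h (b * c)), map_const_mul]
    apply add_le_add le_rfl
    have e5 : m (fun c => ind A c * miss A M₁ (b * c)) ≤ ε / (2 * (W + 1)) := by
      set N := M₁.image (fun t => t * b) with hN
      have e6 : m (fun c => ind A c * miss A M₁ (b * c))
          ≤ m (fun c => miss A N c - miss A (insert 1 N) c) := by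
        apply hm.pos.mono (ind_bdd.mul hf3) (miss_bdd.sub miss_bdd)
        intro c
        rw [miss_mul]
        exact ind_mul_miss_le c
      rw [map_sub'] at e6
      have e7 : m (fun c => miss A N c) = β M₁ := by
        have := hl b (miss A M₁) miss_bdd
        simp only [hβ]
        rw [← this]
        congr 1
        ext c
        rw [miss_mul]
      have e8 : α ≤ m (fun c => miss A (insert 1 N) c) := hαle _
      linarith
    calc W * m (fun c => ind A c * miss A M₁ (b * c)) ≤ W * (ε / (2 * (W + 1))) :=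
          mul_le_mul_of_nonneg_left e5 hW0
      _ ≤ (W + 1) * (ε / (2 * (W + 1))) := by
          apply mul_le_mul_of_nonneg_right (by linarith) (by positivity)
      _ = ε / 2 := by field_simp
  have bd1 : Bdd (fun b => ∫ ω, S.E (tr w b) ω *
      (S.E (ind A) ω * S.E (miss A M) (S.τ b ω)) ∂ν) :=
    S.bdd_integral hw hl (B := 1) (by
      intro b ω
      rw [abs_mul]
      calc |S.E (ind A) ω| * |S.E (miss A M) (S.τ b ω)| ≤ 1 * 1 := by
            apply mul_le_mul _ _ (abs_nonneg _) zero_le_one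
            · exact S.abs_le (fun c => by rw [abs_of_nonneg (ind_nonneg c)]; exact ind_le_one c) ω
            · exact S.abs_le (fun c => by
                rw [abs_of_nonneg (miss_nonneg c)]; exact miss_le_one c) _
        _ = 1 := one_mul 1)
  have bd2 : Bdd (fun b => ∫ ω, S.E (tr w b) ω * S.E h (S.τ b ω) ∂ν) :=
    S.bdd_integral hw hl (B := 1) (by
      intro b ω
      rw [abs_of_nonneg (hEh _).1]
      exact (hEh _).2)
  have a3 := hm.pos.mono bd1 (bd2.add (bdd_const (ε / 2))) a2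
  rw [map_add' m (fun b => ∫ ω, S.E (tr w b) ω * S.E h (S.τ b ω) ∂ν), hm.const] at a3
  linarith

/-- consequence: the limit function is small on `A` -/
theorem star_q (hm : IsMean m) (hl : LInv m) (hr : RInv m) {A : Set G} {M : Finset G} {ε : ℝ}
    (hstar : ∀ w : G → ℝ, IsKernel m w →
      m (fun b => ∫ ω, S.E (tr w b) ω * (S.E (ind A) ω * S.E (miss A M) (S.τ b ω)) ∂ν) ≤ ε)
    {q : Ω → ℝ} (hqm : Measurable q) (hq01 : ∀ ω, 0 ≤ q ω ∧ q ω ≤ 1)
    (hq : ∀ ε : ℝ, 0 < ε →
      ∃ (D : BohrNorm G) (η : ℝ), 0 < η ∧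
      ∀ w : G → ℝ, IsKernel m w → (∀ x, w x ≠ 0 → D.d x < η) →
      ∀ u : Ω → ℝ, Measurable u → (∀ ω, 0 ≤ u ω ∧ u ω ≤ 1) →
      m (fun b => |∫ ω, (u ω * S.E (tr w b) ω) * (S.E (miss A M) (S.τ b ω) - q ω) ∂ν|) ≤ ε) :
    ∫ ω, S.E (ind A) ω * q ω ∂ν ≤ ε := by
  apply le_of_forall_pos_le_add
  intro κ hκ
  obtain ⟨D, η, hη, H⟩ := hq κ hκ
  obtain ⟨w, hw, hsupp, -⟩ := exists_kernel hm hl hr D hη
  have hEA : ∀ ω, 0 ≤ S.E (ind A) ω ∧ S.E (ind A) ω ≤ 1 := fun ω =>
    ⟨S.nonneg _ ind_bdd ind_nonneg ω, by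
      have := S.mono ind_bdd (bdd_const 1) (ind_le_one (A := A)) ω
      rwa [S.const] at this⟩
  have hEM : ∀ ω, 0 ≤ S.E (miss A M) ω ∧ S.E (miss A M) ω ≤ 1 := fun ω =>
    ⟨S.nonneg _ miss_bdd miss_nonneg ω, by
      have := S.mono miss_bdd (bdd_const 1) (miss_le_one (A := A) (M := M)) ω
      rwa [S.const] at this⟩
  have h1 := H w hw hsupp (S.E (ind A)) (S.bm ind_bdd).meas hEA
  have hqb : BM q := BM.of_unit hqm hq01
  have h2 := S.avg_tr hm hl hw ((S.bm (ind_bdd (A := A))).mul hqb)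
  have h3 := hstar w hw
  rw [← h2]
  have bdA : Bdd (fun b => ∫ ω, S.E (tr w b) ω * (S.E (ind A) ω * q ω) ∂ν) :=
    S.bdd_integral hw hl (B := 1) (by
      intro b ω
      rw [abs_of_nonneg (mul_nonneg (hEA ω).1 (hq01 ω).1)]
      exact mul_le_one₀ (hEA ω).2 (hq01 ω).1 (hq01 ω).2)
  have bdB : Bdd (fun b => ∫ ω, S.E (tr w b) ω *
      (S.E (ind A) ω * S.E (miss A M) (S.τ b ω)) ∂ν) :=
    S.bdd_integral hw hl (B := 1) (by
      intro b ω
      rw [abs_of_nonneg (mul_nonneg (hEA ω).1 (hEM _).1)]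
      exact mul_le_one₀ (hEA ω).2 (hEM _).1 (hEM _).2)
  have e : ∀ b, ∫ ω, (S.E (ind A) ω * S.E (tr w b) ω) * (S.E (miss A M) (S.τ b ω) - q ω) ∂ν
      = ∫ ω, S.E (tr w b) ω * (S.E (ind A) ω * S.E (miss A M) (S.τ b ω)) ∂ν
        - ∫ ω, S.E (tr w b) ω * (S.E (ind A) ω * q ω) ∂ν := by
    intro b
    have i1 : BM (fun ω => S.E (tr w b) ω * (S.E (ind A) ω * S.E (miss A M) (S.τ b ω))) :=
      (S.tr_bm hw b).mul ((S.bm ind_bdd).mul ((S.bm miss_bdd).comp (S.mp b).measurable))
    have i2 : BM (fun ω => S.E (tr w b) ω * (S.E (ind A) ω * q ω)) :=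
      (S.tr_bm hw b).mul ((S.bm ind_bdd).mul hqb)
    rw [← integral_sub i1.integrable i2.integrable]
    congr 1
    ext ω
    ring
  have bdC : Bdd (fun b => |∫ ω, (S.E (ind A) ω * S.E (tr w b) ω) *
      (S.E (miss A M) (S.τ b ω) - q ω) ∂ν|) := by
    simp_rw [e]
    exact (bdB.sub bdA).abs
  have h4 := hm.pos.mono bdA (bdB.add bdC) (by
    intro b
    have := neg_abs_le (∫ ω, (S.E (ind A) ω * S.E (tr w b) ω) *
      (S.E (miss A M) (S.τ b ω) - q ω) ∂ν)
    rw [e b] at this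
    rw [e b]
    linarith)
  rw [map_add' m (fun b => ∫ ω, S.E (tr w b) ω *
      (S.E (ind A) ω * S.E (miss A M) (S.τ b ω)) ∂ν)] at h4
  linarith

end Sys

end Pool.Agent.Lib.MP_cacba2_co
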