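import Pool.Agent.Lib.MP_cacba2_co.WeakMixing
import Pool.Agent.Lib.MP_cacba2_co.Folner

namespace Pool.Agent.Lib.MP_cacba2_co

open Filter Topology MeasureTheory
open scoped InnerProductSpace RealInnerProductSpace

/-- bounded measurable functions -/
structure BM {Ω : Type*} [MeasurableSpace Ω] (f : Ω → ℝ) : Prop where
  meas : Measurable f
  bdd : ∃ B : ℝ, ∀ ω, |f ω| ≤ B

namespace BM

variable {Ω : Type*} [MeasurableSpace Ω] {f g : Ω → ℝ}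

lemma const (c : ℝ) : BM (fun _ : Ω => c) := ⟨measurable_const, |c|, fun _ => le_rfl⟩

lemma add (hf : BM f) (hg : BM g) : BM (fun ω => f ω + g ω) :=
  ⟨hf.meas.add hg.meas, Bdd.add hf.bdd hg.bdd⟩

lemma sub (hf : BM f) (hg : BM g) : BM (fun ω => f ω - g ω) :=
  ⟨hf.meas.sub hg.meas, Bdd.sub hf.bdd hg.bdd⟩

lemma neg (hf : BM f) : BM (fun ω => - f ω) :=
  ⟨hf.meas.neg, Bdd.neg hf.bdd⟩

lemma mul (hf : BM f) (hg : BM g) : BM (fun ω => f ω * g ω) :=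
  ⟨hf.meas.mul hg.meas, Bdd.mul hf.bdd hg.bdd⟩

lemma abs (hf : BM f) : BM (fun ω => |f ω|) :=
  ⟨hf.meas.abs, Bdd.abs hf.bdd⟩

lemma comp {Ω' : Type*} [MeasurableSpace Ω'] (hf : BM f) {T : Ω' → Ω} (hT : Measurable T) :
    BM (fun ω => f (T ω)) := ⟨hf.meas.comp hT, Bdd.comp hf.bdd T⟩

lemma sum {ι : Type*} (s : Finset ι) {F : ι → Ω → ℝ} (hF : ∀ i ∈ s, BM (F i)) :
    BM (fun ω => ∑ i ∈ s, F i ω) :=
  ⟨Finset.measurable_fun_sum s fun i hi => (hF i hi).meas, Bdd.sum s fun i hi => (hF i hi).bdd⟩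

lemma of_unit (hm : Measurable f) (h : ∀ ω, 0 ≤ f ω ∧ f ω ≤ 1) : BM f :=
  ⟨hm, bdd_of_mem_unit (fun x => (h x).1) (fun x => (h x).2)⟩

lemma indicator {s : Set Ω} (hs : MeasurableSet s) : BM (s.indicator (fun _ => (1 : ℝ))) :=
  of_unit (measurable_const.indicator hs) fun ω => by
    by_cases h : ω ∈ s <;> simp [h]

variable {ν : Measure Ω} [IsFiniteMeasure ν]

lemma integrable (hf : BM f) : Integrable f ν := by
  obtain ⟨B, hB⟩ := hf.bdd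
  exact Integrable.of_bound hf.meas.aestronglyMeasurable B (Eventually.of_forall hB)

lemma memLp (hf : BM f) (p : ENNReal) : MemLp f p ν := by
  obtain ⟨B, hB⟩ := hf.bdd
  exact MemLp.of_bound hf.meas.aestronglyMeasurable B (Eventually.of_forall hB)

/-- the class in `L²` -/
noncomputable def cls (hf : BM f) : Lp ℝ 2 ν := (hf.memLp 2).toLp f

lemma coe_cls (hf : BM f) : (hf.cls : Lp ℝ 2 ν) =ᵐ[ν] f := MemLp.coeFn_toLp _

end BM

/-- An action system over `G` realising the mean `m`. -/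
structure Sys (G : Type*) [Group G] (m : (G → ℝ) →ₗ[ℝ] ℝ) (Ω : Type*) [MeasurableSpace Ω]
    (ν : Measure Ω) where
  E : (G → ℝ) → Ω → ℝ
  meas : ∀ f, Bdd f → Measurable (E f)
  add : ∀ f g, Bdd f → Bdd g → ∀ ω, E (fun x => f x + g x) ω = E f ω + E g ω
  mul : ∀ f g, Bdd f → Bdd g → ∀ ω, E (fun x => f x * g x) ω = E f ω * E g ω
  const : ∀ c ω, E (fun _ => c) ω = c
  nonneg : ∀ f, Bdd f → (∀ x, 0 ≤ f x) → ∀ ω, 0 ≤ E f ω
  integral : ∀ f, Bdd f → ∫ ω, E f ω ∂ν = m f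
  τ : G → Ω → Ω
  τ_mul : ∀ g h ω, τ (g * h) ω = τ g (τ h ω)
  τ_one : ∀ ω, τ 1 ω = ω
  mp : ∀ g, MeasurePreserving (τ g) ν ν
  E_τ : ∀ g f, Bdd f → ∀ ω, E (fun x => f (g * x)) ω = E f (τ g ω)

namespace Sys

variable {G : Type*} [Group G] {m : (G → ℝ) →ₗ[ℝ] ℝ} {Ω : Type*} [MeasurableSpace Ω]
  {ν : Measure Ω} (S : Sys G m Ω ν) {f g : G → ℝ}

lemma smul (c : ℝ) (hf : Bdd f) (ω : Ω) : S.E (fun x => c * f x) ω = c * S.E f ω := by
  rw [S.mul _ _ (bdd_const c) hf, S.const]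

lemma neg (hf : Bdd f) (ω : Ω) : S.E (fun x => - f x) ω = - S.E f ω := by
  have := S.smul (-1) hf ω
  simpa using this

lemma sub (hf : Bdd f) (hg : Bdd g) (ω : Ω) :
    S.E (fun x => f x - g x) ω = S.E f ω - S.E g ω := by
  have := S.add f (fun x => - g x) hf hg.neg ω
  rw [S.neg hg] at this
  simpa [sub_eq_add_neg] using this

lemma mono (hf : Bdd f) (hg : Bdd g) (h : ∀ x, f x ≤ g x) (ω : Ω) : S.E f ω ≤ S.E g ω := by
  have := S.nonneg _ (hg.sub hf) (fun x => sub_nonneg.2 (h x)) ω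
  rw [S.sub hg hf] at this
  linarith

lemma abs_le {B : ℝ} (h : ∀ x, |f x| ≤ B) (ω : Ω) : |S.E f ω| ≤ B := by
  have hf : Bdd f := ⟨B, h⟩
  rw [_root_.abs_le]
  constructor
  · have := S.mono (bdd_const (-B)) hf (fun x => (_root_.abs_le.1 (h x)).1) ω
    rwa [S.const] at this
  · have := S.mono hf (bdd_const B) (fun x => (_root_.abs_le.1 (h x)).2) ω
    rwa [S.const] at this

lemma sum {ι : Type*} (s : Finset ι) {F : ι → G → ℝ} (hF : ∀ i ∈ s, Bdd (F i)) (ω : Ω) :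
    S.E (fun x => ∑ i ∈ s, F i x) ω = ∑ i ∈ s, S.E (F i) ω := by
  classical
  induction s using Finset.induction_on with
  | empty => simpa using S.const 0 ω
  | insert a s ha ih =>
    have h1 : ∀ i ∈ s, Bdd (F i) := fun i hi => hF i (Finset.mem_insert_of_mem hi)
    simp only [Finset.sum_insert ha]
    rw [S.add _ _ (hF a (Finset.mem_insert_self _ _)) (Bdd.sum s h1), ih h1]

lemma bm (hf : Bdd f) : BM (S.E f) := by
  obtain ⟨B, hB⟩ := hf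
  exact ⟨S.meas f ⟨B, hB⟩, B, fun ω => S.abs_le hB ω⟩

lemma E_zero_of (h : ∀ x, f x = 0) (ω : Ω) : S.E f ω = 0 := by
  have : f = fun _ => 0 := funext h
  rw [this, S.const]

lemma τ_inv (g : G) (ω : Ω) : S.τ g (S.τ g⁻¹ ω) = ω := by
  rw [← S.τ_mul, mul_inv_cancel, S.τ_one]

lemma τ_inv' (g : G) (ω : Ω) : S.τ g⁻¹ (S.τ g ω) = ω := by
  rw [← S.τ_mul, inv_mul_cancel, S.τ_one]

lemma integral_τ (g : G) {f : Ω → ℝ} (hf : AEStronglyMeasurable f ν) :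
    ∫ ω, f (S.τ g ω) ∂ν = ∫ ω, f ω ∂ν := by
  have h1 := (S.mp g).map_eq
  have h2 := integral_map (S.mp g).measurable.aemeasurable (f := f) (by rw [h1]; exact hf)
  rw [h1] at h2
  exact h2.symm

/-- the functional `f ↦ ∫ E f * h` -/
lemma exists_lint [IsFiniteMeasure ν] {h : Ω → ℝ} (hh : BM h) :
    ∃ L : (G → ℝ) →ₗ[ℝ] ℝ, (∃ C, BF L C) ∧ (∀ f, Bdd f → L f = ∫ ω, S.E f ω * h ω ∂ν) := by
  obtain ⟨L, hL⟩ := exists_linear_of_bdd (fun f : G → ℝ => ∫ ω, S.E f ω * h ω ∂ν)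
    (by
      intro f g hf hg
      rw [← integral_add ((S.bm hf).mul hh).integrable ((S.bm hg).mul hh).integrable]
      congr 1
      ext ω
      rw [S.add f g hf hg]; ring)
    (by
      intro c f hf
      rw [← integral_const_mul]
      congr 1
      ext ω
      rw [S.smul c hf]; ring)
  refine ⟨L, ⟨∫ ω, |h ω| ∂ν, integral_nonneg fun _ => abs_nonneg _, ?_⟩, hL⟩
  intro f B hB hf
  have hf' : Bdd f := ⟨B, hf⟩
  rw [hL f hf']
  calc |∫ ω, S.E f ω * h ω ∂ν| ≤ ∫ ω, |S.E f ω * h ω| ∂ν := abs_integral_le_integral_abs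
    _ ≤ ∫ ω, B * |h ω| ∂ν := by
        apply integral_mono ((S.bm hf').mul hh).abs.integrable ((BM.const B).mul hh.abs).integrable
        intro ω
        simp only [abs_mul]
        exact mul_le_mul_of_nonneg_right (S.abs_le hf ω) (abs_nonneg _)
    _ = (∫ ω, |h ω| ∂ν) * B := by rw [integral_const_mul, mul_comm]

/-- The Koopman representation. -/
noncomputable def rep : Rep G (Lp ℝ 2 ν) where
  π g := Lp.compMeasurePreservingₗᵢ ℝ (S.τ g⁻¹) (S.mp g⁻¹)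
  map_mul g h x := by
    have h1 : S.τ (g * h)⁻¹ = S.τ h⁻¹ ∘ S.τ g⁻¹ := by
      ext ω
      rw [mul_inv_rev, S.τ_mul]; rfl
    have h2 := Lp.compMeasurePreserving_comp_apply x (S.mp h⁻¹) (S.mp g⁻¹)
    have h3 : ∀ (T : Ω → Ω) (hT : MeasurePreserving T ν ν), T = S.τ h⁻¹ ∘ S.τ g⁻¹ →
        Lp.compMeasurePreserving T hT x
          = Lp.compMeasurePreserving (S.τ g⁻¹) (S.mp g⁻¹)
            (Lp.compMeasurePreserving (S.τ h⁻¹) (S.mp h⁻¹) x) := by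
      rintro T hT rfl
      exact h2
    exact h3 _ _ h1
  map_one x := by
    have h1 : S.τ (1 : G)⁻¹ = id := by
      ext ω
      rw [inv_one, S.τ_one]; rfl
    have h3 : ∀ (T : Ω → Ω) (hT : MeasurePreserving T ν ν), T = id →
        Lp.compMeasurePreserving T hT x = x := by
      rintro T hT rfl
      exact Lp.compMeasurePreserving_id_apply x
    exact h3 _ _ h1

lemma rep_coe (g : G) (x : Lp ℝ 2 ν) : (S.rep.π g x : Ω → ℝ) =ᵐ[ν] fun ω => x (S.τ g⁻¹ ω) :=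
  Lp.coeFn_compMeasurePreserving x (S.mp g⁻¹)

lemma rep_inv_coe (g : G) (x : Lp ℝ 2 ν) :
    (S.rep.π g⁻¹ x : Ω → ℝ) =ᵐ[ν] fun ω => x (S.τ g ω) := by
  have := S.rep_coe g⁻¹ x
  rwa [inv_inv] at this

lemma inner_rep_inv [IsFiniteMeasure ν] (b : G) (x : Lp ℝ 2 ν) {u : Ω → ℝ} (hu : BM u) :
    ⟪S.rep.π b⁻¹ x, (hu.cls : Lp ℝ 2 ν)⟫_ℝ = ∫ ω, u ω * x (S.τ b ω) ∂ν := by
  rw [L2.inner_def]
  apply integral_congr_ae
  filter_upwards [S.rep_inv_coe b x, hu.coe_cls (ν := ν)] with ω h1 h2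
  rw [h1, h2]
  simp

lemma inner_rep [IsFiniteMeasure ν] (b : G) (x : Lp ℝ 2 ν) {u : Ω → ℝ} (hu : BM u) :
    ⟪S.rep.π b x, (hu.cls : Lp ℝ 2 ν)⟫_ℝ = ∫ ω, u ω * x (S.τ b⁻¹ ω) ∂ν := by
  rw [L2.inner_def]
  apply integral_congr_ae
  filter_upwards [S.rep_coe b x, hu.coe_cls (ν := ν)] with ω h1 h2
  rw [h1, h2]
  simp

end Sys

end Pool.Agent.Lib.MP_cacba2_co
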