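import Pool.Agent.Lib.MP_cacba2_co.Hilbert

namespace Pool.Agent.Lib.MP_cacba2_co

open Filter Topology
open scoped InnerProductSpace RealInnerProductSpace

namespace Rep

variable {G : Type*} [Group G] {H : Type*} [NormedAddCommGroup H] [InnerProductSpace ℝ H]
  (ρ : Rep G H) {m : (G → ℝ) →ₗ[ℝ] ℝ}

/-- the mean square correlation -/
noncomputable def q (m : (G → ℝ) →ₗ[ℝ] ℝ) (F u : H) : ℝ :=
  m (fun b => ⟪ρ.π b F, u⟫_ℝ * ⟪ρ.π b F, u⟫_ℝ)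

lemma q_nonneg (hm : IsMean m) (F u : H) : 0 ≤ ρ.q m F u :=
  hm.pos _ ((ρ.bdd_inner F u).mul (ρ.bdd_inner F u)) (fun _ => mul_self_nonneg _)

lemma q_le (hm : IsMean m) (F u : H) : ρ.q m F u ≤ ‖F‖ ^ 2 * ‖u‖ ^ 2 := by
  apply hm.le ((ρ.bdd_inner F u).mul (ρ.bdd_inner F u))
  intro b
  have h := ρ.inner_abs_le b F u
  have h1 : ⟪ρ.π b F, u⟫_ℝ * ⟪ρ.π b F, u⟫_ℝ = |⟪ρ.π b F, u⟫_ℝ| ^ 2 := by
    rw [sq_abs, sq]
  rw [h1, ← mul_pow]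
  exact pow_le_pow_left₀ (abs_nonneg _) h 2

lemma q_smul (F u : H) (c : ℝ) : ρ.q m F (c • u) = c ^ 2 * ρ.q m F u := by
  unfold q
  rw [← map_const_mul]
  congr 1
  ext b
  rw [inner_smul_right]; ring

lemma bessel (hm : IsMean m) (F : H) {n : ℕ} {v : Fin n → H} (hv : Orthonormal ℝ v) :
    ∑ i, ρ.q m F (v i) ≤ ‖F‖ ^ 2 := by
  unfold q
  rw [← map_sum' m Finset.univ (fun i b => ⟪ρ.π b F, v i⟫_ℝ * ⟪ρ.π b F, v i⟫_ℝ)]
  apply hm.le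
  · exact Bdd.sum _ fun i _ => (ρ.bdd_inner F (v i)).mul (ρ.bdd_inner F (v i))
  · intro b
    have h := hv.sum_inner_products_le (ρ.π b F) (s := Finset.univ)
    rw [(ρ.π b).norm_map] at h
    refine le_trans (le_of_eq ?_) h
    refine Finset.sum_congr rfl fun i _ => ?_
    rw [Real.norm_eq_abs, sq_abs, sq, real_inner_comm]

lemma exists_fd (hm : IsMean m) (F : H) {ε : ℝ} (hε : 0 < ε) :
    ∃ V : Submodule ℝ H, FiniteDimensional ℝ V ∧ ∀ u ∈ Vᗮ, ρ.q m F u ≤ ε * ‖u‖ ^ 2 := by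
  by_contra hcon
  push Not at hcon
  have key : ∀ n : ℕ, ∃ v : Fin n → H, Orthonormal ℝ v ∧ ∀ i, ε ≤ ρ.q m F (v i) := by
    intro n
    induction n with
    | zero => exact ⟨Fin.elim0, ⟨fun i => i.elim0, fun i => i.elim0⟩, fun i => i.elim0⟩
    | succ n ih =>
      obtain ⟨v, hv, hq⟩ := ih
      obtain ⟨u, hu, hlt⟩ := hcon (Submodule.span ℝ (Set.range v))
        (FiniteDimensional.span_of_finite ℝ (Set.finite_range v))
      have hu0 : u ≠ 0 := by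
        rintro rfl
        have := ρ.q_le hm F 0
        simp at this hlt
        linarith
      have hn : 0 < ‖u‖ := norm_pos_iff.2 hu0
      refine ⟨Matrix.vecCons (‖u‖⁻¹ • u) v, ?_, ?_⟩
      · rw [orthonormal_vecCons_iff]
        refine ⟨?_, ?_, hv⟩
        · rw [norm_smul, norm_inv, norm_norm]
          field_simp
        · intro i
          rw [inner_smul_left]
          rw [Submodule.mem_orthogonal'] at hu
          rw [hu (v i) (Submodule.subset_span ⟨i, rfl⟩)]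
          simp
      · intro i
        refine Fin.cases ?_ ?_ i
        · simp only [Matrix.cons_val_zero]
          rw [ρ.q_smul]
          have h1 : ε = ‖u‖⁻¹ ^ 2 * (ε * ‖u‖ ^ 2) := by field_simp
          rw [h1]
          exact mul_le_mul_of_nonneg_left hlt.le (by positivity)
        · intro j
          simpa using hq j
  obtain ⟨n, hn⟩ := exists_nat_gt (‖F‖ ^ 2 / ε)
  obtain ⟨v, hv, hq⟩ := key n
  have h1 := ρ.bessel hm F hv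
  have h2 : (n : ℝ) * ε ≤ ∑ i, ρ.q m F (v i) := by
    have : ∑ _i : Fin n, ε ≤ ∑ i, ρ.q m F (v i) := Finset.sum_le_sum fun i _ => hq i
    simpa using this
  rw [div_lt_iff₀ hε] at hn
  linarith

variable [CompleteSpace H]

/-- The averaged operator `u ↦ m_b ⟪π b F, u⟫ π b F`. -/
noncomputable def S (hm : IsMean m) (F u : H) : H :=
  (ρ.exists_wint hm (ρ.bdd_inner F u) F).choose

lemma inner_S (hm : IsMean m) (F u y : H) :
    ⟪ρ.S hm F u, y⟫_ℝ = m (fun g => ⟪ρ.π g F, u⟫_ℝ * ⟪ρ.π g F, y⟫_ℝ) :=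
  (ρ.exists_wint hm (ρ.bdd_inner F u) F).choose_spec y

lemma norm_S_sq (hm : IsMean m) (F u : H) :
    ‖ρ.S hm F u‖ ^ 2 ≤ ‖F‖ ^ 2 * ρ.q m F u := by
  set s := ρ.S hm F u with hs
  by_cases h0 : ‖s‖ = 0
  · rw [h0]
    have := mul_nonneg (sq_nonneg ‖F‖) (ρ.q_nonneg hm F u)
    simpa using this
  have hpos : 0 < ‖s‖ ^ 2 := by positivity
  have h1 : (‖s‖ ^ 2) ^ 2 ≤ ρ.q m F u * (‖F‖ ^ 2 * ‖s‖ ^ 2) := by
    have e1 : ‖s‖ ^ 2 = m (fun g => ⟪ρ.π g F, u⟫_ℝ * ⟪ρ.π g F, s⟫_ℝ) := by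
      rw [← ρ.inner_S hm F u s, ← hs, real_inner_self_eq_norm_sq]
    have e2 := hm.pos.cs (ρ.bdd_inner F u) (ρ.bdd_inner F s)
    rw [← e1] at e2
    refine e2.trans ?_
    exact mul_le_mul_of_nonneg_left (ρ.q_le hm F s) (ρ.q_nonneg hm F u)
  have h2 : (‖s‖ ^ 2) * (‖s‖ ^ 2) ≤ (‖F‖ ^ 2 * ρ.q m F u) * (‖s‖ ^ 2) := by
    nlinarith [h1]
  exact le_of_mul_le_mul_right h2 hpos

lemma S_add (hm : IsMean m) (F u v : H) : ρ.S hm F (u + v) = ρ.S hm F u + ρ.S hm F v := by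
  refine ext_inner_right ℝ fun y => ?_
  rw [inner_add_left, ρ.inner_S, ρ.inner_S, ρ.inner_S, ← map_add']
  congr 1
  ext g
  rw [inner_add_right]; ring

lemma S_smul (hm : IsMean m) (F u : H) (c : ℝ) : ρ.S hm F (c • u) = c • ρ.S hm F u := by
  refine ext_inner_right ℝ fun y => ?_
  rw [real_inner_smul_left, ρ.inner_S, ρ.inner_S, ← map_const_mul]
  congr 1
  ext g
  rw [inner_smul_right]; ring

/-- `S` as a continuous linear map -/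
noncomputable def SL (hm : IsMean m) (F : H) : H →L[ℝ] H :=
  LinearMap.mkContinuous
    { toFun := ρ.S hm F
      map_add' := ρ.S_add hm F
      map_smul' := fun c u => ρ.S_smul hm F u c } (‖F‖ ^ 2) (by
        intro u
        have h1 := ρ.norm_S_sq hm F u
        have h2 := ρ.q_le hm F u
        have h3 : ‖ρ.S hm F u‖ ^ 2 ≤ (‖F‖ ^ 2 * ‖u‖) ^ 2 := by
          calc ‖ρ.S hm F u‖ ^ 2 ≤ ‖F‖ ^ 2 * ρ.q m F u := h1
            _ ≤ ‖F‖ ^ 2 * (‖F‖ ^ 2 * ‖u‖ ^ 2) := mul_le_mul_of_nonneg_left h2 (by positivity)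
            _ = _ := by ring
        exact abs_le_of_sq_le_sq' h3 (by positivity) |>.2)

lemma SL_apply (hm : IsMean m) (F u : H) : ρ.SL hm F u = ρ.S hm F u := rfl

lemma π_S (hm : IsMean m) (hl : LInv m) (F u : H) (h : G) :
    ρ.π h (ρ.S hm F u) = ρ.S hm F (ρ.π h u) := by
  refine ext_inner_right ℝ fun y => ?_
  rw [ρ.inner_left, ρ.inner_S, ρ.inner_S]
  rw [← hl h (fun g => ⟪ρ.π g F, ρ.π h u⟫_ℝ * ⟪ρ.π g F, y⟫_ℝ)
    ((ρ.bdd_inner F _).mul (ρ.bdd_inner F _))]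
  congr 1
  ext g
  congr 1
  · rw [ρ.map_mul, (ρ.π h).inner_map_map]
  · rw [ρ.map_mul, ρ.inner_left h (ρ.π g F) y]

lemma S_mem_ap (hm : IsMean m) (hl : LInv m) (F u : H) : ρ.S hm F u ∈ ρ.ap := by
  rw [mem_ap]
  apply tb_of_approx
  intro ε hε
  set ε₁ : ℝ := ε ^ 2 / ((‖F‖ ^ 2 + 1) * (‖u‖ ^ 2 + 1)) with hε₁
  have hε₁pos : 0 < ε₁ := by positivity
  obtain ⟨V, hV, hVq⟩ := ρ.exists_fd hm F hε₁pos
  refine ⟨(fun y : V => ρ.SL hm F (y : H)) '' Metric.closedBall 0 ‖u‖, ?_, ?_⟩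
  · have h1 : IsCompact (Metric.closedBall (0 : V) ‖u‖) := isCompact_closedBall _ _
    have h2 : Continuous (fun y : V => ρ.SL hm F (y : H)) :=
      (ρ.SL hm F).continuous.comp continuous_subtype_val
    exact (h1.image h2).totallyBounded
  · intro g
    obtain ⟨y, hy, z, hz, hyz⟩ := V.exists_add_mem_mem_orthogonal (ρ.π g u)
    have horth : ⟪y, z⟫_ℝ = 0 := (Submodule.mem_orthogonal V z).1 hz y hy
    have hnorm : ‖u‖ * ‖u‖ = ‖y‖ * ‖y‖ + ‖z‖ * ‖z‖ := by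
      rw [← (ρ.π g).norm_map u, hyz]
      exact norm_add_sq_eq_norm_sq_add_norm_sq_real horth
    have hy' : ‖y‖ ≤ ‖u‖ := by nlinarith [norm_nonneg y, norm_nonneg u, norm_nonneg z]
    have hz' : ‖z‖ ^ 2 ≤ ‖u‖ ^ 2 := by nlinarith [norm_nonneg y, norm_nonneg u, norm_nonneg z]
    refine ⟨ρ.SL hm F y, ⟨⟨y, hy⟩, by simpa using hy', rfl⟩, ?_⟩
    rw [ρ.π_S hm hl, hyz, ρ.S_add, dist_eq_norm, SL_apply, add_sub_cancel_left]
    have h1 := ρ.norm_S_sq hm F z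
    have h2 := hVq z hz
    have h3 : ‖ρ.S hm F z‖ ^ 2 ≤ ε ^ 2 := by
      calc ‖ρ.S hm F z‖ ^ 2 ≤ ‖F‖ ^ 2 * ρ.q m F z := h1
        _ ≤ ‖F‖ ^ 2 * (ε₁ * ‖z‖ ^ 2) := mul_le_mul_of_nonneg_left h2 (by positivity)
        _ ≤ ‖F‖ ^ 2 * (ε₁ * ‖u‖ ^ 2) := by gcongr
        _ = ε₁ * (‖F‖ ^ 2 * ‖u‖ ^ 2) := by ring
        _ ≤ ε₁ * ((‖F‖ ^ 2 + 1) * (‖u‖ ^ 2 + 1)) := by
            apply mul_le_mul_of_nonneg_left _ hε₁pos.le
            nlinarith [sq_nonneg ‖F‖, sq_nonneg ‖u‖]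
        _ = ε ^ 2 := by rw [hε₁]; field_simp
    exact abs_le_of_sq_le_sq' h3 hε.le |>.2

/-- Weak mixing vectors: mean square correlations vanish. -/
theorem q_eq_zero (hm : IsMean m) (hl : LInv m) {F : H} (hF : F ∈ ρ.apᗮ) (u : H) :
    ρ.q m F u = 0 := by
  have h1 : ρ.S hm F u = 0 := by
    rw [← inner_self_eq_zero (𝕜 := ℝ), ρ.inner_S]
    have : (fun g => ⟪ρ.π g F, u⟫_ℝ * ⟪ρ.π g F, ρ.S hm F u⟫_ℝ) = fun _ => 0 := by
      ext g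
      have h2 := (Submodule.mem_orthogonal' ρ.ap (ρ.π g F)).1 (ρ.ap_orth_inv hF g) _
        (ρ.S_mem_ap hm hl F u)
      rw [h2, mul_zero]
    rw [this, hm.const]
  unfold q
  rw [← ρ.inner_S hm F u u, h1, inner_zero_left]

instance : CompleteSpace ρ.ap := ρ.ap_closed.completeSpace_coe

/-- the version with `b⁻¹` -/
theorem mean_inner_inv_sq (hm : IsMean m) (hl : LInv m) {F : H} (hF : F ∈ ρ.apᗮ) (u : H) :
    m (fun b => ⟪ρ.π b⁻¹ F, u⟫_ℝ * ⟪ρ.π b⁻¹ F, u⟫_ℝ) = 0 := by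
  obtain ⟨y, hy, z, hz, hyz⟩ := ρ.ap.exists_add_mem_mem_orthogonal u
  have h1 : ∀ b, ⟪ρ.π b⁻¹ F, u⟫_ℝ = ⟪ρ.π b z, F⟫_ℝ := by
    intro b
    rw [ρ.inner_left, inv_inv, hyz, map_add, inner_add_right]
    have h2 : ⟪F, ρ.π b y⟫_ℝ = 0 := (Submodule.mem_orthogonal' ρ.ap F).1 hF _ (ρ.ap_inv hy b)
    rw [h2, zero_add, real_inner_comm]
  simp_rw [h1]
  exact ρ.q_eq_zero hm hl hz F

/-- first-moment version with bounded weight -/
theorem mean_mul_inner (hm : IsMean m) (hl : LInv m) {F : H} (hF : F ∈ ρ.apᗮ) (u : H)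
    {v : G → ℝ} (hv : Bdd v) :
    m (fun b => v b * ⟪ρ.π b F, u⟫_ℝ) = 0 := by
  have h1 := hm.pos.cs hv (ρ.bdd_inner F u)
  have h2 : m (fun b => ⟪ρ.π b F, u⟫_ℝ * ⟪ρ.π b F, u⟫_ℝ) = 0 := ρ.q_eq_zero hm hl hF u
  rw [h2, mul_zero] at h1
  exact pow_eq_zero_iff (two_ne_zero) |>.1 (le_antisymm h1 (sq_nonneg _))

theorem mean_abs_inner_inv (hm : IsMean m) (hl : LInv m) {F : H} (hF : F ∈ ρ.apᗮ) (u : H) :
    m (fun b => |⟪ρ.π b⁻¹ F, u⟫_ℝ|) = 0 := by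
  have hb : Bdd (fun b => ⟪ρ.π b⁻¹ F, u⟫_ℝ) := (ρ.bdd_inner F u).comp (fun b => b⁻¹)
  have h1 := hm.pos.cs hb.abs (bdd_const (1 : ℝ))
  have h2 := ρ.mean_inner_inv_sq hm hl hF u
  have h3 : (fun b => |⟪ρ.π b⁻¹ F, u⟫_ℝ| * |⟪ρ.π b⁻¹ F, u⟫_ℝ|)
      = fun b => ⟪ρ.π b⁻¹ F, u⟫_ℝ * ⟪ρ.π b⁻¹ F, u⟫_ℝ := by
    ext b; exact abs_mul_abs_self _
  rw [h3, h2, zero_mul] at h1
  simp only [mul_one] at h1
  exact pow_eq_zero_iff (two_ne_zero) |>.1 (le_antisymm h1 (sq_nonneg _))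

/-- Smoothing with a kernel supported near the identity. -/
theorem exists_smoothing (hm : IsMean m) (hl : LInv m) {F y z : H} (hy : y ∈ ρ.ap)
    (hz : z ∈ ρ.apᗮ) (hF : F = y + z) {w : G → ℝ} (hw : IsKernel m w) {η : ℝ} (hη : 0 ≤ η)
    (hsupp : ∀ g, w g ≠ 0 → (ρ.bohr hy).d g < η) :
    ∃ J : H, (∀ x, ⟪J, x⟫_ℝ = m (fun g => w g * ⟪ρ.π g F, x⟫_ℝ)) ∧ ‖J - y‖ ≤ η := by
  obtain ⟨J, hJ⟩ := ρ.exists_wint hm hw.bdd F
  refine ⟨J, hJ, ?_⟩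
  have key : ∀ x, |⟪J - y, x⟫_ℝ| ≤ η * ‖x‖ := by
    intro x
    have e1 : ⟪J - y, x⟫_ℝ = m (fun g => w g * ⟪ρ.π g y - y, x⟫_ℝ) := by
      rw [inner_sub_left, hJ]
      have e2 : (fun g => w g * ⟪ρ.π g F, x⟫_ℝ)
          = fun g => (w g * ⟪ρ.π g y - y, x⟫_ℝ + w g * ⟪ρ.π g z, x⟫_ℝ) + ⟪y, x⟫_ℝ * w g := by
        ext g
        rw [hF, map_add, inner_add_left, inner_sub_left]; ring
      rw [e2, map_add' m (fun g => w g * ⟪ρ.π g y - y, x⟫_ℝ + w g * ⟪ρ.π g z, x⟫_ℝ),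
        map_add' m (fun g => w g * ⟪ρ.π g y - y, x⟫_ℝ), map_const_mul, hw.mean,
        ρ.mean_mul_inner hm hl hz x hw.bdd]
      ring
    rw [e1]
    have hb : Bdd (fun g => ⟪ρ.π g y - y, x⟫_ℝ) := by
      have : (fun g => ⟪ρ.π g y - y, x⟫_ℝ) = fun g => ⟪ρ.π g y, x⟫_ℝ - ⟪y, x⟫_ℝ := by
        ext g; rw [inner_sub_left]
      rw [this]
      exact (ρ.bdd_inner y x).sub (bdd_const _)
    refine (hm.pos.abs_le (hw.bdd.mul hb)).trans ?_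
    have h2 : m (fun g => |w g * ⟪ρ.π g y - y, x⟫_ℝ|) ≤ m (fun g => (η * ‖x‖) * w g) := by
      apply hm.pos.mono (hw.bdd.mul hb).abs ((bdd_const _).mul hw.bdd)
      intro g
      rw [abs_mul, abs_of_nonneg (hw.nonneg g)]
      by_cases hg : w g = 0
      · simp [hg]
      · rw [mul_comm]
        apply mul_le_mul_of_nonneg_right _ (hw.nonneg g)
        refine (abs_real_inner_le_norm _ _).trans ?_
        apply mul_le_mul_of_nonneg_right _ (norm_nonneg _)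
        exact (ρ.norm_sub_le_bohr hy g).trans (hsupp g hg).le
    rw [map_const_mul, hw.mean, mul_one] at h2
    exact h2
  have h3 := key (J - y)
  rw [real_inner_self_eq_norm_sq, abs_of_nonneg (by positivity)] at h3
  by_cases h0 : ‖J - y‖ = 0
  · rw [h0]; exact hη
  · have hpos : 0 < ‖J - y‖ := lt_of_le_of_ne (norm_nonneg _) (Ne.symm h0)
    rw [sq] at h3
    exact le_of_mul_le_mul_right h3 hpos

end Rep

end Pool.Agent.Lib.MP_cacba2_co
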